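import Mathlib

/-!
# Definition of the final statement: real numbers which are not extremely well approximable
-/

set_option autoImplicit false

namespace Pool.Agent.H11.PI

/-- `q` is not extremely well approximable by rational numbers: for every `ε > 0` there is `c > 0` with
`|q - h/k| ≥ c exp(-k^ε)` for all integers `h` and `k ≥ 1`. -/
def NotSuper (q : ℝ) : Prop := ∀ ε : ℝ, 0 < ε → ∃ c : ℝ, 0 < c ∧ ∀ (h : ℤ) (k : ℕ), 1 ≤ k →
  c * Real.exp (-((k : ℝ) ^ ε)) ≤ |q - (h : ℝ) / k|

end Pool.Agent.H11.PI
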