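import Mathlib
import Pool.Agent.H11.PC.IDEF
import Pool.Agent.H11.PE.Defs
import Pool.Agent.H11.PE.TTL
import Pool.Agent.H11.PI.RDefs

/-!
# Irrational conductors (helper11): definitions

PROJECT.  Theorem: let `F` be an entire element of the Selberg class of degree `2`, `S_F(x) = O(log log x)`, whose conductor `q`
satisfies `|q - h/k| ≥ c_ε exp(-k^ε)` for all `ε > 0`.  Then for every Dirichlet character `χ`, all real `t` and
`η > 0`: `Re ∑_p a(p) χ(p) p^(-1-it-α) ≤ η (T(α) log (1/α))^(1/2) + C`.
Main point (module IRE): an additive twist at a point `β` with a convergent of suitable size is at most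
`C exp (κ R(α))`, `R(α) = (T(α) log (1/α))^(1/2)`.  (Ramaré's identity and bilinear sums for the Dirichlet series itself.)
-/

set_option autoImplicit false

namespace Pool.Agent.H11.PI

open Complex Pool.Agent.H11.PC

/-- the primes `p` with `M0 < p ≤ M1` -/
noncomputable def PQ (M0 M1 : ℝ) : Finset ℕ :=
  (Finset.Icc 1 ⌊M1⌋₊).filter (fun p : ℕ => p.Prime ∧ M0 < (p : ℝ))

/-- the number of primes of `PQ M0 M1` dividing `m` -/
noncomputable def oq (M0 M1 : ℝ) (m : ℕ) : ℕ := ((PQ M0 M1).filter (fun p => p ∣ m)).card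

end Pool.Agent.H11.PI
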