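import Mathlib
import Pool.Agent.H11.PI.Defs

/-!
# DIO: denominators of a suitable size

`dio_inv`: `β = c/(q u)`.  For `h ≠ 0`: `β - h/k = (c k - h q u)/(q u k)`, so `|β - h/k| = (|h|/(q k)) |q - (c k · sign h)/(|h| u)| ≥
(|h|/(q k)) c1 exp (-((|h| u)^ε1))`, `c1` the constant for `ε1 = ε/2`.  If `|h| > (β + 1) k` then `|β - h/k| ≥ 1`; otherwise
`|h| u ≤ C0 k`, `C0 = (β+1) u`, and `k⁻¹ exp (-(C0 k)^(ε/2)) ≥ c' exp (-k^ε)` (`log k + (C0 k)^(ε/2) - k^ε` is bounded above).  `h = 0`: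
`|β| = β > 0` and `exp (-k^ε) ≤ 1`.
`dio_den`: `n = ⌊exp ((1/α)^η)⌋₊ ≥ 1`; Dirichlet (`Real.exists_rat_abs_sub_le_and_den_le`) gives a rational `x`, `k = x.den ≤ n`, `a = x.num`,
`|β - a/k| ≤ 1/((n+1) k) ≤ 1/k²`.  If `k < (1/α)^A` then with `ε = η/(2(A+1))`, `c` the constant of `NotSuper β`,
`c exp (-k^ε) ≤ |β - a/k| ≤ 1/(n+1) ≤ exp (-(1/α)^η)`, and `k^ε ≤ (1/α)^(Aε) ≤ (1/α)^(η/2)`: `(1/α)^η - (1/α)^(η/2) ≤ log (1/c)`, false for small `α`.
-/

set_option autoImplicit false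

namespace Pool.Agent.H11.PI

open Complex Filter Topology Pool.Agent.H11.PC Pool.Agent.H11.PE

/-- `log k + (C0 k)^(ε/2) ≤ k^ε + M` -/
private theorem dio_bd (C0 ε : ℝ) (hC0 : 0 < C0) (hε : 0 < ε) : ∃ M : ℝ, ∀ k : ℕ, 1 ≤ k →
    Real.log k + (C0 * k) ^ (ε / 2) ≤ (k : ℝ) ^ ε + M := by
  obtain ⟨D, hD⟩ : ∃ D : ℝ, D = 2 / ε + C0 ^ (ε / 2) := ⟨_, rfl⟩
  refine ⟨D ^ 2, fun k hk => ?_⟩
  have hk1 : (1 : ℝ) ≤ k := by exact_mod_cast hk
  have hk0 : (0 : ℝ) < k := by linarith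
  obtain ⟨y, hy⟩ : ∃ y : ℝ, y = (k : ℝ) ^ (ε / 2) := ⟨_, rfl⟩
  have hy2 : (k : ℝ) ^ ε = y ^ 2 := by
    rw [hy, ← Real.rpow_natCast, ← Real.rpow_mul hk0.le]
    congr 1
    norm_num
  have h1 : Real.log k ≤ 2 / ε * y := by
    have := Real.log_le_rpow_div hk0.le (by positivity : 0 < ε / 2)
    rw [← hy] at this
    calc Real.log k ≤ y / (ε / 2) := this
      _ = 2 / ε * y := by field_simp
  have h2 : (C0 * k) ^ (ε / 2) = C0 ^ (ε / 2) * y := by
    rw [Real.mul_rpow hC0.le hk0.le, hy]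
  rw [h2, hy2]
  have h3 : Real.log k + C0 ^ (ε / 2) * y ≤ D * y := by
    rw [hD, add_mul]
    linarith
  nlinarith [sq_nonneg (y - D), sq_nonneg y, sq_nonneg D]

theorem dio_inv {q : ℝ} (hq : 0 < q) (h : NotSuper q) (c u : ℕ) (hc : 1 ≤ c) (hu : 1 ≤ u) :
    NotSuper ((c : ℝ) / (q * u)) := by
  intro ε hε
  obtain ⟨c1, hc1, hmain⟩ := h (ε / 2) (by positivity)
  have hc0 : (0 : ℝ) < c := by exact_mod_cast hc
  have hu0 : (0 : ℝ) < u := by exact_mod_cast hu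
  obtain ⟨β, hβ⟩ : ∃ β : ℝ, β = (c : ℝ) / (q * u) := ⟨_, rfl⟩
  have hβ0 : 0 < β := by rw [hβ]; positivity
  obtain ⟨M, hM⟩ := dio_bd ((β + 1) * u) ε (by positivity) hε
  refine ⟨min (min 1 β) (c1 / q * Real.exp (-M)), by
    refine lt_min (lt_min one_pos hβ0) (by positivity), ?_⟩
  intro m k hk
  rw [← hβ]
  have hk1 : (1 : ℝ) ≤ k := by exact_mod_cast hk
  have hk0 : (0 : ℝ) < k := by linarith
  have hexp1 : Real.exp (-((k : ℝ) ^ ε)) ≤ 1 := by
    rw [Real.exp_le_one_iff]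
    have : 0 ≤ (k : ℝ) ^ ε := Real.rpow_nonneg hk0.le _
    linarith
  have hexp0 := Real.exp_pos (-((k : ℝ) ^ ε))
  by_cases hm : m = 0
  · rw [hm, Int.cast_zero, zero_div, sub_zero, abs_of_pos hβ0]
    calc min (min 1 β) (c1 / q * Real.exp (-M)) * Real.exp (-((k : ℝ) ^ ε))
        ≤ β * 1 := by
          apply mul_le_mul ((min_le_left _ _).trans (min_le_right _ _)) hexp1 hexp0.le hβ0.le
      _ = β := mul_one _
  have hmabs : (0 : ℝ) < |(m : ℝ)| := abs_pos.2 (by exact_mod_cast hm)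
  by_cases hbig : (β + 1) * k < |(m : ℝ)|
  · have h1 : 1 ≤ |β - (m : ℝ) / k| := by
      have h2 : β + 1 < |(m : ℝ) / k| := by
        rw [abs_div, abs_of_pos hk0, lt_div_iff₀ hk0]
        exact hbig
      have h3 : |(m : ℝ) / k| ≤ |β| + |β - (m : ℝ) / k| := by
        have h4 := abs_sub_abs_le_abs_sub ((m : ℝ) / k) β
        rw [abs_sub_comm] at h4
        linarith
      rw [abs_of_pos hβ0] at h3
      linarith
    refine le_trans ?_ h1
    calc min (min 1 β) (c1 / q * Real.exp (-M)) * Real.exp (-((k : ℝ) ^ ε))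
        ≤ 1 * 1 := by
          apply mul_le_mul ((min_le_left _ _).trans (min_le_left _ _)) hexp1 hexp0.le zero_le_one
      _ = 1 := mul_one _
  push Not at hbig
  -- the denominator
  obtain ⟨d, hd⟩ : ∃ d : ℕ, d = m.natAbs * u := ⟨_, rfl⟩
  have hd1 : 1 ≤ d := by
    rw [hd]
    exact Nat.mul_pos (Int.natAbs_pos.2 hm) hu
  have hdR : (d : ℝ) = |(m : ℝ)| * u := by
    rw [hd, Nat.cast_mul, Nat.cast_natAbs, Int.cast_abs]
  have hdR0 : (0 : ℝ) < d := by exact_mod_cast hd1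
  have h1 := hmain (m.sign * (c * k)) d hd1
  have hsg : ((m.sign : ℤ) : ℝ) * (m : ℝ) = |(m : ℝ)| := by
    have : m.sign * m = |m| := by rw [Int.sign_mul_self_eq_abs]
    exact_mod_cast this
  have hsg2 : ((m.sign : ℤ) : ℝ) ^ 2 = 1 := by
    have : m.sign ^ 2 = 1 := by
      rcases lt_or_gt_of_ne hm with h | h
      · rw [Int.sign_eq_neg_one_of_neg h]
        norm_num
      · rw [Int.sign_eq_one_of_pos h]
        norm_num
    exact_mod_cast this
  have e1 : β - (m : ℝ) / k = -((m : ℝ) / (q * k)) *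
      (q - ((m.sign * (c * k) : ℤ) : ℝ) / d) := by
    rw [hβ, hdR]
    push_cast
    have e2 : ((m.sign : ℤ) : ℝ) = |(m : ℝ)| / m := by
      rw [eq_div_iff (by exact_mod_cast hm)]
      exact hsg
    rw [e2]
    have hm0 : (m : ℝ) ≠ 0 := by exact_mod_cast hm
    field_simp
    ring
  rw [e1, abs_mul, abs_neg, abs_div, abs_of_pos (mul_pos hq hk0)]
  have h2 : 1 ≤ |(m : ℝ)| := by
    have : 1 ≤ |m| := Int.one_le_abs hm
    exact_mod_cast this
  have h3 : (d : ℝ) ^ (ε / 2) ≤ ((β + 1) * u * k) ^ (ε / 2) := by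
    apply Real.rpow_le_rpow hdR0.le _ (by positivity)
    rw [hdR]
    nlinarith
  have h4 := hM k hk
  have h5 : Real.exp (-M) * Real.exp (-((k : ℝ) ^ ε)) ≤ 1 / k * Real.exp (-((d : ℝ) ^ (ε / 2))) := by
    have h6 : 1 / (k : ℝ) = Real.exp (-Real.log k) := by
      rw [Real.exp_neg, Real.exp_log hk0, one_div]
    rw [h6, ← Real.exp_add, ← Real.exp_add]
    apply Real.exp_le_exp.2
    linarith
  calc min (min 1 β) (c1 / q * Real.exp (-M)) * Real.exp (-((k : ℝ) ^ ε))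
      ≤ c1 / q * Real.exp (-M) * Real.exp (-((k : ℝ) ^ ε)) :=
        mul_le_mul_of_nonneg_right (min_le_right _ _) hexp0.le
    _ = c1 / q * (Real.exp (-M) * Real.exp (-((k : ℝ) ^ ε))) := by ring
    _ ≤ c1 / q * (1 / k * Real.exp (-((d : ℝ) ^ (ε / 2)))) :=
        mul_le_mul_of_nonneg_left h5 (by positivity)
    _ = 1 / (q * k) * (c1 * Real.exp (-((d : ℝ) ^ (ε / 2)))) := by
        field_simp
    _ ≤ |(m : ℝ)| / (q * k) * |q - ((m.sign * (c * k) : ℤ) : ℝ) / d| := by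
        apply mul_le_mul _ h1 (by positivity) (by positivity)
        exact div_le_div_of_nonneg_right h2 (by positivity)

theorem dio_den {β : ℝ} (h : NotSuper β) (A : ℕ) (η : ℝ) (hη : 0 < η) : ∃ α0 : ℝ, 0 < α0 ∧
    ∀ α : ℝ, 0 < α → α < α0 → ∃ (k : ℕ) (a : ℤ), 1 ≤ k ∧ IsCoprime a (k : ℤ) ∧
      |β - (a : ℝ) / k| ≤ 1 / (k : ℝ) ^ 2 ∧ (1 / α) ^ A ≤ (k : ℝ) ∧
      (k : ℝ) ≤ Real.exp ((1 / α) ^ η) := by
  obtain ⟨ε, hε⟩ : ∃ ε : ℝ, ε = η / (2 * (A + 1)) := ⟨_, rfl⟩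
  have hε0 : 0 < ε := by rw [hε]; positivity
  obtain ⟨c, hc, hmain⟩ := h ε hε0
  have ev1 : ∀ᶠ x : ℝ in atTop, max 2 (Real.log (1 / c) + 1) ≤ x ^ (η / 2) :=
    (tendsto_rpow_atTop (by positivity)).eventually_ge_atTop _
  obtain ⟨X, hX⟩ := eventually_atTop.1 (ev1.and (eventually_ge_atTop (1 : ℝ)))
  refine ⟨1 / max X 1, by positivity, fun α hα hα0 => ?_⟩
  obtain ⟨x, hx⟩ : ∃ x : ℝ, x = 1 / α := ⟨_, rfl⟩
  have hmax : 0 < max X 1 := by positivity
  have hxX : max X 1 < x := by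
    rw [hx]
    exact (lt_one_div hα hmax).1 hα0
  obtain ⟨h1, h3⟩ := hX x ((le_max_left _ _).trans hxX.le)
  have hx0 : 0 < x := by linarith
  rw [← hx]
  obtain ⟨y, hy⟩ : ∃ y : ℝ, y = x ^ (η / 2) := ⟨_, rfl⟩
  have hy2 : x ^ η = y ^ 2 := by
    rw [hy, ← Real.rpow_natCast, ← Real.rpow_mul hx0.le]
    congr 1
    norm_num
  rw [← hy] at h1
  have hyl : 2 ≤ y := (le_max_left _ _).trans h1
  have hyc : Real.log (1 / c) + 1 ≤ y := (le_max_right _ _).trans h1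
  have hexp1 : 1 ≤ Real.exp (x ^ η) := Real.one_le_exp (Real.rpow_nonneg hx0.le _)
  obtain ⟨n, hn⟩ : ∃ n : ℕ, n = ⌊Real.exp (x ^ η)⌋₊ := ⟨_, rfl⟩
  have hn1 : 0 < n := by
    rw [hn]
    exact Nat.floor_pos.2 hexp1
  obtain ⟨z, hz1, hz2⟩ := Real.exists_rat_abs_sub_le_and_den_le β hn1
  have hk0 : (0 : ℝ) < z.den := by exact_mod_cast z.den_pos
  have hkn : (z.den : ℝ) ≤ n := by exact_mod_cast hz2
  have hzc : (z : ℝ) = (z.num : ℝ) / (z.den : ℝ) := by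
    exact_mod_cast (Rat.num_div_den z).symm
  rw [hzc] at hz1
  have hnle : (n : ℝ) ≤ Real.exp (x ^ η) := by
    rw [hn]
    exact Nat.floor_le (Real.exp_pos _).le
  refine ⟨z.den, z.num, z.den_pos, ?_, ?_, ?_, hkn.trans hnle⟩
  · rw [Int.isCoprime_iff_gcd_eq_one]
    exact z.reduced
  · refine hz1.trans ?_
    apply one_div_le_one_div_of_le (by positivity)
    nlinarith
  · by_contra hcon
    push Not at hcon
    have h4 := hmain z.num z.den z.den_pos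
    have h5 : |β - (z.num : ℝ) / (z.den : ℝ)| ≤ Real.exp (-(x ^ η)) := by
      refine hz1.trans ?_
      rw [Real.exp_neg, ← one_div]
      apply one_div_le_one_div_of_le (Real.exp_pos _)
      have h6 : Real.exp (x ^ η) < n + 1 := by
        rw [hn]
        exact Nat.lt_floor_add_one _
      have h7 : (1 : ℝ) ≤ z.den := by exact_mod_cast z.den_pos
      nlinarith
    have h6 : ((z.den : ℕ) : ℝ) ^ ε ≤ y := by
      calc ((z.den : ℕ) : ℝ) ^ ε ≤ (x ^ A) ^ ε := Real.rpow_le_rpow hk0.le hcon.le hε0.le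
        _ = x ^ (A * ε) := by
          rw [← Real.rpow_natCast, ← Real.rpow_mul hx0.le]
        _ ≤ x ^ (η / 2) := by
          apply Real.rpow_le_rpow_of_exponent_le h3
          rw [hε, mul_div_assoc', div_le_div_iff₀ (by positivity) (by norm_num)]
          have : (0 : ℝ) ≤ A := Nat.cast_nonneg A
          nlinarith
        _ = y := hy.symm
    have h7 : c * Real.exp (-y) ≤ Real.exp (-(x ^ η)) := by
      refine le_trans ?_ (h4.trans h5)
      apply mul_le_mul_of_nonneg_left _ hc.le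
      apply Real.exp_le_exp.2
      linarith
    have h8 := Real.log_le_log (by positivity) h7
    rw [Real.log_mul hc.ne' (Real.exp_ne_zero _), Real.log_exp, Real.log_exp, hy2] at h8
    have h9 : Real.log (1 / c) = -Real.log c := by rw [one_div, Real.log_inv]
    rw [h9] at hyc
    nlinarith

end Pool.Agent.H11.PI
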