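import Mathlib

/-!
# ABS: Abel summation for a decreasing sequence

`(1 - z) ∑ f(m) z^m = f(0) - ∑ (f(m) - f(m+1)) z^(m+1)`, of norm at most `f(0) + ∑ (f(m) - f(m+1)) = 2 f(0)`
(`f → 0` as `f` is summable).
-/

set_option autoImplicit false

namespace Pool.Agent.H11.PI

open Complex Filter Topology

theorem abel_tail (f : ℕ → ℝ) (h0 : ∀ n, 0 ≤ f n) (h1 : ∀ n, f (n + 1) ≤ f n) (hs : Summable f)
    (z : ℂ) (hz : ‖z‖ = 1) (hz1 : z ≠ 1) :
    ‖∑' m : ℕ, (f m : ℂ) * z ^ m‖ ≤ 2 * f 0 / ‖1 - z‖ := by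
  have hz0 : 0 < ‖1 - z‖ := norm_pos_iff.2 (sub_ne_zero.2 (Ne.symm hz1))
  have hS : Summable (fun m : ℕ => (f m : ℂ) * z ^ m) := by
    refine Summable.of_norm_bounded hs fun m => ?_
    rw [norm_mul, norm_pow, hz, one_pow, mul_one, Complex.norm_real, Real.norm_of_nonneg (h0 m)]
  have hd : Summable (fun m : ℕ => f m - f (m + 1)) := hs.sub ((summable_nat_add_iff 1).2 hs)
  have hdsum : ∑' m : ℕ, (f m - f (m + 1)) = f 0 := by
    rw [hs.tsum_sub ((summable_nat_add_iff 1).2 hs), hs.tsum_eq_zero_add]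
    ring
  have hS2 : Summable (fun m : ℕ => ((f m - f (m + 1) : ℝ) : ℂ) * z ^ (m + 1)) := by
    refine Summable.of_norm_bounded hd fun m => ?_
    rw [norm_mul, norm_pow, hz, one_pow, mul_one, Complex.norm_real,
      Real.norm_of_nonneg (sub_nonneg.2 (h1 m))]
  have hS3 : Summable (fun m : ℕ => (f (m + 1) : ℂ) * z ^ (m + 1)) :=
    (summable_nat_add_iff (f := fun m : ℕ => (f m : ℂ) * z ^ m) 1).2 hS
  have hS4 : Summable (fun m : ℕ => (f m : ℂ) * z ^ (m + 1)) := by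
    refine (hS.mul_left z).congr fun m => ?_
    ring
  have key : (1 - z) * ∑' m : ℕ, (f m : ℂ) * z ^ m =
      (f 0 : ℂ) - ∑' m : ℕ, ((f m - f (m + 1) : ℝ) : ℂ) * z ^ (m + 1) := by
    have e1 : ∑' m : ℕ, ((f m - f (m + 1) : ℝ) : ℂ) * z ^ (m + 1) =
        ∑' m : ℕ, (f m : ℂ) * z ^ (m + 1) - ∑' m : ℕ, (f (m + 1) : ℂ) * z ^ (m + 1) := by
      rw [← hS4.tsum_sub hS3]
      refine tsum_congr fun m => ?_
      push_cast
      ring
    have e2 : ∑' m : ℕ, (f m : ℂ) * z ^ (m + 1) = z * ∑' m : ℕ, (f m : ℂ) * z ^ m := by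
      rw [← tsum_mul_left]
      refine tsum_congr fun m => ?_
      ring
    have e3 : ∑' m : ℕ, (f m : ℂ) * z ^ m = (f 0 : ℂ) + ∑' m : ℕ, (f (m + 1) : ℂ) * z ^ (m + 1) := by
      rw [hS.tsum_eq_zero_add, pow_zero, mul_one]
    rw [e1, e2]
    linear_combination e3
  have h2 : ‖(1 - z) * ∑' m : ℕ, (f m : ℂ) * z ^ m‖ ≤ 2 * f 0 := by
    rw [key]
    refine (norm_sub_le _ _).trans ?_
    have h3 : ‖(f 0 : ℂ)‖ = f 0 := by rw [Complex.norm_real, Real.norm_of_nonneg (h0 0)]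
    have h4 : ‖∑' m : ℕ, ((f m - f (m + 1) : ℝ) : ℂ) * z ^ (m + 1)‖ ≤ f 0 := by
      rw [← hdsum]
      refine tsum_of_norm_bounded hd.hasSum fun m => ?_
      rw [norm_mul, norm_pow, hz, one_pow, mul_one, Complex.norm_real,
        Real.norm_of_nonneg (sub_nonneg.2 (h1 m))]
    rw [h3]
    linarith
  rw [norm_mul] at h2
  rw [le_div_iff₀ hz0]
  linarith

end Pool.Agent.H11.PI
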