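import Mathlib

/-!
# RCP: reciprocals of a separated set
-/

set_option autoImplicit false

namespace Pool.Agent.H11.PI

theorem rcp (k : ℕ) (hk : 4 ≤ k) (M0 M1 : ℝ) (h0 : 1 ≤ M0) (h1 : 1 ≤ M1) (B : Finset ℕ)
    (hB : ∀ n ∈ B, M0 < n ∧ (n : ℝ) ≤ M1)
    (hs : ∀ n ∈ B, ∀ m ∈ B, n ≠ m → (k : ℤ) ≤ 4 * |(n : ℤ) - m|) :
    ∑ n ∈ B, 1 / (n : ℝ) ≤ 1 / M0 + 4 / k * (1 + Real.log M1) := by
  classical
  have hk0 : (0 : ℝ) < k := by exact_mod_cast (by omega : 0 < k)
  have hinj : Set.InjOn (fun n : ℕ => 4 * n / k) (B : Set ℕ) := by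
    have key : ∀ n m : ℕ, n ∈ B → m ∈ B → n < m → 4 * n / k < 4 * m / k := by
      intro n m hn hm hnm
      have h2 := hs m hm n hn hnm.ne'
      have h3 : |(m : ℤ) - n| = (m : ℤ) - n := abs_of_pos (by omega)
      rw [h3] at h2
      have h4 : 4 * n + k ≤ 4 * m := by omega
      have h5 : (4 * n + k) / k ≤ 4 * m / k := Nat.div_le_div_right h4
      rw [Nat.add_div_right _ (by omega)] at h5
      omega
    intro n hn m hm hnm
    rcases lt_trichotomy n m with h | h | h
    · exact absurd hnm (key n m hn hm h).ne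
    · exact h
    · exact absurd hnm (key m n hm hn h).ne'
  have hpt : ∀ n ∈ B, 1 / (n : ℝ) ≤ (if 4 * n / k = 0 then 1 / M0 else 0) +
      4 / k * (if 4 * n / k = 0 then 0 else 1 / ((4 * n / k : ℕ) : ℝ)) := by
    intro n hn
    obtain ⟨h2, h3⟩ := hB n hn
    have hn0 : (0 : ℝ) < n := by linarith
    by_cases h4 : 4 * n / k = 0
    · rw [if_pos h4, if_pos h4, mul_zero, add_zero]
      exact one_div_le_one_div_of_le (by linarith) h2.le
    · rw [if_neg h4, if_neg h4, zero_add]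
      have h5 : (0 : ℝ) < ((4 * n / k : ℕ) : ℝ) := by exact_mod_cast Nat.pos_of_ne_zero h4
      have h6 : ((4 * n / k : ℕ) : ℝ) * k ≤ 4 * n := by exact_mod_cast Nat.div_mul_le_self (4 * n) k
      rw [div_mul_div_comm, mul_one, div_le_div_iff₀ hn0 (by positivity)]
      linarith
  refine (Finset.sum_le_sum hpt).trans ?_
  rw [Finset.sum_add_distrib, ← Finset.mul_sum]
  have hA : ∑ n ∈ B, (if 4 * n / k = 0 then 1 / M0 else 0) ≤ 1 / M0 := by
    rw [← Finset.sum_filter, Finset.sum_const, nsmul_eq_mul]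
    have h2 : (B.filter fun n => 4 * n / k = 0).card ≤ 1 := by
      rw [Finset.card_le_one]
      intro n hn m hm
      rw [Finset.mem_filter] at hn hm
      exact hinj hn.1 hm.1 (hn.2.trans hm.2.symm)
    have h3 : (((B.filter fun n => 4 * n / k = 0).card : ℕ) : ℝ) ≤ 1 := by exact_mod_cast h2
    have h4 : 0 < 1 / M0 := by positivity
    nlinarith
  have hBs : ∑ n ∈ B, (if 4 * n / k = 0 then 0 else 1 / ((4 * n / k : ℕ) : ℝ)) ≤
      1 + Real.log M1 := by
    have h2 : ∑ n ∈ B, (if 4 * n / k = 0 then 0 else 1 / ((4 * n / k : ℕ) : ℝ)) =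
        ∑ i ∈ B.image (fun n : ℕ => 4 * n / k), (if i = 0 then 0 else 1 / ((i : ℕ) : ℝ)) := by
      rw [Finset.sum_image hinj]
    have h3 : B.image (fun n : ℕ => 4 * n / k) ⊆ insert 0 (Finset.Icc 1 ⌊M1⌋₊) := by
      intro i hi
      rw [Finset.mem_image] at hi
      obtain ⟨n, hn, rfl⟩ := hi
      rw [Finset.mem_insert, Finset.mem_Icc]
      by_cases h4 : 4 * n / k = 0
      · exact Or.inl h4
      · right
        refine ⟨Nat.pos_of_ne_zero h4, ?_⟩
        have h5 : n ≤ ⌊M1⌋₊ := Nat.le_floor (hB n hn).2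
        have h6 : 4 * n / k ≤ n := by
          calc 4 * n / k ≤ 4 * n / 4 := Nat.div_le_div_left hk (by norm_num)
            _ = n := by omega
        exact h6.trans h5
    rw [h2]
    refine (Finset.sum_le_sum_of_subset_of_nonneg h3 fun i _ _ => ?_).trans ?_
    · split_ifs
      · exact le_rfl
      · positivity
    · rw [Finset.sum_insert (by simp), if_pos rfl, zero_add]
      have h4 : ∑ i ∈ Finset.Icc 1 ⌊M1⌋₊, (if i = 0 then (0 : ℝ) else 1 / ((i : ℕ) : ℝ)) =
          ((harmonic ⌊M1⌋₊ : ℚ) : ℝ) := by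
        rw [harmonic_eq_sum_Icc]
        push_cast
        refine Finset.sum_congr rfl fun i hi => ?_
        rw [Finset.mem_Icc] at hi
        rw [if_neg (by omega), one_div]
      rw [h4]
      exact harmonic_floor_le_one_add_log M1 h1
  have h5 : 0 ≤ 4 / (k : ℝ) := by positivity
  have := mul_le_mul_of_nonneg_left hBs h5
  linarith

end Pool.Agent.H11.PI
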