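import Mathlib
import Pool.Agent.H11.PC.VARI

/-!
# SEP: the multiples of `β` near a rational number are separated
-/

set_option autoImplicit false

namespace Pool.Agent.H11.PI

open Complex Pool.Agent.H11.PC

theorem sep (k : ℕ) (a : ℤ) (β : ℝ) (hk : 1 ≤ k) (hc : IsCoprime a (k : ℤ))
    (hβ : |β - (a : ℝ) / k| ≤ 1 / (k : ℝ) ^ 2) (l : ℤ) (hl : l ≠ 0) (hlk : 4 * |l| ≤ (k : ℤ)) :
    1 / (k : ℝ) ≤ ‖1 - cexp (-(2 * (Real.pi : ℂ) * l * β * I))‖ := by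
  have hk0 : (0 : ℝ) < k := by exact_mod_cast hk
  have h1 := vari_lower2 ((l : ℝ) * β) (r := 1) zero_le_one le_rfl
  have e1 : (1 : ℂ) - ((1 : ℝ) : ℂ) * cexp (-(2 * (Real.pi : ℂ) * (((l : ℝ) * β : ℝ) : ℂ) * I)) =
      1 - cexp (-(2 * (Real.pi : ℂ) * l * β * I)) := by
    push_cast
    rw [one_mul]
    congr 3
    ring
  rw [e1] at h1
  obtain ⟨n, hn⟩ : ∃ n : ℤ, n = round ((l : ℝ) * β) := ⟨_, rfl⟩
  rw [← hn] at h1
  have h2 : (1 : ℝ) ≤ |(l : ℝ) * a - k * n| := by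
    have h3 : l * a - k * n ≠ 0 := by
      intro h0
      have h4 : (k : ℤ) ∣ l * a := ⟨n, by linarith⟩
      have h5 : (k : ℤ) ∣ l := hc.symm.dvd_of_dvd_mul_right h4
      have h6 : |l| < (k : ℤ) := by
        have : 0 < |l| := abs_pos.2 hl
        linarith
      exact hl (Int.eq_zero_of_abs_lt_dvd h5 h6)
    have h4 : 1 ≤ |l * a - k * n| := Int.one_le_abs h3
    exact_mod_cast h4
  have h3 : (1 : ℝ) / k ≤ |(l : ℝ) * (a / k) - n| := by
    have e2 : (l : ℝ) * (a / k) - n = (l * a - k * n) / k := by field_simp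
    rw [e2, abs_div, abs_of_pos hk0]
    exact div_le_div_of_nonneg_right h2 hk0.le
  have h4 : |(l : ℝ) * β - l * (a / k)| ≤ 1 / (4 * k) := by
    rw [← mul_sub, abs_mul]
    have h5 : (4 : ℝ) * |(l : ℝ)| ≤ k := by exact_mod_cast hlk
    calc |(l : ℝ)| * |β - (a : ℝ) / k| ≤ |(l : ℝ)| * (1 / (k : ℝ) ^ 2) := by gcongr
      _ ≤ (k / 4) * (1 / (k : ℝ) ^ 2) := by
        gcongr
        linarith
      _ = 1 / (4 * k) := by field_simp
  have h5 : |(l : ℝ) * (a / k) - n| ≤ |(l : ℝ) * β - l * (a / k)| + |(l : ℝ) * β - n| := by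
    have := abs_sub_le ((l : ℝ) * (a / k)) ((l : ℝ) * β) (n : ℝ)
    rw [abs_sub_comm ((l : ℝ) * (a / k)) ((l : ℝ) * β)] at this
    exact this
  have h6 : 1 / (k : ℝ) ≤ 2 * (1 / k - 1 / (4 * k)) := by
    have : 1 / (4 * (k : ℝ)) = (1 / k) / 4 := by field_simp
    rw [this]
    have : 0 < 1 / (k : ℝ) := by positivity
    linarith
  linarith

end Pool.Agent.H11.PI
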