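import Mathlib
import Pool.Agent.H11.PI.Defs
import Pool.Agent.H11.PI.ABS
import Pool.Agent.H11.PI.SEP
import Pool.Agent.H11.PI.RCP

/-!
# BLS: the mean square of a sum over the primes of `(M0, M1]`

`f m = (K + m)^(-(1+α))`: nonnegative, decreasing, summable, `∑ f ≤ ∑_{n ≥ 1} n^(-(1+α)) ≤ 1 + 1/α ≤ 2/α`, `f 0 ≤ 1/K`.  For `p, p'`
let `z = exp (-2πi (p - p') β)` and `x(p,p') = ∑_m f m z^(K+m)`.  Opening the square,
`∑_m f m ‖∑_p v p ee β (p (K+m))‖² = ∑_{p,p'} v p conj (v p') x(p,p') ≤ ∑_{p,p'} (u p/p) (u p'/p') ‖x(p,p')‖ ≤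
∑_{p,p'} (1/2) (u p² + u p'²) /(p p') ‖x(p,p')‖ = ∑_p (u p²/p) ∑_{p'} (1/p') ‖x(p,p')‖` (`‖x(p,p')‖ = ‖x(p',p)‖`, conjugates).
If `‖1 - z‖ ≥ 1/(2k)`: `‖x(p,p')‖ ≤ 2 f 0/‖1 - z‖ ≤ 4k/K` (`abel_tail`).  Otherwise (`p'` bad for `p`) `‖x(p,p')‖ ≤ ∑ f ≤ 2/α`.
Two different `p', p''` which are bad for `p` satisfy `4 |p' - p''| > k`: otherwise `sep` gives
`1/k ≤ ‖1 - exp (-2πi (p'-p'')β)‖ ≤ ‖1 - exp (-2πi (p - p'')β)‖ + ‖1 - exp (-2πi (p - p') β)‖ < 1/k`.  So `rcp` bounds the sum of `1/p'` over the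
bad `p'` (all in `(M0, M1]`).  `∑_{p'} 1/p' ≤ ∑_{n ≤ M1} 1/n ≤ 1 + log M1` (`harmonic_floor_le_one_add_log`).
-/

set_option autoImplicit false

namespace Pool.Agent.H11.PI

open Complex Filter Topology Pool.Agent.H11.PC Pool.Agent.H11.PE

/-- `e(-lβ)` -/
private noncomputable def zz (β : ℝ) (l : ℤ) : ℂ := cexp (-(2 * (Real.pi : ℂ) * l * β * I))

private theorem zz_norm (β : ℝ) (l : ℤ) : ‖zz β l‖ = 1 := by
  unfold zz
  have : (-(2 * (Real.pi : ℂ) * l * β * Complex.I)) = ((-(2 * Real.pi * l * β) : ℝ) : ℂ) * I := by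
    push_cast
    ring
  rw [this, Complex.norm_exp_ofReal_mul_I]

private theorem zz_add (β : ℝ) (l l' : ℤ) : zz β (l + l') = zz β l * zz β l' := by
  unfold zz
  rw [← Complex.exp_add]
  congr 1
  push_cast
  ring

private theorem zz_conj (β : ℝ) (l : ℤ) : (starRingEnd ℂ) (zz β l) = zz β (-l) := by
  unfold zz
  rw [← Complex.exp_conj]
  congr 1
  rw [map_neg, map_mul, map_mul, map_mul, map_mul, Complex.conj_I, Complex.conj_ofReal,
    Complex.conj_ofReal, map_ofNat, map_intCast]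
  push_cast
  ring

private theorem zz_pow (β : ℝ) (l : ℤ) (n : ℕ) : zz β l ^ n = zz β (l * n) := by
  unfold zz
  rw [← Complex.exp_nat_mul]
  congr 1
  push_cast
  ring

private theorem zz_ee (β : ℝ) (n : ℕ) : ee β n = zz β (n : ℤ) := by
  unfold ee zz
  push_cast
  rfl

private theorem bls_zeta (α : ℝ) (hα : 0 < α) : Summable (fun n : ℕ => (n : ℝ) ^ (-(1 + α))) ∧
    ∑' n : ℕ, (n : ℝ) ^ (-(1 + α)) ≤ 1 + 1 / α := by
  have hs : Summable (fun n : ℕ => (n : ℝ) ^ (-(1 + α))) := by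
    rw [Real.summable_nat_rpow]
    linarith
  refine ⟨hs, ?_⟩
  rw [hs.tsum_eq_zero_add]
  have h1 := ZetaAsymptotics.zeta_limit_aux1 (s := 1 + α) (by linarith)
  have h2 : 0 ≤ ZetaAsymptotics.termTSum (1 + α) :=
    tsum_nonneg fun n => ZetaAsymptotics.term_nonneg _ _
  have h3 : ∑' n : ℕ, ((n + 1 : ℕ) : ℝ) ^ (-(1 + α)) = ∑' n : ℕ, 1 / ((n : ℝ) + 1) ^ (1 + α) := by
    apply tsum_congr
    intro n
    rw [Real.rpow_neg (by positivity), one_div]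
    push_cast
    rfl
  rw [h3]
  have h4 : ((0 : ℕ) : ℝ) ^ (-(1 + α)) = 0 := by
    rw [Nat.cast_zero, Real.zero_rpow (by linarith)]
  rw [h4]
  have h5 : (1 + α - 1) = α := by ring
  rw [h5] at h1
  have h6 : 0 ≤ (1 + α) * ZetaAsymptotics.termTSum (1 + α) := mul_nonneg (by linarith) h2
  linarith

theorem bls (k : ℕ) (a : ℤ) (β : ℝ) (hk : 4 ≤ k) (hc : IsCoprime a (k : ℤ))
    (hβ : |β - (a : ℝ) / k| ≤ 1 / (k : ℝ) ^ 2) (α : ℝ) (hα : 0 < α) (hα1 : α ≤ 1)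
    (M0 M1 : ℝ) (h0 : 1 ≤ M0) (h1 : 1 ≤ M1) (K : ℕ) (hK : 1 ≤ K) (v : ℕ → ℂ) (u : ℕ → ℝ)
    (hv : ∀ p ∈ PQ M0 M1, ‖v p‖ ≤ u p / p) :
    Summable (fun m : ℕ => ((K + m : ℕ) : ℝ) ^ (-(1 + α)) *
      ‖∑ p ∈ PQ M0 M1, v p * ee β (p * (K + m))‖ ^ 2) ∧
    ∑' m : ℕ, ((K + m : ℕ) : ℝ) ^ (-(1 + α)) *
      ‖∑ p ∈ PQ M0 M1, v p * ee β (p * (K + m))‖ ^ 2 ≤
      (∑ p ∈ PQ M0 M1, u p ^ 2 / p) *
        (4 * k / K * (1 + Real.log M1) + 2 / α * (1 / M0 + 4 / k * (1 + Real.log M1))) := by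
  classical
  have hk0 : (0 : ℝ) < k := by
    have : 0 < k := by omega
    exact_mod_cast this
  have hK0 : (0 : ℝ) < K := by exact_mod_cast hK
  set P : Finset ℕ := PQ M0 M1 with hP
  obtain ⟨f, hf⟩ : ∃ f : ℕ → ℝ, f = fun m : ℕ => ((K + m : ℕ) : ℝ) ^ (-(1 + α)) := ⟨_, rfl⟩
  have hf0 : ∀ m, 0 ≤ f m := fun m => by rw [hf]; positivity
  obtain ⟨hzs, hzb⟩ := bls_zeta α hα
  have hinj : Function.Injective (fun m : ℕ => K + m) := fun x y h => by simpa using h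
  have hfs : Summable f := by
    rw [hf]
    exact hzs.comp_injective hinj
  have hfsum : ∑' m, f m ≤ 2 / α := by
    have h2 : ∑' m, f m ≤ ∑' n : ℕ, (n : ℝ) ^ (-(1 + α)) := by
      rw [hf]
      exact tsum_comp_le_tsum_of_inj hzs (fun n => by positivity) hinj
    have h3 : (1 : ℝ) ≤ 1 / α := by rw [le_div_iff₀ hα]; linarith
    have h4 : 2 / α = 1 / α + 1 / α := by ring
    linarith
  have hfanti : ∀ m, f (m + 1) ≤ f m := by
    intro m
    rw [hf]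
    apply Real.rpow_le_rpow_of_nonpos
    · exact_mod_cast (by omega : 0 < K + m)
    · exact_mod_cast (by omega : K + m ≤ K + (m + 1))
    · linarith
  have hf00 : f 0 ≤ 1 / K := by
    rw [hf]
    show ((K + 0 : ℕ) : ℝ) ^ (-(1 + α)) ≤ 1 / K
    rw [add_zero, one_div, ← Real.rpow_neg_one]
    apply Real.rpow_le_rpow_of_exponent_le (by exact_mod_cast hK) (by linarith)
  -- the sums x
  obtain ⟨x, hx⟩ : ∃ x : ℕ → ℕ → ℂ, x = fun p p' : ℕ =>
    ∑' m : ℕ, (f m : ℂ) * zz β ((p : ℤ) - p') ^ (K + m) := ⟨_, rfl⟩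
  have hxs : ∀ p p' : ℕ, Summable (fun m : ℕ => (f m : ℂ) * zz β ((p : ℤ) - p') ^ (K + m)) := by
    intro p p'
    refine Summable.of_norm_bounded hfs fun m => ?_
    rw [norm_mul, norm_pow, zz_norm, one_pow, mul_one, Complex.norm_real,
      Real.norm_of_nonneg (hf0 m)]
  have hxsym : ∀ p p' : ℕ, ‖x p' p‖ = ‖x p p'‖ := by
    intro p p'
    have : x p' p = (starRingEnd ℂ) (x p p') := by
      rw [hx]
      show ∑' m : ℕ, (f m : ℂ) * zz β ((p' : ℤ) - p) ^ (K + m) =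
        (starRingEnd ℂ) (∑' m : ℕ, (f m : ℂ) * zz β ((p : ℤ) - p') ^ (K + m))
      rw [Complex.conj_tsum]
      refine tsum_congr fun m => ?_
      rw [map_mul, map_pow, zz_conj, Complex.conj_ofReal, neg_sub]
    rw [this, Complex.norm_conj]
  have hxb1 : ∀ p p' : ℕ, ‖x p p'‖ ≤ 2 / α := by
    intro p p'
    rw [hx]
    refine (tsum_of_norm_bounded hfs.hasSum fun m => ?_).trans hfsum
    rw [norm_mul, norm_pow, zz_norm, one_pow, mul_one, Complex.norm_real,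
      Real.norm_of_nonneg (hf0 m)]
  have hxb2 : ∀ p p' : ℕ, 1 / (2 * (k : ℝ)) ≤ ‖1 - zz β ((p : ℤ) - p')‖ →
      ‖x p p'‖ ≤ 4 * k / K := by
    intro p p' hz
    have hzpos : 0 < ‖1 - zz β ((p : ℤ) - p')‖ := lt_of_lt_of_le (by positivity) hz
    have hz1 : zz β ((p : ℤ) - p') ≠ 1 := by
      intro h
      rw [h, sub_self, norm_zero] at hzpos
      exact lt_irrefl _ hzpos
    have h2 := abel_tail f hf0 hfanti hfs (zz β ((p : ℤ) - p')) (zz_norm _ _) hz1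
    have h3 : x p p' = zz β ((p : ℤ) - p') ^ K * ∑' m : ℕ, (f m : ℂ) * zz β ((p : ℤ) - p') ^ m := by
      rw [hx]
      show ∑' m : ℕ, (f m : ℂ) * zz β ((p : ℤ) - p') ^ (K + m) = _
      rw [← tsum_mul_left]
      refine tsum_congr fun m => ?_
      rw [pow_add]
      ring
    rw [h3, norm_mul, norm_pow, zz_norm, one_pow, one_mul]
    refine h2.trans ?_
    rw [div_le_iff₀ hzpos]
    have h4 : 4 * (k : ℝ) / K * (1 / (2 * k)) = 2 * (1 / K) := by field_simp; ring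
    calc 2 * f 0 ≤ 2 * (1 / K) := by linarith
      _ = 4 * (k : ℝ) / K * (1 / (2 * k)) := h4.symm
      _ ≤ 4 * (k : ℝ) / K * ‖1 - zz β ((p : ℤ) - p')‖ := mul_le_mul_of_nonneg_left hz (by positivity)
  -- the primes
  have hPp : ∀ p ∈ P, p.Prime ∧ M0 < (p : ℝ) ∧ (p : ℝ) ≤ M1 := by
    intro p hp
    rw [hP] at hp
    unfold PQ at hp
    rw [Finset.mem_filter, Finset.mem_Icc] at hp
    refine ⟨hp.2.1, hp.2.2, ?_⟩
    exact (Nat.cast_le.2 hp.1.2).trans (Nat.floor_le (by linarith))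
  have hpos : ∀ p ∈ P, (0 : ℝ) < p := fun p hp => by exact_mod_cast (hPp p hp).1.pos
  have hu : ∀ p ∈ P, 0 ≤ u p := by
    intro p hp
    have h2 := (norm_nonneg _).trans (hv p hp)
    have h3 := hpos p hp
    by_contra hcon
    push Not at hcon
    have : u p / p < 0 := div_neg_of_neg_of_pos hcon h3
    linarith
  have hharm : ∑ p ∈ P, 1 / (p : ℝ) ≤ 1 + Real.log M1 := by
    have h2 : P ⊆ Finset.Icc 1 ⌊M1⌋₊ := by
      rw [hP]
      exact Finset.filter_subset _ _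
    refine (Finset.sum_le_sum_of_subset_of_nonneg h2 fun i _ _ => by positivity).trans ?_
    have h4 : ∑ i ∈ Finset.Icc 1 ⌊M1⌋₊, 1 / ((i : ℕ) : ℝ) = ((harmonic ⌊M1⌋₊ : ℚ) : ℝ) := by
      rw [harmonic_eq_sum_Icc]
      push_cast
      refine Finset.sum_congr rfl fun i _ => ?_
      rw [one_div]
    rw [h4]
    exact harmonic_floor_le_one_add_log M1 h1
  have hlog : 0 ≤ 1 + Real.log M1 := by
    have := Real.log_nonneg h1
    linarith
  obtain ⟨Bd, hBd⟩ : ∃ Bd : ℝ, Bd = 4 * k / K * (1 + Real.log M1) +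
    2 / α * (1 / M0 + 4 / k * (1 + Real.log M1)) := ⟨_, rfl⟩
  have hrow : ∀ p ∈ P, ∑ p' ∈ P, 1 / (p' : ℝ) * ‖x p p'‖ ≤ Bd := by
    intro p hp
    set B : Finset ℕ := P.filter (fun p' => ‖1 - zz β ((p : ℤ) - p')‖ < 1 / (2 * (k : ℝ))) with hB
    have hle : ∀ p' ∈ P, 1 / (p' : ℝ) * ‖x p p'‖ ≤ 4 * k / K * (1 / (p' : ℝ)) +
        2 / α * (if p' ∈ B then 1 / (p' : ℝ) else 0) := by
      intro p' hp'
      have h2 := hpos p' hp'
      by_cases hb : p' ∈ B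
      · rw [if_pos hb]
        have h3 := mul_le_mul_of_nonneg_left (hxb1 p p') (by positivity : 0 ≤ 1 / (p' : ℝ))
        have h4 : 0 ≤ 4 * k / K * (1 / (p' : ℝ)) := by positivity
        linarith
      · rw [if_neg hb, mul_zero, add_zero]
        have h3 : 1 / (2 * (k : ℝ)) ≤ ‖1 - zz β ((p : ℤ) - p')‖ := by
          by_contra hcon
          push Not at hcon
          exact hb (Finset.mem_filter.2 ⟨hp', hcon⟩)
        have h4 := mul_le_mul_of_nonneg_left (hxb2 p p' h3) (by positivity : 0 ≤ 1 / (p' : ℝ))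
        linarith
    refine (Finset.sum_le_sum hle).trans ?_
    rw [Finset.sum_add_distrib, ← Finset.mul_sum, ← Finset.mul_sum, ← Finset.sum_filter]
    have h2 : P.filter (fun p' => p' ∈ B) = B := by
      ext p'
      rw [Finset.mem_filter]
      constructor
      · exact fun h => h.2
      · exact fun h => ⟨(Finset.mem_filter.1 h).1, h⟩
    rw [h2]
    have h3 : ∑ n ∈ B, 1 / (n : ℝ) ≤ 1 / M0 + 4 / k * (1 + Real.log M1) := by
      refine rcp k hk M0 M1 h0 h1 B (fun n hn => (hPp n (Finset.mem_filter.1 hn).1).2) ?_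
      intro n hn m hm hnm
      by_contra hcon
      push Not at hcon
      have h4 := (Finset.mem_filter.1 hn).2
      have h5 := (Finset.mem_filter.1 hm).2
      have h6 := sep k a β (by omega) hc hβ ((n : ℤ) - m) (by
        intro h
        apply hnm
        omega) hcon.le
      have h7 : zz β ((n : ℤ) - m) = zz β ((p : ℤ) - m) * (starRingEnd ℂ) (zz β ((p : ℤ) - n)) := by
        rw [zz_conj, ← zz_add]
        congr 1
        ring
      have h8 : ‖1 - zz β ((n : ℤ) - m)‖ = ‖zz β ((p : ℤ) - n) - zz β ((p : ℤ) - m)‖ := by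
        have h9 : zz β ((p : ℤ) - n) * (starRingEnd ℂ) (zz β ((p : ℤ) - n)) = 1 := by
          rw [Complex.mul_conj, Complex.normSq_eq_norm_sq, zz_norm]
          norm_num
        have h10 : zz β ((p : ℤ) - n) * (1 - zz β ((n : ℤ) - m)) =
            zz β ((p : ℤ) - n) - zz β ((p : ℤ) - m) := by
          rw [h7]
          linear_combination (-zz β ((p : ℤ) - m)) * h9
        rw [← h10, norm_mul, zz_norm, one_mul]
      have h9 : ‖zz β ((p : ℤ) - n) - zz β ((p : ℤ) - m)‖ ≤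
          ‖1 - zz β ((p : ℤ) - m)‖ + ‖1 - zz β ((p : ℤ) - n)‖ := by
        have h10 : zz β ((p : ℤ) - n) - zz β ((p : ℤ) - m) =
            (1 - zz β ((p : ℤ) - m)) - (1 - zz β ((p : ℤ) - n)) := by ring
        rw [h10]
        exact norm_sub_le _ _
      have h10 : 1 / (2 * (k : ℝ)) + 1 / (2 * (k : ℝ)) = 1 / k := by field_simp; ring
      have h11 : 1 / (k : ℝ) ≤ ‖1 - zz β ((n : ℤ) - m)‖ := by
        unfold zz
        push_cast at h6 ⊢
        exact h6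
      linarith
    rw [hBd]
    exact add_le_add (mul_le_mul_of_nonneg_left hharm (by positivity))
      (mul_le_mul_of_nonneg_left h3 (by positivity))
  -- opening the square
  obtain ⟨S, hS⟩ : ∃ S : ℕ → ℂ, S = fun m : ℕ => ∑ p ∈ P, v p * ee β (p * (K + m)) := ⟨_, rfl⟩
  have hSb : ∀ m, ‖S m‖ ≤ ∑ p ∈ P, ‖v p‖ := by
    intro m
    rw [hS]
    refine (norm_sum_le _ _).trans (Finset.sum_le_sum fun p _ => ?_)
    rw [norm_mul, zz_ee, zz_norm, mul_one]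
  have hsum : Summable (fun m : ℕ => f m * ‖S m‖ ^ 2) := by
    refine Summable.of_nonneg_of_le (fun m => mul_nonneg (hf0 m) (sq_nonneg _)) (fun m => ?_)
      (hfs.mul_right ((∑ p ∈ P, ‖v p‖) ^ 2))
    exact mul_le_mul_of_nonneg_left (pow_le_pow_left₀ (norm_nonneg _) (hSb m) 2) (hf0 m)
  have hopen : ∀ m : ℕ, ((f m * ‖S m‖ ^ 2 : ℝ) : ℂ) = ∑ p ∈ P, ∑ p' ∈ P,
      v p * (starRingEnd ℂ) (v p') * ((f m : ℂ) * zz β ((p : ℤ) - p') ^ (K + m)) := by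
    intro m
    have h2 : ((‖S m‖ ^ 2 : ℝ) : ℂ) = S m * (starRingEnd ℂ) (S m) := by
      rw [Complex.mul_conj, Complex.normSq_eq_norm_sq]
    rw [Complex.ofReal_mul, h2, hS]
    simp only [map_sum, map_mul]
    rw [Finset.sum_mul_sum, Finset.mul_sum]
    refine Finset.sum_congr rfl fun p _ => ?_
    rw [Finset.mul_sum]
    refine Finset.sum_congr rfl fun p' _ => ?_
    have h3 : ee β (p * (K + m)) * (starRingEnd ℂ) (ee β (p' * (K + m))) =
        zz β ((p : ℤ) - p') ^ (K + m) := by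
      rw [zz_ee, zz_ee, zz_conj, ← zz_add, zz_pow]
      congr 1
      push_cast
      ring
    rw [← h3]
    ring
  have htot : ((∑' m, f m * ‖S m‖ ^ 2 : ℝ) : ℂ) = ∑ p ∈ P, ∑ p' ∈ P,
      v p * (starRingEnd ℂ) (v p') * x p p' := by
    rw [Complex.ofReal_tsum]
    simp only [hopen]
    rw [Summable.tsum_finsetSum (fun p _ => summable_sum fun p' _ => (hxs p p').mul_left _)]
    refine Finset.sum_congr rfl fun p _ => ?_
    rw [Summable.tsum_finsetSum (fun p' _ => (hxs p p').mul_left _)]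
    refine Finset.sum_congr rfl fun p' _ => ?_
    rw [tsum_mul_left, hx]
  have hSeq : ∀ m : ℕ, ((K + m : ℕ) : ℝ) ^ (-(1 + α)) *
      ‖∑ p ∈ P, v p * ee β (p * (K + m))‖ ^ 2 = f m * ‖S m‖ ^ 2 := by
    intro m
    rw [hf, hS]
  simp only [hSeq]
  refine ⟨hsum, ?_⟩
  have hnn : 0 ≤ ∑' m, f m * ‖S m‖ ^ 2 := tsum_nonneg fun m => mul_nonneg (hf0 m) (sq_nonneg _)
  have hnorm : ∑' m, f m * ‖S m‖ ^ 2 ≤ ∑ p ∈ P, ∑ p' ∈ P, ‖v p‖ * ‖v p'‖ * ‖x p p'‖ := by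
    have h2 : ∑' m, f m * ‖S m‖ ^ 2 = ‖((∑' m, f m * ‖S m‖ ^ 2 : ℝ) : ℂ)‖ := by
      rw [Complex.norm_real, Real.norm_of_nonneg hnn]
    rw [h2, htot]
    refine (norm_sum_le _ _).trans (Finset.sum_le_sum fun p _ => ?_)
    refine (norm_sum_le _ _).trans (Finset.sum_le_sum fun p' _ => ?_)
    rw [norm_mul, norm_mul, Complex.norm_conj]
  refine hnorm.trans ?_
  have hterm : ∀ p ∈ P, ∀ p' ∈ P, ‖v p‖ * ‖v p'‖ * ‖x p p'‖ ≤
      1 / 2 * (u p ^ 2 / p * (1 / (p' : ℝ) * ‖x p p'‖)) +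
        1 / 2 * (u p' ^ 2 / p' * (1 / (p : ℝ) * ‖x p' p‖)) := by
    intro p hp p' hp'
    have h2 := hpos p hp
    have h3 := hpos p' hp'
    have h4 : ‖v p‖ * ‖v p'‖ ≤ u p / p * (u p' / p') :=
      mul_le_mul (hv p hp) (hv p' hp') (norm_nonneg _) ((norm_nonneg _).trans (hv p hp))
    have h5 : u p / p * (u p' / p') ≤ 1 / 2 * (u p ^ 2 / p * (1 / (p' : ℝ))) +
        1 / 2 * (u p' ^ 2 / p' * (1 / (p : ℝ))) := by
      have h6 : 1 / 2 * (u p ^ 2 / p * (1 / (p' : ℝ))) +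
          1 / 2 * (u p' ^ 2 / p' * (1 / (p : ℝ))) - u p / p * (u p' / p') =
          (u p - u p') ^ 2 / (2 * (p * p')) := by
        field_simp
        ring
      have h7 : 0 ≤ (u p - u p') ^ 2 / (2 * ((p : ℝ) * p')) := by positivity
      linarith
    rw [hxsym p p']
    calc ‖v p‖ * ‖v p'‖ * ‖x p p'‖ ≤ (1 / 2 * (u p ^ 2 / p * (1 / (p' : ℝ))) +
        1 / 2 * (u p' ^ 2 / p' * (1 / (p : ℝ)))) * ‖x p p'‖ :=
          mul_le_mul_of_nonneg_right (h4.trans h5) (norm_nonneg _)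
      _ = _ := by ring
  have hA : ∑ p ∈ P, ∑ p' ∈ P, u p ^ 2 / p * (1 / (p' : ℝ) * ‖x p p'‖) ≤
      (∑ p ∈ P, u p ^ 2 / p) * Bd := by
    rw [Finset.sum_mul]
    refine Finset.sum_le_sum fun p hp => ?_
    rw [← Finset.mul_sum]
    have := hpos p hp
    exact mul_le_mul_of_nonneg_left (hrow p hp) (by positivity)
  have hB' : ∑ p ∈ P, ∑ p' ∈ P, u p' ^ 2 / p' * (1 / (p : ℝ) * ‖x p' p‖) ≤
      (∑ p ∈ P, u p ^ 2 / p) * Bd := by
    rw [Finset.sum_comm]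
    exact hA
  calc ∑ p ∈ P, ∑ p' ∈ P, ‖v p‖ * ‖v p'‖ * ‖x p p'‖
      ≤ ∑ p ∈ P, ∑ p' ∈ P, (1 / 2 * (u p ^ 2 / p * (1 / (p' : ℝ) * ‖x p p'‖)) +
        1 / 2 * (u p' ^ 2 / p' * (1 / (p : ℝ) * ‖x p' p‖))) :=
        Finset.sum_le_sum fun p hp => Finset.sum_le_sum fun p' hp' => hterm p hp p' hp'
    _ = 1 / 2 * (∑ p ∈ P, ∑ p' ∈ P, u p ^ 2 / p * (1 / (p' : ℝ) * ‖x p p'‖)) +
        1 / 2 * ∑ p ∈ P, ∑ p' ∈ P, u p' ^ 2 / p' * (1 / (p : ℝ) * ‖x p' p‖) := by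
        simp only [Finset.sum_add_distrib, Finset.mul_sum]
    _ ≤ (∑ p ∈ P, u p ^ 2 / p) * Bd := by linarith
    _ = _ := by rw [hBd]

end Pool.Agent.H11.PI
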