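import Mathlib
import Pool.Agent.H11.PI.Defs
import Pool.Agent.H11.PE.SUMM
import Pool.Agent.H11.PC.MULTB

/-!
# MEX: sums of `|b|` and `|b|²` against exponentials of prime sums

`mex`: `mult_le_exp` (`PC/MULTB.lean`) for `f n = 0` if `n = 0` or some prime of `Z` divides `n`, otherwise `‖b n‖ n^(-(1+α))`
(multiplicative: `h.mul`; a prime divides `m n`, `m` and `n` coprime, iff it divides `m` or `n`; `f 1 = 1` by `h.one`).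
`mex2`: the same for `‖b n‖² n^(-(1+α))` (no `Z`); `TT b α` is the prime part (`TT_summable` in `PE/TTL.lean`).
-/

set_option autoImplicit false

namespace Pool.Agent.H11.PI

open Complex Filter Topology Pool.Agent.H11.PC Pool.Agent.H11.PE

private theorem mex_pow (p : ℝ) (hp : 2 ≤ p) (j : ℕ) :
    (p ^ (j + 2)) ^ (-(3 / 4) : ℝ) ≤ p ^ (-(3 / 2) : ℝ) * (3 / 5) ^ j := by
  have hp0 : 0 < p := by linarith
  have h1 : (p ^ (j + 2)) ^ (-(3 / 4) : ℝ) = p ^ (-(3 / 2) : ℝ) * (p ^ (-(3 / 4) : ℝ)) ^ j := by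
    rw [← Real.rpow_natCast p (j + 2), ← Real.rpow_mul hp0.le, ← Real.rpow_natCast _ j,
      ← Real.rpow_mul hp0.le, ← Real.rpow_add hp0]
    congr 1
    push_cast
    ring
  rw [h1]
  have h2 : p ^ (-(3 / 4) : ℝ) ≤ 3 / 5 := by
    have h3 : p ^ (-(3 / 4) : ℝ) ≤ (2 : ℝ) ^ (-(3 / 4) : ℝ) :=
      Real.rpow_le_rpow_of_nonpos (by norm_num) hp (by norm_num)
    refine h3.trans ?_
    rw [Real.rpow_neg (by norm_num), inv_le_comm₀ (by positivity) (by norm_num)]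
    have h4 : ((3 / 5 : ℝ)⁻¹) = ((5 / 3 : ℝ) ^ (4 : ℕ)) ^ (1 / 4 : ℝ) := by
      rw [← Real.rpow_natCast, ← Real.rpow_mul (by norm_num)]
      norm_num
    have h5 : (2 : ℝ) ^ (3 / 4 : ℝ) = ((2 : ℝ) ^ (3 : ℕ)) ^ (1 / 4 : ℝ) := by
      rw [← Real.rpow_natCast, ← Real.rpow_mul (by norm_num)]
      norm_num
    rw [h4, h5]
    apply Real.rpow_le_rpow (by positivity) (by norm_num) (by norm_num)
  apply mul_le_mul_of_nonneg_left _ (by positivity)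
  exact pow_le_pow_left₀ (by positivity) h2 j

private theorem mex_gen (C : ℝ) (hC : 0 ≤ C) : ∃ D : ℝ, ∀ f : ℕ → ℝ, f 0 = 0 → f 1 = 1 →
    (∀ m n : ℕ, Nat.Coprime m n → f (m * n) = f m * f n) → (∀ n, 0 ≤ f n) →
    (∀ n : ℕ, 1 ≤ n → f n ≤ C * (n : ℝ) ^ (-(3 / 4) : ℝ)) →
    Summable (fun p : Nat.Primes => f (p : ℕ)) →
    Summable f ∧ ∑' n, f n ≤ Real.exp (D + ∑' p : Nat.Primes, f (p : ℕ)) := by
  have hsp : Summable fun p : Nat.Primes => ((p : ℕ) : ℝ) ^ (-(3 / 2) : ℝ) :=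
    Nat.Primes.summable_rpow.2 (by norm_num)
  refine ⟨C * (5 / 2) * ∑' p : Nat.Primes, ((p : ℕ) : ℝ) ^ (-(3 / 2) : ℝ), ?_⟩
  intro f hf0 hf1 hfm hfn hfb hsq
  have hgeo : Summable fun j : ℕ => ((3 : ℝ) / 5) ^ j :=
    summable_geometric_of_lt_one (by norm_num) (by norm_num)
  have hgeo2 : ∑' j : ℕ, ((3 : ℝ) / 5) ^ j = 5 / 2 := by
    rw [tsum_geometric_of_lt_one (by norm_num) (by norm_num)]
    norm_num
  have hp2 : ∀ p : Nat.Primes, (2 : ℝ) ≤ ((p : ℕ) : ℝ) := fun p => by exact_mod_cast p.2.two_le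
  have htail : ∀ (p : Nat.Primes) (j : ℕ), f ((p : ℕ) ^ (j + 1 + 1)) ≤
      C * ((p : ℕ) : ℝ) ^ (-(3 / 2) : ℝ) * (3 / 5) ^ j := by
    intro p j
    have h1 := hfb ((p : ℕ) ^ (j + 1 + 1)) (Nat.one_le_pow _ _ p.2.pos)
    rw [Nat.cast_pow] at h1
    have h2 := mex_pow ((p : ℕ) : ℝ) (hp2 p) j
    calc f ((p : ℕ) ^ (j + 1 + 1)) ≤ _ := h1
      _ ≤ C * (((p : ℕ) : ℝ) ^ (-(3 / 2) : ℝ) * (3 / 5) ^ j) :=
          mul_le_mul_of_nonneg_left h2 hC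
      _ = _ := by ring
  have hsumtail : ∀ p : Nat.Primes, Summable fun j : ℕ => f ((p : ℕ) ^ (j + 1 + 1)) := fun p =>
    Summable.of_nonneg_of_le (fun j => hfn _) (htail p) (hgeo.mul_left _)
  have hj : ∀ p : Nat.Primes, Summable (fun j : ℕ => f ((p : ℕ) ^ (j + 1))) := fun p =>
    (summable_nat_add_iff 1).1 (hsumtail p)
  have hsum1 : ∀ p : Nat.Primes, ∑' j : ℕ, f ((p : ℕ) ^ (j + 1)) ≤
      f (p : ℕ) + C * (5 / 2) * ((p : ℕ) : ℝ) ^ (-(3 / 2) : ℝ) := by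
    intro p
    rw [(hj p).tsum_eq_zero_add]
    have h1 : ∑' j : ℕ, f ((p : ℕ) ^ (j + 1 + 1)) ≤
        C * ((p : ℕ) : ℝ) ^ (-(3 / 2) : ℝ) * (5 / 2) := by
      rw [← hgeo2, ← tsum_mul_left]
      exact (hsumtail p).tsum_le_tsum (htail p) (hgeo.mul_left _)
    rw [zero_add, pow_one]
    linarith
  have hss : Summable fun p : Nat.Primes => f (p : ℕ) +
        C * (5 / 2) * ((p : ℕ) : ℝ) ^ (-(3 / 2) : ℝ) := hsq.add (hsp.mul_left _)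
  have hs : Summable (fun p : Nat.Primes => ∑' j : ℕ, f ((p : ℕ) ^ (j + 1))) :=
    Summable.of_nonneg_of_le (fun p => tsum_nonneg fun j => hfn _) hsum1 hss
  obtain ⟨hfs, hfe⟩ := mult_le_exp f hf0 hf1 hfm hfn hj hs
  refine ⟨hfs, hfe.trans (Real.exp_le_exp.2 ?_)⟩
  refine (hs.tsum_le_tsum hsum1 hss).trans (le_of_eq ?_)
  rw [hsq.tsum_add (hsp.mul_left _), tsum_mul_left]
  ring

open Classical in
theorem mex {b : ℕ → ℂ} (h : PD0 b) : ∃ C : ℝ, ∀ (Z : Set ℕ) (α : ℝ), 0 < α → α ≤ 1 / 2 →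
    Summable (fun n : ℕ => if ∃ p ∈ Z, p.Prime ∧ p ∣ n then 0 else ‖b n‖ * (n : ℝ) ^ (-(1 + α))) ∧
    ∑' n : ℕ, (if ∃ p ∈ Z, p.Prime ∧ p ∣ n then 0 else ‖b n‖ * (n : ℝ) ^ (-(1 + α))) ≤
      Real.exp (C + ∑' p : Nat.Primes, if (p : ℕ) ∈ Z then 0 else
        ‖b (p : ℕ)‖ * ((p : ℕ) : ℝ) ^ (-(1 + α))) := by
  obtain ⟨C2, hC2⟩ := h.ram (1 / 4) (by norm_num)
  have hC20 : 0 ≤ C2 := by
    have h1 := hC2 1 le_rfl
    rw [Nat.cast_one, Real.one_rpow, mul_one] at h1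
    exact (norm_nonneg _).trans h1
  obtain ⟨D, hD⟩ := mex_gen C2 hC20
  refine ⟨D, fun Z α hα hα2 => ?_⟩
  have hprime : ∀ p : Nat.Primes, (if ∃ q ∈ Z, q.Prime ∧ q ∣ (p : ℕ) then 0 else
      ‖b (p : ℕ)‖ * ((p : ℕ) : ℝ) ^ (-(1 + α))) =
      if (p : ℕ) ∈ Z then 0 else ‖b (p : ℕ)‖ * ((p : ℕ) : ℝ) ^ (-(1 + α)) := by
    intro p
    by_cases hp : (p : ℕ) ∈ Z
    · rw [if_pos hp, if_pos ⟨p, hp, p.2, dvd_rfl⟩]
    · rw [if_neg hp, if_neg]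
      rintro ⟨q, hq, hq1, hq2⟩
      rw [(Nat.prime_dvd_prime_iff_eq hq1 p.2).1 hq2] at hq
      exact hp hq
  have hsq : Summable (fun p : Nat.Primes => ‖b (p : ℕ)‖ * ((p : ℕ) : ℝ) ^ (-(1 + α))) := by
    have h1 := pd_prime_summable h (fun _ => 1) (fun _ => by simp) (1 + α) (by simpa using hα)
    refine h1.congr fun p => ?_
    rw [mul_one, norm_mul, norm_natCast_cpow_of_pos p.2.pos]
    simp
  have key := hD (fun n : ℕ => if ∃ p ∈ Z, p.Prime ∧ p ∣ n then 0 else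
    ‖b n‖ * (n : ℝ) ^ (-(1 + α))) ?_ ?_ ?_ ?_ ?_ ?_
  · refine ⟨key.1, key.2.trans (le_of_eq ?_)⟩
    simp only [hprime]
  · show (if ∃ p ∈ Z, p.Prime ∧ p ∣ 0 then 0 else ‖b 0‖ * ((0 : ℕ) : ℝ) ^ (-(1 + α))) = 0
    rw [Nat.cast_zero, Real.zero_rpow (by linarith), mul_zero, ite_self]
  · show (if ∃ p ∈ Z, p.Prime ∧ p ∣ 1 then 0 else ‖b 1‖ * ((1 : ℕ) : ℝ) ^ (-(1 + α))) = 1
    rw [if_neg, h.one, Nat.cast_one, Real.one_rpow, norm_one, mul_one]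
    rintro ⟨q, -, hq1, hq2⟩
    exact hq1.one_lt.ne' (Nat.dvd_one.1 hq2)
  · intro m n hmn
    have hiff : (∃ p ∈ Z, p.Prime ∧ p ∣ m * n) ↔
        (∃ p ∈ Z, p.Prime ∧ p ∣ m) ∨ ∃ p ∈ Z, p.Prime ∧ p ∣ n := by
      constructor
      · rintro ⟨q, hq, hq1, hq2⟩
        rcases hq1.dvd_mul.1 hq2 with h1 | h1
        · exact Or.inl ⟨q, hq, hq1, h1⟩
        · exact Or.inr ⟨q, hq, hq1, h1⟩
      · rintro (⟨q, hq, hq1, hq2⟩ | ⟨q, hq, hq1, hq2⟩)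
        · exact ⟨q, hq, hq1, hq2.mul_right n⟩
        · exact ⟨q, hq, hq1, hq2.mul_left m⟩
    show (if ∃ p ∈ Z, p.Prime ∧ p ∣ m * n then 0 else ‖b (m * n)‖ * ((m * n : ℕ) : ℝ) ^ (-(1 + α))) =
      (if ∃ p ∈ Z, p.Prime ∧ p ∣ m then 0 else ‖b m‖ * (m : ℝ) ^ (-(1 + α))) *
      (if ∃ p ∈ Z, p.Prime ∧ p ∣ n then 0 else ‖b n‖ * (n : ℝ) ^ (-(1 + α)))
    by_cases h1 : ∃ p ∈ Z, p.Prime ∧ p ∣ m
    · rw [if_pos (hiff.2 (Or.inl h1)), if_pos h1, zero_mul]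
    · by_cases h2 : ∃ p ∈ Z, p.Prime ∧ p ∣ n
      · rw [if_pos (hiff.2 (Or.inr h2)), if_pos h2, mul_zero]
      · rw [if_neg h1, if_neg h2, if_neg (fun hc => (hiff.1 hc).elim h1 h2), h.mul m n hmn,
          Nat.cast_mul, Real.mul_rpow (Nat.cast_nonneg _) (Nat.cast_nonneg _), norm_mul]
        ring
  · intro n
    show 0 ≤ (if ∃ p ∈ Z, p.Prime ∧ p ∣ n then 0 else ‖b n‖ * (n : ℝ) ^ (-(1 + α)))
    split_ifs
    · exact le_rfl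
    · positivity
  · intro n hn
    have hn1 : (1 : ℝ) ≤ n := by exact_mod_cast hn
    have hn0 : (0 : ℝ) < n := by linarith
    show (if ∃ p ∈ Z, p.Prime ∧ p ∣ n then 0 else ‖b n‖ * (n : ℝ) ^ (-(1 + α))) ≤ _
    split_ifs
    · positivity
    · calc ‖b n‖ * (n : ℝ) ^ (-(1 + α)) ≤ (C2 * (n : ℝ) ^ (1 / 4 : ℝ)) * (n : ℝ) ^ (-1 : ℝ) := by
            apply mul_le_mul (hC2 n hn) _ (by positivity) (by positivity)
            exact Real.rpow_le_rpow_of_exponent_le hn1 (by linarith)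
        _ = C2 * (n : ℝ) ^ (-(3 / 4) : ℝ) := by
            rw [mul_assoc, ← Real.rpow_add hn0]
            norm_num
  · simp only [hprime]
    refine Summable.of_nonneg_of_le (fun p => ?_) (fun p => ?_) hsq
    · split_ifs
      · exact le_rfl
      · positivity
    · split_ifs
      · positivity
      · exact le_rfl

theorem mex2 {b : ℕ → ℂ} (h : PD0 b) : ∃ C : ℝ, ∀ α : ℝ, 0 < α → α ≤ 1 / 2 →
    Summable (fun n : ℕ => ‖b n‖ ^ 2 * (n : ℝ) ^ (-(1 + α))) ∧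
    ∑' n : ℕ, ‖b n‖ ^ 2 * (n : ℝ) ^ (-(1 + α)) ≤ Real.exp (C + TT b α) := by
  obtain ⟨C2, hC2⟩ := h.ram (1 / 8) (by norm_num)
  obtain ⟨D, hD⟩ := mex_gen (C2 ^ 2) (by positivity)
  refine ⟨D, fun α hα hα2 => ?_⟩
  refine hD (fun n : ℕ => ‖b n‖ ^ 2 * (n : ℝ) ^ (-(1 + α))) ?_ ?_ ?_ ?_ ?_ (TT_summable h hα)
  · show ‖b 0‖ ^ 2 * ((0 : ℕ) : ℝ) ^ (-(1 + α)) = 0
    rw [Nat.cast_zero, Real.zero_rpow (by linarith), mul_zero]
  · show ‖b 1‖ ^ 2 * ((1 : ℕ) : ℝ) ^ (-(1 + α)) = 1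
    rw [h.one, Nat.cast_one, Real.one_rpow, norm_one]
    norm_num
  · intro m n hmn
    show ‖b (m * n)‖ ^ 2 * ((m * n : ℕ) : ℝ) ^ (-(1 + α)) = _
    rw [h.mul m n hmn, Nat.cast_mul, Real.mul_rpow (Nat.cast_nonneg _) (Nat.cast_nonneg _), norm_mul]
    ring
  · intro n
    positivity
  · intro n hn
    have hn1 : (1 : ℝ) ≤ n := by exact_mod_cast hn
    have hn0 : (0 : ℝ) < n := by linarith
    have h1 : ‖b n‖ ^ 2 ≤ C2 ^ 2 * (n : ℝ) ^ (1 / 4 : ℝ) := by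
      calc ‖b n‖ ^ 2 ≤ (C2 * (n : ℝ) ^ (1 / 8 : ℝ)) ^ 2 :=
            pow_le_pow_left₀ (norm_nonneg _) (hC2 n hn) 2
        _ = C2 ^ 2 * (n : ℝ) ^ (1 / 4 : ℝ) := by
            rw [mul_pow, ← Real.rpow_natCast ((n : ℝ) ^ (1 / 8 : ℝ)) 2, ← Real.rpow_mul hn0.le]
            norm_num
    calc ‖b n‖ ^ 2 * (n : ℝ) ^ (-(1 + α))
        ≤ (C2 ^ 2 * (n : ℝ) ^ (1 / 4 : ℝ)) * (n : ℝ) ^ (-1 : ℝ) := by
          apply mul_le_mul h1 _ (by positivity) (by positivity)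
          exact Real.rpow_le_rpow_of_exponent_le hn1 (by linarith)
      _ = C2 ^ 2 * (n : ℝ) ^ (-(3 / 4) : ℝ) := by
          rw [mul_assoc, ← Real.rpow_add hn0]
          norm_num

end Pool.Agent.H11.PI
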