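import Mathlib
import Pool.Agent.H11.PI.Defs
import Pool.Agent.H11.PE.SUMM
import Pool.Agent.H11.PC.DIR
import Pool.Agent.H75.AP.MertensB

/-!
# PTL: the primes outside `(M0, M1]`

For `p ∉ PQ M0 M1`: `p ≤ M0` or `p > M1`.  Cauchy-Schwarz for `‖b p‖ p^(-(1+α)/2) · p^(-(1+α)/2)` on each of the two sets, with
`∑ ‖b p‖² p^(-(1+α)) ≤ TT b α` for the first factor.  Second factor for `p ≤ M0`: `∑_{p ≤ M0} 1/p ≤ log (log M0 + 2) + C`
(`mertens_upper` of `H75/AP/MertensB.lean` for `M0 ≥ 3`; for `M0 < 3` the sum is at most `1`).  For `p > M1`: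
`∑_{p > M1} p^(-(1+α)) ≤ log (1/α) - log log M1 + C`, as in `PB/TRC.lean` (`hr1`, `hr2`): `∑_p p^(-(1+α)) ≤ log (1/α) + C`
(`dir_one` of `PC/DIR.lean`, modulus `1`), `∑_{p ≤ M1} p^(-(1+α)) ≥ ∑_{p ≤ M1} 1/p - α ∑_{p ≤ M1} log p / p ≥
log log M1 - C - α (log M1 + C) ≥ log log M1 - C'` (`mertens_low`, `mertens_one`, `log M1 ≤ 1/α`).
`ptl_all`: the same without the sets (all primes).
-/

set_option autoImplicit false

namespace Pool.Agent.H11.PI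

open Complex Filter Topology Pool.Agent.H11.PC Pool.Agent.H11.PE

private theorem ptl_cs {ι : Type} {x y : ι → ℝ} (hx : ∀ i, 0 ≤ x i) (hy : ∀ i, 0 ≤ y i)
    {X Y : ℝ} (hxs : Summable fun i => x i ^ 2) (hys : Summable fun i => y i ^ 2)
    (hX : ∑' i, x i ^ 2 ≤ X) (hY : ∑' i, y i ^ 2 ≤ Y) :
    Summable (fun i => x i * y i) ∧ ∑' i, x i * y i ≤ Real.sqrt (X * Y) := by
  have hs : Summable (fun i => x i * y i) := by
    refine Summable.of_nonneg_of_le (fun i => mul_nonneg (hx i) (hy i)) (fun i => ?_)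
      (hxs.add hys)
    nlinarith [sq_nonneg (x i - y i), sq_nonneg (x i), sq_nonneg (y i)]
  have hX0 : 0 ≤ X := (tsum_nonneg fun i => sq_nonneg _).trans hX
  have hY0 : 0 ≤ Y := (tsum_nonneg fun i => sq_nonneg _).trans hY
  refine ⟨hs, hs.tsum_le_of_sum_le fun F => ?_⟩
  have h1 : ∑ i ∈ F, x i ^ 2 ≤ X := (hxs.sum_le_tsum F fun i _ => sq_nonneg _).trans hX
  have h2 : ∑ i ∈ F, y i ^ 2 ≤ Y := (hys.sum_le_tsum F fun i _ => sq_nonneg _).trans hY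
  apply Real.le_sqrt_of_sq_le
  calc (∑ i ∈ F, x i * y i) ^ 2 ≤ (∑ i ∈ F, x i ^ 2) * ∑ i ∈ F, y i ^ 2 :=
        Finset.sum_mul_sq_le_sq_mul_sq _ _ _
    _ ≤ X * Y := mul_le_mul h1 h2 (Finset.sum_nonneg fun i _ => sq_nonneg _) hX0

private theorem ptl_sq {t : ℝ} (ht : 0 ≤ t) : (Real.sqrt t) ^ 2 = t := Real.sq_sqrt ht

/-- Cauchy-Schwarz on a set of primes -/
private theorem ptl_set {b : ℕ → ℂ} (h : PD0 b) (α : ℝ) (hα : 0 < α) (E : Nat.Primes → Prop)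
    [DecidablePred E] {Y : ℝ}
    (hY : ∑' p : Nat.Primes, (if E p then ((p : ℕ) : ℝ) ^ (-(1 + α)) else 0) ≤ Y) :
    Summable (fun p : Nat.Primes => if E p then ‖b (p : ℕ)‖ * ((p : ℕ) : ℝ) ^ (-(1 + α)) else 0) ∧
    ∑' p : Nat.Primes, (if E p then ‖b (p : ℕ)‖ * ((p : ℕ) : ℝ) ^ (-(1 + α)) else 0) ≤
      Real.sqrt (TT b α * Y) := by
  have hr0 : ∀ p : Nat.Primes, (0 : ℝ) ≤ ((p : ℕ) : ℝ) ^ (-(1 + α)) := fun p =>
    Real.rpow_nonneg (Nat.cast_nonneg _) _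
  have hrs : Summable (fun p : Nat.Primes => ((p : ℕ) : ℝ) ^ (-(1 + α))) :=
    Nat.Primes.summable_rpow.mpr (by linarith)
  have hT := TT_summable h hα
  have e1 : ∀ p : Nat.Primes, (‖b (p : ℕ)‖ * Real.sqrt (((p : ℕ) : ℝ) ^ (-(1 + α)))) ^ 2 =
      ‖b (p : ℕ)‖ ^ 2 * ((p : ℕ) : ℝ) ^ (-(1 + α)) := by
    intro p
    rw [mul_pow, ptl_sq (hr0 p)]
  have e2 : ∀ p : Nat.Primes, (if E p then Real.sqrt (((p : ℕ) : ℝ) ^ (-(1 + α))) else 0) ^ 2 =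
      if E p then ((p : ℕ) : ℝ) ^ (-(1 + α)) else 0 := by
    intro p
    split_ifs
    · exact ptl_sq (hr0 p)
    · norm_num
  have hys : Summable (fun p : Nat.Primes => if E p then ((p : ℕ) : ℝ) ^ (-(1 + α)) else 0) := by
    refine Summable.of_nonneg_of_le (fun p => ?_) (fun p => ?_) hrs
    · split_ifs
      · exact hr0 p
      · exact le_rfl
    · split_ifs
      · exact le_rfl
      · exact hr0 p
  have key := ptl_cs (x := fun p : Nat.Primes => ‖b (p : ℕ)‖ * Real.sqrt (((p : ℕ) : ℝ) ^ (-(1 + α))))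
    (y := fun p : Nat.Primes => if E p then Real.sqrt (((p : ℕ) : ℝ) ^ (-(1 + α))) else 0)
    (X := TT b α) (Y := Y) (fun p => by positivity) (fun p => by split_ifs <;> positivity)
    (by simp only [e1]; exact hT) (by simp only [e2]; exact hys)
    (by simp only [e1]; exact le_rfl) (by simp only [e2]; exact hY)
  have e3 : ∀ p : Nat.Primes, ‖b (p : ℕ)‖ * Real.sqrt (((p : ℕ) : ℝ) ^ (-(1 + α))) *
      (if E p then Real.sqrt (((p : ℕ) : ℝ) ^ (-(1 + α))) else 0) =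
      if E p then ‖b (p : ℕ)‖ * ((p : ℕ) : ℝ) ^ (-(1 + α)) else 0 := by
    intro p
    split_ifs
    · rw [mul_assoc, Real.mul_self_sqrt (hr0 p)]
    · rw [mul_zero]
  simp only [e3] at key
  exact key

private theorem ptl_cast_rpow (p : ℕ) (α : ℝ) :
    ((p : ℕ) : ℂ) ^ (-(1 + ((α : ℝ) : ℂ))) = (((p : ℝ) ^ (-(1 + α)) : ℝ) : ℂ) := by
  rw [Complex.ofReal_cpow (Nat.cast_nonneg _)]
  push_cast
  rfl

private theorem ptl_one : ∃ C : ℝ, 0 ≤ C ∧ ∀ α : ℝ, 0 < α → α ≤ 1 →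
    ∑' p : Nat.Primes, ((p : ℕ) : ℝ) ^ (-(1 + α)) ≤ Real.log (1 / α) + C := by
  obtain ⟨C, hC⟩ := dir_one (L := 1)
  refine ⟨max C 0, le_max_right _ _, fun α hα hα1 => ?_⟩
  have h1 := hC α hα hα1
  have h2 : PS (fun n => (1 : DirichletCharacter ℂ 1) (n : ZMod 1)) (1 + α) =
      ((∑' p : Nat.Primes, ((p : ℕ) : ℝ) ^ (-(1 + α)) : ℝ) : ℂ) := by
    rw [Complex.ofReal_tsum]
    unfold PS
    refine tsum_congr fun p => ?_
    show (1 : DirichletCharacter ℂ 1) (((p : ℕ) : ℕ) : ZMod 1) *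
      ((p : ℕ) : ℂ) ^ (-(1 + ((α : ℝ) : ℂ))) = _
    rw [MulChar.one_apply (isUnit_of_subsingleton _), one_mul, ptl_cast_rpow]
  rw [h2, ← Complex.ofReal_add, Complex.norm_real, Real.norm_eq_abs] at h1
  have h3 := (abs_le.1 h1).2
  have h4 : Real.log (1 / α) = -Real.log α := by rw [one_div, Real.log_inv]
  have h5 := le_max_left C 0
  rw [h4]
  linarith

private theorem ptl_PI (x : ℝ) : Pool.Agent.H75.AP.PI 0 x =
    (Finset.Icc 1 ⌊x⌋₊).filter Nat.Prime := by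
  ext p
  rw [Pool.Agent.H75.AP.MertB.mem_PI le_rfl, Finset.mem_filter, Finset.mem_Icc]
  constructor
  · rintro ⟨h1, -, h3⟩
    exact ⟨⟨h1.one_le, Nat.le_floor h3⟩, h1⟩
  · rintro ⟨⟨h1, h2⟩, h3⟩
    refine ⟨h3, by exact_mod_cast h3.pos, ?_⟩
    have hx : 0 ≤ x := by
      by_contra hc
      push Not at hc
      rw [Nat.floor_of_nonpos hc.le] at h2
      omega
    exact (Nat.cast_le.2 h2).trans (Nat.floor_le hx)

/-- a sum over the primes `p ≤ x` -/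
private theorem ptl_fin (u : ℕ → ℝ) (x : ℝ) :
    HasSum (fun p : Nat.Primes => if ((p : ℕ) : ℝ) ≤ x then u p else 0)
      (∑ p ∈ (Finset.Icc 1 ⌊x⌋₊).filter Nat.Prime, u p) := by
  classical
  obtain ⟨Q, hQ⟩ : ∃ Q : Finset Nat.Primes, Q = ((Finset.Icc 1 ⌊x⌋₊).filter Nat.Prime).subtype
    Nat.Prime := ⟨_, rfl⟩
  have hmQ : ∀ p : Nat.Primes, p ∈ Q ↔ (p : ℕ) ∈ (Finset.Icc 1 ⌊x⌋₊).filter Nat.Prime := by
    intro p
    rw [hQ]
    exact Finset.mem_subtype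
  have h1 : ∑ p ∈ (Finset.Icc 1 ⌊x⌋₊).filter Nat.Prime, u p = ∑ p ∈ Q,
      (if ((p : ℕ) : ℝ) ≤ x then u p else 0) := by
    have h2 : ∑ p ∈ Q, u (p : ℕ) = ∑ p ∈ (Finset.Icc 1 ⌊x⌋₊).filter Nat.Prime, u p := by
      rw [hQ]
      refine (Finset.sum_subtype_eq_sum_filter
        (s := (Finset.Icc 1 ⌊x⌋₊).filter Nat.Prime) (p := Nat.Prime) u).trans ?_
      rw [Finset.filter_true_of_mem fun p hp => (Finset.mem_filter.1 hp).2]
    rw [← h2]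
    refine Finset.sum_congr rfl fun p hp => ?_
    rw [hmQ, Finset.mem_filter, Finset.mem_Icc] at hp
    have hx : 0 ≤ x := by
      by_contra hc
      push Not at hc
      have := hp.1.2
      rw [Nat.floor_of_nonpos hc.le] at this
      omega
    rw [if_pos ((Nat.cast_le.2 hp.1.2).trans (Nat.floor_le hx))]
  rw [h1]
  apply hasSum_sum_of_ne_finset_zero
  intro p hp
  rw [if_neg]
  intro hpx
  apply hp
  rw [hmQ, Finset.mem_filter, Finset.mem_Icc]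
  exact ⟨⟨p.2.one_le, Nat.le_floor hpx⟩, p.2⟩

private theorem ptl_small : ∃ C : ℝ, 0 ≤ C ∧ ∀ α : ℝ, 0 < α → ∀ M0 : ℝ, 1 ≤ M0 →
    ∑' p : Nat.Primes, (if ((p : ℕ) : ℝ) ≤ M0 then ((p : ℕ) : ℝ) ^ (-(1 + α)) else 0) ≤
      Real.log (Real.log M0 + 2) + C := by
  obtain ⟨C, hC, hup⟩ := Pool.Agent.H75.AP.mertens_upper
  refine ⟨C + 1, by linarith, fun α hα M0 h0 => ?_⟩
  have hl0 : 0 ≤ Real.log M0 := Real.log_nonneg h0
  have hl2 : 0 ≤ Real.log (Real.log M0 + 2) := Real.log_nonneg (by linarith)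
  rw [(ptl_fin (fun p => ((p : ℕ) : ℝ) ^ (-(1 + α))) M0).tsum_eq]
  have h1 : ∑ p ∈ (Finset.Icc 1 ⌊M0⌋₊).filter Nat.Prime, ((p : ℕ) : ℝ) ^ (-(1 + α)) ≤
      ∑ p ∈ (Finset.Icc 1 ⌊M0⌋₊).filter Nat.Prime, 1 / (p : ℝ) := by
    refine Finset.sum_le_sum fun p hp => ?_
    have hp1 : (1 : ℝ) ≤ p := by exact_mod_cast (Finset.mem_filter.1 hp).2.one_le
    rw [one_div, ← Real.rpow_neg_one]
    exact Real.rpow_le_rpow_of_exponent_le hp1 (by linarith)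
  refine h1.trans ?_
  by_cases h3 : 3 ≤ M0
  · have h4 := hup M0 h3
    rw [ptl_PI] at h4
    have h5 : Real.log (Real.log M0) ≤ Real.log (Real.log M0 + 2) := by
      apply Real.log_le_log _ (by linarith)
      exact Real.log_pos (by linarith)
    linarith
  · push Not at h3
    have h4 : (Finset.Icc 1 ⌊M0⌋₊).filter Nat.Prime ⊆ {2} := by
      intro p hp
      rw [Finset.mem_filter, Finset.mem_Icc] at hp
      have h5 : ⌊M0⌋₊ < 3 := by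
        rw [Nat.floor_lt (by linarith)]
        exact_mod_cast h3
      have h6 := hp.2.two_le
      rw [Finset.mem_singleton]
      omega
    have h5 : ∑ p ∈ (Finset.Icc 1 ⌊M0⌋₊).filter Nat.Prime, 1 / (p : ℝ) ≤
        ∑ p ∈ ({2} : Finset ℕ), 1 / (p : ℝ) :=
      Finset.sum_le_sum_of_subset_of_nonneg h4 fun p _ _ => by positivity
    rw [Finset.sum_singleton] at h5
    have h6 : (1 : ℝ) / ((2 : ℕ) : ℝ) ≤ 1 := by norm_num
    linarith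

private theorem ptl_big : ∃ C : ℝ, 0 ≤ C ∧ ∀ α : ℝ, 0 < α → α ≤ 1 / 2 → ∀ M1 : ℝ, 3 ≤ M1 →
    Real.log M1 ≤ 1 / α →
    ∑' p : Nat.Primes, (if ((p : ℕ) : ℝ) ≤ M1 then 0 else ((p : ℕ) : ℝ) ^ (-(1 + α))) ≤
      Real.log (1 / α) - Real.log (Real.log M1) + C := by
  obtain ⟨C1, hC1, hone⟩ := ptl_one
  obtain ⟨C2, hC2, hlow⟩ := Pool.Agent.H75.AP.mertens_low
  obtain ⟨C3, hC3, hm1⟩ := Pool.Agent.H75.AP.mertens_one
  refine ⟨C1 + C2 + C3 + 1, by linarith, fun α hα hα2 M1 h1 hM => ?_⟩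
  have hrs : Summable (fun p : Nat.Primes => ((p : ℕ) : ℝ) ^ (-(1 + α))) :=
    Nat.Primes.summable_rpow.mpr (by linarith)
  have hfin := ptl_fin (fun p => ((p : ℕ) : ℝ) ^ (-(1 + α))) M1
  have h2 : ∑' p : Nat.Primes, (if ((p : ℕ) : ℝ) ≤ M1 then 0 else ((p : ℕ) : ℝ) ^ (-(1 + α))) =
      ∑' p : Nat.Primes, ((p : ℕ) : ℝ) ^ (-(1 + α)) -
        ∑ p ∈ (Finset.Icc 1 ⌊M1⌋₊).filter Nat.Prime, ((p : ℕ) : ℝ) ^ (-(1 + α)) := by
    rw [← hfin.tsum_eq, ← hrs.tsum_sub hfin.summable]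
    refine tsum_congr fun p => ?_
    split_ifs <;> simp
  rw [h2]
  have h3 : ∑ p ∈ (Finset.Icc 1 ⌊M1⌋₊).filter Nat.Prime, (1 / (p : ℝ) - α * (Real.log p / p)) ≤
      ∑ p ∈ (Finset.Icc 1 ⌊M1⌋₊).filter Nat.Prime, ((p : ℕ) : ℝ) ^ (-(1 + α)) := by
    refine Finset.sum_le_sum fun p hp => ?_
    have hpp := (Finset.mem_filter.1 hp).2
    have h0 : (0 : ℝ) < p := by exact_mod_cast hpp.pos
    have e1 : (p : ℝ) ^ (-(1 + α)) = 1 / (p : ℝ) * Real.exp (-(α * Real.log p)) := by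
      rw [show -(1 + α) = -1 + -α by ring, Real.rpow_add h0, Real.rpow_neg_one,
        Real.rpow_def_of_pos h0 (-α), one_div]
      congr 2
      ring
    rw [e1]
    have h3 := Real.add_one_le_exp (-(α * Real.log p))
    have h4 : 1 / (p : ℝ) - α * (Real.log p / p) = 1 / (p : ℝ) * (-(α * Real.log p) + 1) := by
      ring
    rw [h4]
    exact mul_le_mul_of_nonneg_left h3 (by positivity)
  rw [Finset.sum_sub_distrib, ← Finset.mul_sum] at h3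
  have h4 := hlow M1 h1
  have h5 := (abs_le.1 (hm1 M1 (by linarith))).2
  rw [ptl_PI] at h4 h5
  have h6 : α * ∑ p ∈ (Finset.Icc 1 ⌊M1⌋₊).filter Nat.Prime, Real.log p / p ≤ 1 + C3 := by
    have h7 : α * ∑ p ∈ (Finset.Icc 1 ⌊M1⌋₊).filter Nat.Prime, Real.log p / p ≤
        α * (1 / α + C3) := mul_le_mul_of_nonneg_left (by linarith) hα.le
    have h8 : α * (1 / α + C3) = 1 + α * C3 := by field_simp
    nlinarith
  have h9 := hone α hα (by linarith)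
  linarith

open Classical in
theorem ptl {b : ℕ → ℂ} (h : PD0 b) : ∃ C : ℝ, 0 ≤ C ∧ ∀ α : ℝ, 0 < α → α ≤ 1 / 2 →
    ∀ M0 M1 : ℝ, 1 ≤ M0 → 3 ≤ M1 → Real.log M1 ≤ 1 / α →
    ∑' p : Nat.Primes, (if (p : ℕ) ∈ (PQ M0 M1 : Set ℕ) then 0 else
        ‖b (p : ℕ)‖ * ((p : ℕ) : ℝ) ^ (-(1 + α))) ≤
      Real.sqrt (TT b α * (Real.log (Real.log M0 + 2) + C)) +
        Real.sqrt (TT b α * (Real.log (1 / α) - Real.log (Real.log M1) + C)) := by
  obtain ⟨C1, hC1, hsm⟩ := ptl_small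
  obtain ⟨C2, hC2, hbg⟩ := ptl_big
  refine ⟨max C1 C2, le_max_of_le_left hC1, fun α hα hα2 M0 M1 h0 h1 hM => ?_⟩
  have hT : 0 ≤ TT b α := TT_nonneg b α
  obtain ⟨hs1, hb1⟩ := ptl_set h α hα (fun p => ((p : ℕ) : ℝ) ≤ M0) (hsm α hα M0 h0)
  have h2 : ∑' p : Nat.Primes, (if ¬ ((p : ℕ) : ℝ) ≤ M1 then ((p : ℕ) : ℝ) ^ (-(1 + α)) else 0) ≤
      Real.log (1 / α) - Real.log (Real.log M1) + C2 := by
    refine le_trans (le_of_eq ?_) (hbg α hα hα2 M1 h1 hM)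
    refine tsum_congr fun p => ?_
    by_cases hp : ((p : ℕ) : ℝ) ≤ M1
    · rw [if_neg (not_not.2 hp), if_pos hp]
    · rw [if_pos hp, if_neg hp]
  obtain ⟨hs2, hb2⟩ := ptl_set h α hα (fun p => ¬ ((p : ℕ) : ℝ) ≤ M1) h2
  have hle : ∀ p : Nat.Primes, (if (p : ℕ) ∈ (PQ M0 M1 : Set ℕ) then 0 else
      ‖b (p : ℕ)‖ * ((p : ℕ) : ℝ) ^ (-(1 + α))) ≤
      (if ((p : ℕ) : ℝ) ≤ M0 then ‖b (p : ℕ)‖ * ((p : ℕ) : ℝ) ^ (-(1 + α)) else 0) +
      (if ¬ ((p : ℕ) : ℝ) ≤ M1 then ‖b (p : ℕ)‖ * ((p : ℕ) : ℝ) ^ (-(1 + α)) else 0) := by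
    intro p
    have hnn : 0 ≤ ‖b (p : ℕ)‖ * ((p : ℕ) : ℝ) ^ (-(1 + α)) := by positivity
    by_cases hp0 : ((p : ℕ) : ℝ) ≤ M0
    · rw [if_pos hp0]
      split_ifs <;> linarith
    · by_cases hp1 : ((p : ℕ) : ℝ) ≤ M1
      · have hmem : (p : ℕ) ∈ (PQ M0 M1 : Set ℕ) := by
          rw [Finset.mem_coe]
          unfold PQ
          rw [Finset.mem_filter, Finset.mem_Icc]
          exact ⟨⟨p.2.one_le, Nat.le_floor hp1⟩, p.2, not_le.1 hp0⟩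
        rw [if_pos hmem, if_neg hp0, if_neg (not_not.2 hp1), add_zero]
      · rw [if_neg hp0, if_pos hp1]
        split_ifs <;> linarith
  have hsl : Summable (fun p : Nat.Primes => if (p : ℕ) ∈ (PQ M0 M1 : Set ℕ) then 0 else
      ‖b (p : ℕ)‖ * ((p : ℕ) : ℝ) ^ (-(1 + α))) := by
    refine Summable.of_nonneg_of_le (fun p => ?_) hle (hs1.add hs2)
    split_ifs
    · exact le_rfl
    · positivity
  refine (hsl.tsum_le_tsum hle (hs1.add hs2)).trans ?_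
  rw [hs1.tsum_add hs2]
  refine add_le_add (hb1.trans ?_) (hb2.trans ?_)
  · apply Real.sqrt_le_sqrt
    exact mul_le_mul_of_nonneg_left (by linarith [le_max_left C1 C2]) hT
  · apply Real.sqrt_le_sqrt
    exact mul_le_mul_of_nonneg_left (by linarith [le_max_right C1 C2]) hT

theorem ptl_all {b : ℕ → ℂ} (h : PD0 b) : ∃ C : ℝ, 0 ≤ C ∧ ∀ α : ℝ, 0 < α → α ≤ 1 / 2 →
    ∑' p : Nat.Primes, ‖b (p : ℕ)‖ * ((p : ℕ) : ℝ) ^ (-(1 + α)) ≤
      Real.sqrt (TT b α * (Real.log (1 / α) + C)) := by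
  obtain ⟨C, hC, hone⟩ := ptl_one
  refine ⟨C, hC, fun α hα hα2 => ?_⟩
  have h1 := ptl_set h α hα (fun _ => True) (Y := Real.log (1 / α) + C)
    (by simpa using hone α hα (by linarith))
  simpa using h1.2

end Pool.Agent.H11.PI
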