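import Mathlib
import Pool.Agent.H11.PI.Defs
import Pool.Agent.H11.PI.MEX
import Pool.Agent.H11.PI.PTL

/-!
# SMM: the integers below `K`

Let `α' = 1/(log K + 2)`, so `α ≤ α' ≤ 1/2`.  For `1 ≤ m < K`: `m^α' ≤ exp (log K/(log K + 2)) ≤ e`, so
`‖b m‖/m ≤ e ‖b m‖ m^(-(1+α'))` (for `m = 0` both sides are `0`), and `mex` with `Z = ∅` and `ptl_all` at `α'` give
`∑ ≤ e exp (C + (TT b α' (log (1/α') + C))^(1/2))`; `TT b α' ≤ TT b α` (`TT_anti` in `PE/TTL.lean`), `log (1/α') = log (log K + 2)`.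
-/

set_option autoImplicit false

namespace Pool.Agent.H11.PI

open Complex Filter Topology Pool.Agent.H11.PC Pool.Agent.H11.PE

theorem smm {b : ℕ → ℂ} (h : PD0 b) : ∃ C : ℝ, 0 ≤ C ∧ ∀ α : ℝ, 0 < α → α ≤ 1 / 2 →
    ∀ K : ℕ, 1 ≤ K → Real.log K + 2 ≤ 1 / α →
    ∑ m ∈ Finset.range K, ‖b m‖ / (m : ℝ) ≤
      C * Real.exp (Real.sqrt (TT b α * (Real.log (Real.log K + 2) + C))) := by
  obtain ⟨C1, hC1⟩ := mex h
  obtain ⟨C2, hC2, hp⟩ := ptl_all h
  refine ⟨max (Real.exp 1 * Real.exp C1) C2, le_max_of_le_right hC2, ?_⟩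
  intro α hα hα2 K hK hKα
  have hlK : 0 ≤ Real.log K := Real.log_nonneg (by exact_mod_cast hK)
  obtain ⟨β, hβ⟩ : ∃ β : ℝ, β = 1 / (Real.log K + 2) := ⟨_, rfl⟩
  have hβ0 : 0 < β := by rw [hβ]; positivity
  have hβ2 : β ≤ 1 / 2 := by
    rw [hβ]
    exact one_div_le_one_div_of_le (by norm_num) (by linarith)
  have hαβ : α ≤ β := by
    rw [hβ, le_div_iff₀ (by linarith)]
    rw [le_div_iff₀ hα] at hKα
    linarith
  have hlβ : Real.log (1 / β) = Real.log (Real.log K + 2) := by rw [hβ, one_div_one_div]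
  obtain ⟨hs, hb⟩ := hC1 ∅ β hβ0 hβ2
  simp only [Set.mem_empty_iff_false, false_and, exists_false, if_false] at hs hb
  have hpt : ∀ m ∈ Finset.range K, ‖b m‖ / (m : ℝ) ≤
      Real.exp 1 * (‖b m‖ * (m : ℝ) ^ (-(1 + β))) := by
    intro m hm
    rw [Finset.mem_range] at hm
    rcases Nat.eq_zero_or_pos m with rfl | hm0
    · rw [Nat.cast_zero, div_zero]
      positivity
    · have hmr : (0 : ℝ) < m := by exact_mod_cast hm0
      have h1 : (m : ℝ) ^ β ≤ Real.exp 1 := by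
        rw [Real.rpow_def_of_pos hmr]
        apply Real.exp_le_exp.2
        have h2 : Real.log m ≤ Real.log K := Real.log_le_log hmr (by exact_mod_cast hm.le)
        have h3 : Real.log m * β ≤ Real.log K * β := mul_le_mul_of_nonneg_right h2 hβ0.le
        have h4 : Real.log K * β ≤ 1 := by
          rw [hβ, mul_one_div, div_le_one (by linarith)]
          linarith
        linarith
      have h5 : (1 : ℝ) / m = (m : ℝ) ^ β * (m : ℝ) ^ (-(1 + β)) := by
        rw [← Real.rpow_add hmr, show β + -(1 + β) = -1 by ring, Real.rpow_neg_one, one_div]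
      have h6 : (1 : ℝ) / m ≤ Real.exp 1 * (m : ℝ) ^ (-(1 + β)) := by
        rw [h5]
        exact mul_le_mul_of_nonneg_right h1 (by positivity)
      calc ‖b m‖ / (m : ℝ) = ‖b m‖ * (1 / m) := by ring
        _ ≤ ‖b m‖ * (Real.exp 1 * (m : ℝ) ^ (-(1 + β))) :=
          mul_le_mul_of_nonneg_left h6 (norm_nonneg _)
        _ = _ := by ring
  have h1 : ∑ m ∈ Finset.range K, ‖b m‖ / (m : ℝ) ≤
      Real.exp 1 * ∑' m : ℕ, ‖b m‖ * (m : ℝ) ^ (-(1 + β)) := by
    refine (Finset.sum_le_sum hpt).trans ?_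
    rw [← Finset.mul_sum]
    exact mul_le_mul_of_nonneg_left (hs.sum_le_tsum _ fun m _ => by positivity) (Real.exp_pos _).le
  have h2 := hp β hβ0 hβ2
  rw [hlβ] at h2
  have hTa : TT b β ≤ TT b α := TT_anti h hα hαβ
  have hT : 0 ≤ TT b β := TT_nonneg b β
  have hL : 0 ≤ Real.log (Real.log K + 2) := Real.log_nonneg (by linarith)
  have hC2m : C2 ≤ max (Real.exp 1 * Real.exp C1) C2 := le_max_right _ _
  have h3 : Real.sqrt (TT b β * (Real.log (Real.log K + 2) + C2)) ≤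
      Real.sqrt (TT b α * (Real.log (Real.log K + 2) + max (Real.exp 1 * Real.exp C1) C2)) := by
    apply Real.sqrt_le_sqrt
    exact mul_le_mul hTa (by linarith) (by linarith) (hT.trans hTa)
  have h4 : ∑' m : ℕ, ‖b m‖ * (m : ℝ) ^ (-(1 + β)) ≤ Real.exp C1 * Real.exp
      (Real.sqrt (TT b α * (Real.log (Real.log K + 2) + max (Real.exp 1 * Real.exp C1) C2))) := by
    rw [← Real.exp_add]
    refine hb.trans (Real.exp_le_exp.2 ?_)
    linarith
  calc ∑ m ∈ Finset.range K, ‖b m‖ / (m : ℝ)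
      ≤ Real.exp 1 * ∑' m : ℕ, ‖b m‖ * (m : ℝ) ^ (-(1 + β)) := h1
    _ ≤ Real.exp 1 * (Real.exp C1 * Real.exp
      (Real.sqrt (TT b α * (Real.log (Real.log K + 2) + max (Real.exp 1 * Real.exp C1) C2)))) :=
        mul_le_mul_of_nonneg_left h4 (Real.exp_pos _).le
    _ = Real.exp 1 * Real.exp C1 * Real.exp
      (Real.sqrt (TT b α * (Real.log (Real.log K + 2) + max (Real.exp 1 * Real.exp C1) C2))) := by
        ring
    _ ≤ _ := mul_le_mul_of_nonneg_right (le_max_left _ _) (Real.exp_pos _).le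

end Pool.Agent.H11.PI
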