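import Mathlib
import Pool.Agent.H11.PI.Defs
import Pool.Agent.H11.PI.MEX
import Pool.Agent.H11.PI.PTL
import Pool.Agent.H11.PI.SMM
import Pool.Agent.H11.PI.BLS
import Pool.Agent.H11.PE.SUMM

/-!
# BIL: the bilinear sum

`s = 1 - θI + α`, `v p = b p p^(-s)`, `u p = ‖b p‖ p^(-α)`: `‖v p‖ = ‖b p‖ p^(-(1+α)) = u p/p`, `u p²/p = ‖b p‖² p^(-1-2α) ≤ ‖b p‖² p^(-(1+α))`,
so `∑_{p ∈ PQ} u p²/p ≤ TT b α`, and `∑_{p ∈ PQ} ‖v p‖ ≤ (TT b α (log (1/α) + C))^(1/2)` (`ptl_all`).  Interchange (finite sum over `p`,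
absolutely convergent in `m`): the sum is `∑_m b m ν m m^(-s) c m`, `c m = ∑_{p ∈ PQ} v p ee β (p m)`.
`m < K`: `‖c m‖ ≤ ∑ ‖v p‖`, `‖m^(-s)‖ ≤ 1/m` (for `m = 0`: `0`), `smm`.
`m ≥ K`: Cauchy-Schwarz, `(∑ ‖b m‖² m^(-(1+α)))^(1/2) (∑_{m ≥ K} m^(-(1+α)) ‖c m‖²)^(1/2)`, `mex2` and `bls`.
-/

set_option autoImplicit false

namespace Pool.Agent.H11.PI

open Complex Filter Topology Pool.Agent.H11.PC Pool.Agent.H11.PE

private theorem bil_cs {ι : Type} {x y : ι → ℝ} (hx : ∀ i, 0 ≤ x i) (hy : ∀ i, 0 ≤ y i)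
    {X Y : ℝ} (hxs : Summable fun i => x i ^ 2) (hys : Summable fun i => y i ^ 2)
    (hX : ∑' i, x i ^ 2 ≤ X) (hY : ∑' i, y i ^ 2 ≤ Y) :
    Summable (fun i => x i * y i) ∧ ∑' i, x i * y i ≤ Real.sqrt (X * Y) := by
  have hs : Summable (fun i => x i * y i) := by
    refine Summable.of_nonneg_of_le (fun i => mul_nonneg (hx i) (hy i)) (fun i => ?_)
      (hxs.add hys)
    nlinarith [sq_nonneg (x i - y i), sq_nonneg (x i), sq_nonneg (y i)]
  have hX0 : 0 ≤ X := (tsum_nonneg fun i => sq_nonneg _).trans hX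
  refine ⟨hs, hs.tsum_le_of_sum_le fun F => ?_⟩
  have h1 : ∑ i ∈ F, x i ^ 2 ≤ X := (hxs.sum_le_tsum F fun i _ => sq_nonneg _).trans hX
  have h2 : ∑ i ∈ F, y i ^ 2 ≤ Y := (hys.sum_le_tsum F fun i _ => sq_nonneg _).trans hY
  apply Real.le_sqrt_of_sq_le
  calc (∑ i ∈ F, x i * y i) ^ 2 ≤ (∑ i ∈ F, x i ^ 2) * ∑ i ∈ F, y i ^ 2 :=
        Finset.sum_mul_sq_le_sq_mul_sq _ _ _
    _ ≤ X * Y := mul_le_mul h1 h2 (Finset.sum_nonneg fun i _ => sq_nonneg _) hX0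

private theorem bil_PQ (M0 M1 : ℝ) (g : ℕ → ℝ) (hg : ∀ n, 0 ≤ g n)
    (hs : Summable (fun p : Nat.Primes => g (p : ℕ))) :
    ∑ p ∈ PQ M0 M1, g p ≤ ∑' p : Nat.Primes, g (p : ℕ) := by
  classical
  obtain ⟨Q, hQ⟩ : ∃ Q : Finset Nat.Primes, Q = (PQ M0 M1).subtype Nat.Prime := ⟨_, rfl⟩
  have h2 : ∑ p ∈ Q, g (p : ℕ) = ∑ p ∈ PQ M0 M1, g p := by
    rw [hQ]
    refine (Finset.sum_subtype_eq_sum_filter (s := PQ M0 M1) (p := Nat.Prime) g).trans ?_
    rw [Finset.filter_true_of_mem fun p hp => (Finset.mem_filter.1 hp).2.1]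
  rw [← h2]
  exact hs.sum_le_tsum Q fun p _ => hg _

private theorem bil_ee (β : ℝ) (n : ℕ) : ‖ee β n‖ = 1 := by
  unfold ee
  have : (-(2 * (Real.pi : ℂ) * n * β * Complex.I)) = ((-(2 * Real.pi * n * β) : ℝ) : ℂ) * I := by
    push_cast
    ring
  rw [this, Complex.norm_exp_ofReal_mul_I]

private theorem bil_cpow (θ α : ℝ) (hα : 0 < α) (n : ℕ) :
    ‖(n : ℂ) ^ (-(1 - θ * I + α) : ℂ)‖ = (n : ℝ) ^ (-(1 + α)) := by
  have hs : (-(1 - θ * I + α) : ℂ) ≠ 0 := by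
    intro h
    have := congrArg Complex.re h
    simp at this
    linarith
  rcases Nat.eq_zero_or_pos n with rfl | hn
  · rw [Nat.cast_zero, Complex.zero_cpow hs, norm_zero, Nat.cast_zero,
      Real.zero_rpow (by linarith)]
  · rw [norm_natCast_cpow_of_pos hn]
    congr 1
    simp

theorem bil {b : ℕ → ℂ} (h : PD0 b) : ∃ C : ℝ, 0 ≤ C ∧ ∀ (k : ℕ) (a : ℤ) (β : ℝ),
    4 ≤ k → IsCoprime a (k : ℤ) → |β - (a : ℝ) / k| ≤ 1 / (k : ℝ) ^ 2 →
    ∀ α : ℝ, 0 < α → α ≤ 1 / 2 → ∀ M0 M1 : ℝ, 1 ≤ M0 → 1 ≤ M1 → ∀ K : ℕ, 1 ≤ K →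
    Real.log K + 2 ≤ 1 / α → ∀ (θ : ℝ) (ν : ℕ → ℝ), (∀ m, 0 ≤ ν m ∧ ν m ≤ 1) →
      ‖∑ p ∈ PQ M0 M1, b p * (p : ℂ) ^ (-(1 - θ * I + α) : ℂ) *
        ∑' m : ℕ, b m * (ν m : ℂ) * (m : ℂ) ^ (-(1 - θ * I + α) : ℂ) * ee β (p * m)‖ ≤
      Real.sqrt (TT b α * (Real.log (1 / α) + C)) *
          (C * Real.exp (Real.sqrt (TT b α * (Real.log (Real.log K + 2) + C)))) +
        Real.sqrt (C * Real.exp (TT b α) * (TT b α *
          (4 * k / K * (1 + Real.log M1) + 2 / α * (1 / M0 + 4 / k * (1 + Real.log M1))))) := by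
  obtain ⟨C1, h1⟩ := mex2 h
  obtain ⟨C2, hC2, h2⟩ := ptl_all h
  obtain ⟨C3, hC3, h3⟩ := smm h
  obtain ⟨C, hC⟩ : ∃ C : ℝ, C = max (max (Real.exp C1) C2) C3 := ⟨_, rfl⟩
  have hCC1 : Real.exp C1 ≤ C := by rw [hC]; exact (le_max_left _ _).trans (le_max_left _ _)
  have hCC2 : C2 ≤ C := by rw [hC]; exact (le_max_right _ _).trans (le_max_left _ _)
  have hCC3 : C3 ≤ C := by rw [hC]; exact le_max_right _ _
  have hC0 : 0 ≤ C := hC3.trans hCC3
  refine ⟨C, hC0, ?_⟩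
  intro k a β hk hco hβ α hα hα2 M0 M1 hM0 hM1 K hK hKα θ ν hν
  have hT : 0 ≤ TT b α := TT_nonneg b α
  obtain ⟨hms, hmb⟩ := h1 α hα hα2
  -- the coefficients
  obtain ⟨v, hv⟩ : ∃ v : ℕ → ℂ, v = fun p : ℕ => b p * (p : ℂ) ^ (-(1 - θ * I + α) : ℂ) := ⟨_, rfl⟩
  obtain ⟨w, hw⟩ : ∃ w : ℕ → ℂ, w = fun m : ℕ => b m * (ν m : ℂ) *
    (m : ℂ) ^ (-(1 - θ * I + α) : ℂ) := ⟨_, rfl⟩
  obtain ⟨c, hc⟩ : ∃ c : ℕ → ℂ, c = fun m : ℕ => ∑ p ∈ PQ M0 M1, v p * ee β (p * m) := ⟨_, rfl⟩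
  have hvn : ∀ p : ℕ, ‖v p‖ = ‖b p‖ * (p : ℝ) ^ (-(1 + α)) := by
    intro p
    rw [hv]
    show ‖b p * (p : ℂ) ^ (-(1 - θ * I + α) : ℂ)‖ = _
    rw [norm_mul, bil_cpow θ α hα]
  have hwn : ∀ m : ℕ, ‖w m‖ ≤ ‖b m‖ * (m : ℝ) ^ (-(1 + α)) := by
    intro m
    rw [hw]
    show ‖b m * (ν m : ℂ) * (m : ℂ) ^ (-(1 - θ * I + α) : ℂ)‖ ≤ _
    rw [norm_mul, norm_mul, bil_cpow θ α hα, Complex.norm_real, Real.norm_of_nonneg (hν m).1]
    apply mul_le_mul_of_nonneg_right _ (by positivity)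
    exact mul_le_of_le_one_right (norm_nonneg _) (hν m).2
  have hbs : Summable (fun m : ℕ => ‖b m‖ * (m : ℝ) ^ (-(1 + α))) := by
    have hre : 1 < (1 + (α : ℂ)).re := by simpa using hα
    have h4 := (pd_summable h (fun _ => 1) (fun _ => by simp) (1 + α) hre).norm
    refine h4.congr fun n => ?_
    rw [LSeries.norm_term_eq]
    split_ifs with hn
    · rw [hn, Nat.cast_zero, Real.zero_rpow (by linarith), mul_zero]
    · rw [mul_one]
      have : (1 + (α : ℂ)).re = 1 + α := by simp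
      rw [this, Real.rpow_neg (Nat.cast_nonneg _), div_eq_mul_inv]
  have hcb : ∀ m, ‖c m‖ ≤ ∑ p ∈ PQ M0 M1, ‖v p‖ := by
    intro m
    rw [hc]
    refine (norm_sum_le _ _).trans (Finset.sum_le_sum fun p _ => ?_)
    rw [norm_mul, bil_ee, mul_one]
  have hvsum : ∑ p ∈ PQ M0 M1, ‖v p‖ ≤ Real.sqrt (TT b α * (Real.log (1 / α) + C)) := by
    simp only [hvn]
    have hps : Summable (fun p : Nat.Primes => ‖b (p : ℕ)‖ * ((p : ℕ) : ℝ) ^ (-(1 + α))) := by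
      have h4 := pd_prime_summable h (fun _ => 1) (fun _ => by simp) (1 + α) (by simpa using hα)
      refine h4.congr fun p => ?_
      rw [mul_one, norm_mul, norm_natCast_cpow_of_pos p.2.pos]
      simp
    refine (bil_PQ M0 M1 (fun p => ‖b p‖ * (p : ℝ) ^ (-(1 + α))) (fun n => by positivity)
      hps).trans ((h2 α hα hα2).trans ?_)
    apply Real.sqrt_le_sqrt
    exact mul_le_mul_of_nonneg_left (by linarith) hT
  have hwc : Summable (fun m : ℕ => w m * c m) := by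
    refine Summable.of_norm_bounded (hbs.mul_right (∑ p ∈ PQ M0 M1, ‖v p‖)) fun m => ?_
    rw [norm_mul]
    exact mul_le_mul (hwn m) (hcb m) (norm_nonneg _) (by positivity)
  have hinter : ∑ p ∈ PQ M0 M1, b p * (p : ℂ) ^ (-(1 - θ * I + α) : ℂ) *
      ∑' m : ℕ, b m * (ν m : ℂ) * (m : ℂ) ^ (-(1 - θ * I + α) : ℂ) * ee β (p * m) =
      ∑' m : ℕ, w m * c m := by
    have e1 : ∀ p : ℕ, Summable (fun m : ℕ => v p * (w m * ee β (p * m))) := by
      intro p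
      refine Summable.mul_left _ (Summable.of_norm_bounded hbs fun m => ?_)
      rw [norm_mul, bil_ee, mul_one]
      exact hwn m
    have e2 : ∀ m : ℕ, w m * c m = ∑ p ∈ PQ M0 M1, v p * (w m * ee β (p * m)) := by
      intro m
      rw [hc]
      show w m * ∑ p ∈ PQ M0 M1, v p * ee β (p * m) = _
      rw [Finset.mul_sum]
      refine Finset.sum_congr rfl fun p _ => ?_
      ring
    simp only [e2]
    rw [Summable.tsum_finsetSum fun p _ => e1 p]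
    refine Finset.sum_congr rfl fun p _ => ?_
    rw [tsum_mul_left, hv, hw]
  rw [hinter, ← hwc.sum_add_tsum_nat_add K]
  refine (norm_add_le _ _).trans (add_le_add ?_ ?_)
  · -- small m
    have h4 : ∀ m ∈ Finset.range K, ‖w m * c m‖ ≤
        ‖b m‖ / (m : ℝ) * ∑ p ∈ PQ M0 M1, ‖v p‖ := by
      intro m _
      rw [norm_mul]
      apply mul_le_mul _ (hcb m) (norm_nonneg _) (by positivity)
      refine (hwn m).trans ?_
      rw [div_eq_mul_inv]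
      apply mul_le_mul_of_nonneg_left _ (norm_nonneg _)
      rcases Nat.eq_zero_or_pos m with rfl | hm
      · rw [Nat.cast_zero, Real.zero_rpow (by linarith), inv_zero]
      · rw [← Real.rpow_neg_one]
        exact Real.rpow_le_rpow_of_exponent_le (by exact_mod_cast hm) (by linarith)
    refine (norm_sum_le _ _).trans ((Finset.sum_le_sum h4).trans ?_)
    rw [← Finset.sum_mul, mul_comm]
    have h5 := h3 α hα hα2 K hK hKα
    have hL : 0 ≤ Real.log K := Real.log_nonneg (by exact_mod_cast hK)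
    apply mul_le_mul hvsum _ (Finset.sum_nonneg fun m _ => by positivity) (Real.sqrt_nonneg _)
    refine h5.trans ?_
    apply mul_le_mul hCC3 _ (Real.exp_pos _).le hC0
    apply Real.exp_le_exp.2
    apply Real.sqrt_le_sqrt
    exact mul_le_mul_of_nonneg_left (by linarith) hT
  · -- large m
    obtain ⟨f, hf⟩ : ∃ f : ℕ → ℝ, f = fun m : ℕ => ((K + m : ℕ) : ℝ) ^ (-(1 + α)) := ⟨_, rfl⟩
    have hf0 : ∀ m, 0 ≤ f m := fun m => by rw [hf]; positivity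
    have hinj : Function.Injective (fun m : ℕ => K + m) := fun x y h => by simpa using h
    have hxs : Summable (fun m : ℕ => ‖b (K + m)‖ ^ 2 * f m) := by
      rw [hf]
      exact hms.comp_injective hinj
    have hxb : ∑' m : ℕ, ‖b (K + m)‖ ^ 2 * f m ≤ C * Real.exp (TT b α) := by
      have h4 : ∑' m : ℕ, ‖b (K + m)‖ ^ 2 * f m ≤ ∑' n : ℕ, ‖b n‖ ^ 2 * (n : ℝ) ^ (-(1 + α)) := by
        rw [hf]
        exact tsum_comp_le_tsum_of_inj hms (fun n => by positivity) hinj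
      rw [Real.exp_add] at hmb
      exact h4.trans (hmb.trans (mul_le_mul_of_nonneg_right hCC1 (Real.exp_pos _).le))
    obtain ⟨u, hu⟩ : ∃ u : ℕ → ℝ, u = fun p : ℕ => ‖b p‖ * (p : ℝ) ^ (-α) := ⟨_, rfl⟩
    have hvu : ∀ p ∈ PQ M0 M1, ‖v p‖ ≤ u p / p := by
      intro p hp
      have hp0 : (0 : ℝ) < p := by exact_mod_cast (Finset.mem_filter.1 hp).2.1.pos
      rw [hvn, hu]
      show ‖b p‖ * (p : ℝ) ^ (-(1 + α)) ≤ ‖b p‖ * (p : ℝ) ^ (-α) / p
      rw [show -(1 + α) = -α + -1 by ring, Real.rpow_add hp0, Real.rpow_neg_one, ← mul_assoc,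
        div_eq_mul_inv]
    obtain ⟨hys, hyb⟩ := bls k a β hk hco hβ α hα (by linarith) M0 M1 hM0 hM1 K hK v u hvu
    have huT : ∑ p ∈ PQ M0 M1, u p ^ 2 / p ≤ TT b α := by
      have h4 : ∀ p ∈ PQ M0 M1, u p ^ 2 / p ≤ ‖b p‖ ^ 2 * (p : ℝ) ^ (-(1 + α)) := by
        intro p hp
        have hp1 : (1 : ℝ) ≤ p := by exact_mod_cast (Finset.mem_filter.1 hp).2.1.one_le
        have hp0 : (0 : ℝ) < p := by linarith
        rw [hu]
        show (‖b p‖ * (p : ℝ) ^ (-α)) ^ 2 / p ≤ _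
        have e1 : (‖b p‖ * (p : ℝ) ^ (-α)) ^ 2 / p = ‖b p‖ ^ 2 * (p : ℝ) ^ (-(1 + 2 * α)) := by
          rw [show -(1 + 2 * α) = -α + -α + -1 by ring, Real.rpow_add hp0, Real.rpow_add hp0,
            Real.rpow_neg_one]
          ring
        rw [e1]
        apply mul_le_mul_of_nonneg_left _ (sq_nonneg _)
        exact Real.rpow_le_rpow_of_exponent_le hp1 (by linarith)
      refine (Finset.sum_le_sum h4).trans ?_
      exact bil_PQ M0 M1 (fun p => ‖b p‖ ^ 2 * (p : ℝ) ^ (-(1 + α))) (fun n => by positivity)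
        (TT_summable h hα)
    obtain ⟨Br, hBr⟩ : ∃ Br : ℝ, Br = 4 * k / K * (1 + Real.log M1) +
      2 / α * (1 / M0 + 4 / k * (1 + Real.log M1)) := ⟨_, rfl⟩
    have hBr0 : 0 ≤ Br := by
      have h4 : 0 ≤ Real.log M1 := Real.log_nonneg hM1
      rw [hBr]
      positivity
    rw [← hBr] at hyb ⊢
    have hyb' := hyb.trans (mul_le_mul_of_nonneg_right huT hBr0)
    have hceq : ∀ m : ℕ, ∑ p ∈ PQ M0 M1, v p * ee β (p * (K + m)) = c (K + m) := by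
      intro m
      rw [hc]
    simp only [hceq] at hys hyb'
    have key := bil_cs (x := fun m : ℕ => ‖b (K + m)‖ * Real.sqrt (f m))
      (y := fun m : ℕ => Real.sqrt (f m) * ‖c (K + m)‖) (X := C * Real.exp (TT b α))
      (Y := TT b α * Br) (fun m => by positivity) (fun m => by positivity)
      (by
        refine hxs.congr fun m => ?_
        rw [mul_pow, Real.sq_sqrt (hf0 m)])
      (by
        refine hys.congr fun m => ?_
        rw [mul_pow, Real.sq_sqrt (hf0 m), hf])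
      (by
        refine le_trans (le_of_eq ?_) hxb
        refine tsum_congr fun m => ?_
        rw [mul_pow, Real.sq_sqrt (hf0 m)])
      (by
        refine le_trans (le_of_eq ?_) hyb'
        refine tsum_congr fun m => ?_
        rw [mul_pow, Real.sq_sqrt (hf0 m), hf])
    refine le_trans ?_ key.2
    refine tsum_of_norm_bounded key.1.hasSum fun m => ?_
    rw [norm_mul, add_comm m K]
    have h4 := hwn (K + m)
    have h5 : ((K + m : ℕ) : ℝ) ^ (-(1 + α)) = Real.sqrt (f m) * Real.sqrt (f m) := by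
      rw [Real.mul_self_sqrt (hf0 m), hf]
    rw [h5] at h4
    calc ‖w (K + m)‖ * ‖c (K + m)‖
        ≤ ‖b (K + m)‖ * (Real.sqrt (f m) * Real.sqrt (f m)) * ‖c (K + m)‖ :=
          mul_le_mul_of_nonneg_right h4 (norm_nonneg _)
      _ = ‖b (K + m)‖ * Real.sqrt (f m) * (Real.sqrt (f m) * ‖c (K + m)‖) := by ring

end Pool.Agent.H11.PI
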