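import Mathlib

/-!
# IPA: the parameters
-/

set_option autoImplicit false

namespace Pool.Agent.H11.PI

open Filter Topology

theorem ire_par (κ C : ℝ) (hκ : 0 < κ) (hC : 0 ≤ C) : ∃ ρ η α0 : ℝ, 0 < η ∧ η ≤ 1 / 8 ∧ 0 < ρ ∧
    ρ ≤ κ ^ 2 / 16 ∧ 0 < α0 ∧ ∀ α : ℝ, 0 < α → α < α0 →
      α ≤ 1 / 4 ∧ 5 * (1 / α) ^ η + 4 * Real.log (1 / α) + 3 ≤ 1 / α ∧
      (∀ y : ℝ, 0 < y → y ≤ 5 * (1 / α) ^ η + 4 * Real.log (1 / α) + 3 →
        Real.log y + C ≤ ρ * Real.log (1 / α)) ∧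
      η * Real.log (1 / α) + C ≤ ρ * Real.log (1 / α) ∧ 2 ≤ (1 / α) ^ (1 - η) ∧
      C ≤ Real.log (1 / α) := by
  obtain ⟨ρ, hρ⟩ : ∃ ρ : ℝ, ρ = min (κ ^ 2 / 16) (1 / 2) := ⟨_, rfl⟩
  have hρ0 : 0 < ρ := by
    rw [hρ]
    exact lt_min (by positivity) (by norm_num)
  have hρ1 : ρ ≤ κ ^ 2 / 16 := by rw [hρ]; exact min_le_left _ _
  have hρ2 : ρ ≤ 1 / 2 := by rw [hρ]; exact min_le_right _ _
  obtain ⟨η, hη⟩ : ∃ η : ℝ, η = ρ / 4 := ⟨_, rfl⟩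
  have hη0 : 0 < η := by rw [hη]; positivity
  have hη1 : η ≤ 1 / 8 := by rw [hη]; linarith
  obtain ⟨W, hW⟩ : ∃ W : ℝ, W = (8 + 4 / η) * Real.exp C := ⟨_, rfl⟩
  have hE : 1 ≤ Real.exp C := Real.one_le_exp hC
  have hW0 : 0 < W := by rw [hW]; positivity
  have ev1 : ∀ᶠ x : ℝ in atTop, W ≤ x ^ (3 * η) :=
    (tendsto_rpow_atTop (by positivity)).eventually_ge_atTop W
  have ev2 : ∀ᶠ x : ℝ in atTop, max C (C / (3 * η)) ≤ Real.log x :=
    Real.tendsto_log_atTop.eventually_ge_atTop _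
  obtain ⟨X, hX⟩ := eventually_atTop.1 ((ev1.and ev2).and (eventually_ge_atTop (4 : ℝ)))
  refine ⟨ρ, η, 1 / max X 4, hη0, hη1, hρ0, hρ1, by positivity, fun α hα hα0 => ?_⟩
  obtain ⟨x, hx⟩ : ∃ x : ℝ, x = 1 / α := ⟨_, rfl⟩
  have hmax : 0 < max X 4 := by positivity
  have hxX : max X 4 < x := by
    rw [hx]
    exact (lt_one_div hα hmax).1 hα0
  obtain ⟨⟨h1, h2⟩, h3⟩ := hX x ((le_max_left _ _).trans hxX.le)
  rw [← hx]
  have hx0 : 0 < x := by linarith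
  have hx1 : 1 ≤ x := by linarith
  have hl : 0 ≤ Real.log x := Real.log_nonneg hx1
  have h4 : x ^ ρ = x ^ η * x ^ (3 * η) := by
    rw [← Real.rpow_add hx0]
    congr 1
    rw [hη]
    ring
  have h5 : Real.log x ≤ x ^ η / η := Real.log_le_rpow_div hx0.le hη0
  have h6 : 1 ≤ x ^ η := Real.one_le_rpow hx1 hη0.le
  have h7 : 5 * x ^ η + 4 * Real.log x + 3 ≤ (8 + 4 / η) * x ^ η := by
    have : 4 / η * x ^ η = 4 * (x ^ η / η) := by ring
    nlinarith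
  have h8 : (8 + 4 / η) * x ^ η * Real.exp C ≤ x ^ ρ := by
    rw [h4]
    have := mul_le_mul_of_nonneg_left h1 (by positivity : 0 ≤ x ^ η)
    rw [hW] at this
    linarith
  have h9 : (8 + 4 / η) * x ^ η ≤ x ^ ρ := by
    have h10 : 0 ≤ (8 + 4 / η) * x ^ η := by positivity
    nlinarith
  have h10 : x ^ ρ ≤ x := by
    calc x ^ ρ ≤ x ^ (1 : ℝ) := Real.rpow_le_rpow_of_exponent_le hx1 (by linarith)
      _ = x := Real.rpow_one x
  refine ⟨?_, h7.trans (h9.trans h10), ?_, ?_, ?_, (le_max_left _ _).trans h2⟩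
  · have hαx : α = 1 / x := by rw [hx, one_div_one_div]
    rw [hαx]
    exact one_div_le_one_div_of_le (by norm_num) h3
  · intro y hy hy2
    have h11 : y * Real.exp C ≤ x ^ ρ := by
      have := mul_le_mul_of_nonneg_right (hy2.trans h7) (Real.exp_pos C).le
      exact this.trans h8
    have h12 := Real.log_le_log (by positivity) h11
    rw [Real.log_mul hy.ne' (Real.exp_ne_zero _), Real.log_exp, Real.log_rpow hx0] at h12
    exact h12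
  · have h11 : C / (3 * η) ≤ Real.log x := (le_max_right _ _).trans h2
    rw [div_le_iff₀ (by positivity)] at h11
    have : ρ = 4 * η := by rw [hη]; ring
    rw [this]
    linarith
  · have h11 : (4 : ℝ) ^ (1 / 2 : ℝ) ≤ x ^ (1 - η) := by
      calc (4 : ℝ) ^ (1 / 2 : ℝ) ≤ x ^ (1 / 2 : ℝ) := Real.rpow_le_rpow (by norm_num) h3 (by norm_num)
        _ ≤ x ^ (1 - η) := Real.rpow_le_rpow_of_exponent_le hx1 (by linarith)
    have h12 : (4 : ℝ) ^ (1 / 2 : ℝ) = 2 := by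
      rw [show (4 : ℝ) = 2 ^ (2 : ℝ) by norm_num, ← Real.rpow_mul (by norm_num)]
      norm_num
    linarith

end Pool.Agent.H11.PI
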