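import Mathlib
import Pool.Agent.H11.PI.Defs
import Pool.Agent.H11.PI.MEX
import Pool.Agent.H11.PI.PTL

/-!
# RGH: the integers without a prime factor in `(M0, M1]`

`mex` with `Z = PQ M0 M1` (its elements are primes) and `ptl`.
-/

set_option autoImplicit false

namespace Pool.Agent.H11.PI

open Complex Filter Topology Pool.Agent.H11.PC Pool.Agent.H11.PE

open Classical in
theorem rgh {b : ℕ → ℂ} (h : PD0 b) : ∃ C : ℝ, 0 ≤ C ∧ ∀ α : ℝ, 0 < α → α ≤ 1 / 2 →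
    ∀ M0 M1 : ℝ, 1 ≤ M0 → 3 ≤ M1 → Real.log M1 ≤ 1 / α →
    Summable (fun n : ℕ => if ∃ p ∈ PQ M0 M1, p ∣ n then 0 else ‖b n‖ * (n : ℝ) ^ (-(1 + α))) ∧
    ∑' n : ℕ, (if ∃ p ∈ PQ M0 M1, p ∣ n then 0 else ‖b n‖ * (n : ℝ) ^ (-(1 + α))) ≤
      C * Real.exp (Real.sqrt (TT b α * (Real.log (Real.log M0 + 2) + C)) +
        Real.sqrt (TT b α * (Real.log (1 / α) - Real.log (Real.log M1) + C))) := by
  obtain ⟨C1, hC1⟩ := mex h
  obtain ⟨C2, hC2, hp⟩ := ptl h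
  refine ⟨max (Real.exp C1) C2, le_max_of_le_right hC2, ?_⟩
  intro α hα hα2 M0 M1 h0 h1 hM
  have hpr : ∀ p ∈ PQ M0 M1, p.Prime := fun p hp => (Finset.mem_filter.1 hp).2.1
  have hcond : ∀ n : ℕ, (∃ p ∈ (PQ M0 M1 : Set ℕ), p.Prime ∧ p ∣ n) ↔ ∃ p ∈ PQ M0 M1, p ∣ n := by
    intro n
    constructor
    · rintro ⟨p, hp, -, hd⟩
      exact ⟨p, hp, hd⟩
    · rintro ⟨p, hp, hd⟩
      exact ⟨p, hp, hpr p hp, hd⟩
  obtain ⟨hs, hb⟩ := hC1 (PQ M0 M1 : Set ℕ) α hα hα2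
  simp only [hcond] at hs hb
  refine ⟨hs, hb.trans ?_⟩
  have h2 := hp α hα hα2 M0 M1 h0 h1 hM
  have hT : 0 ≤ TT b α := TT_nonneg b α
  have hC2m : C2 ≤ max (Real.exp C1) C2 := le_max_right _ _
  rw [Real.exp_add]
  apply mul_le_mul (le_max_left _ _) _ (Real.exp_pos _).le (le_max_of_le_right hC2)
  apply Real.exp_le_exp.2
  refine le_trans (le_of_eq ?_) (h2.trans (add_le_add ?_ ?_))
  · refine tsum_congr fun p => ?_
    congr
  · apply Real.sqrt_le_sqrt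
    exact mul_le_mul_of_nonneg_left (by linarith) hT
  · apply Real.sqrt_le_sqrt
    exact mul_le_mul_of_nonneg_left (by linarith) hT

end Pool.Agent.H11.PI
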