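import Mathlib
import Pool.Agent.H11.PI.Defs
import Pool.Agent.H11.PI.MEX
import Pool.Agent.H11.PI.PTL
import Pool.Agent.H11.PE.SUMM

/-!
# RMD: Ramaré's identity for the Dirichlet series

Compare `PC/RAM.lean` (the same identity with the weight `n³ e^(-2πn/x)`).  `s = 1 - θI + α`.  For `n` with `oq n ≥ 1`:
`1 = ∑_{p ∈ PQ, p | n} 1/oq n`, so the first sum is `∑_{p ∈ PQ} ∑_{m ≥ 1} b(pm) (pm)^(-s) ee β (pm)/oq(pm)`.  For `p ∤ m`: `b(pm) = b(p) b(m)`,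
`oq(pm) = oq m + 1`, `(pm)^(-s) = p^(-s) m^(-s)`.  The terms with `p | m` are bounded by
`∑_{p ∈ PQ} ∑_{i ≥ 1} ∑_{p ∤ m'} (‖b(p^(i+1))‖ + ‖b p‖ ‖b(p^i)‖) ‖b m'‖ (p^(i+1) m')^(-(1+α))`; by `h.ram (1/8)` this is
`≤ C ∑_{p > M0} ∑_{i ≥ 1} p^(-(7/8)(i+1)) ∑_{m'} ‖b m'‖ m'^(-(1+α)) ≤ C ∑_{p > M0} p^(-7/4) · exp (C + (TT b α (log (1/α) + C))^(1/2))`
(`mex` with `Z = ∅`, `ptl_all`), and `(T (l + C))^(1/2) ≤ T + l + C`, `exp (T + l + C) = e^C exp T /α`;
`∑_{n > M0} n^(-7/4) ≤ M0^(-1/4) ∑ n^(-3/2)`.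
-/

set_option autoImplicit false

namespace Pool.Agent.H11.PI

open Complex Filter Topology Pool.Agent.H11.PC Pool.Agent.H11.PE

private theorem rmd_ee_norm (β : ℝ) (n : ℕ) : ‖ee β n‖ = 1 := by
  unfold ee
  have : (-(2 * (Real.pi : ℂ) * n * β * Complex.I)) = ((-(2 * Real.pi * n * β) : ℝ) : ℂ) * I := by
    push_cast
    ring
  rw [this, Complex.norm_exp_ofReal_mul_I]

private theorem rmd_PQ {M0 M1 : ℝ} {p : ℕ} (hp : p ∈ PQ M0 M1) : p.Prime ∧ M0 < (p : ℝ) := by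
  unfold PQ at hp
  rw [Finset.mem_filter] at hp
  exact hp.2

/-- the weight -/
private noncomputable def wt (α : ℝ) (n : ℕ) : ℝ := (n : ℝ) ^ (-(1 + α))

private theorem wt_nonneg (α : ℝ) (n : ℕ) : 0 ≤ wt α n := Real.rpow_nonneg (Nat.cast_nonneg _) _

private theorem wt_mul (α : ℝ) (m n : ℕ) : wt α (m * n) = wt α m * wt α n := by
  unfold wt
  rw [Nat.cast_mul, Real.mul_rpow (Nat.cast_nonneg _) (Nat.cast_nonneg _)]

private theorem wt_le {α : ℝ} (hα : 0 < α) {n : ℕ} (hn : 1 ≤ n) : wt α n ≤ ((n : ℕ) : ℝ)⁻¹ := by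
  unfold wt
  rw [← Real.rpow_neg_one]
  exact Real.rpow_le_rpow_of_exponent_le (by exact_mod_cast hn) (by linarith)

private theorem wt_zero {α : ℝ} (hα : 0 < α) : wt α 0 = 0 := by
  unfold wt
  rw [Nat.cast_zero, Real.zero_rpow (by linarith)]

private theorem wt_norm (α θ : ℝ) (hα : 0 < α) (n : ℕ) :
    ‖(n : ℂ) ^ (-(1 - θ * I + α) : ℂ)‖ = wt α n := by
  have hre : (-(1 - θ * I + α) : ℂ).re = -(1 + α) := by simp
  unfold wt
  rcases Nat.eq_zero_or_pos n with rfl | hn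
  · rw [Nat.cast_zero, Nat.cast_zero, Real.zero_rpow (by linarith), Complex.zero_cpow, norm_zero]
    intro h0
    have h1 := congrArg Complex.re h0
    rw [hre, Complex.zero_re] at h1
    linarith
  · rw [norm_natCast_cpow_of_pos hn, hre]

private theorem rmd_point {b : ℕ → ℂ} (h : PD0 b) {C0 α : ℝ} (hC0 : 1 ≤ C0) (hα : 0 < α)
    (hram : ∀ n : ℕ, 1 ≤ n → ‖b n‖ ≤ C0 * (n : ℝ) ^ (1 / 8 : ℝ))
    (p : ℕ) (hp : p.Prime) (v m : ℕ) (hcop : Nat.Coprime p m) :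
    (‖b (p * (p ^ v * m))‖ + ‖b p‖ * ‖b (p ^ v * m)‖) * wt α (p * (p ^ v * m)) ≤
      2 * C0 ^ 2 * (((p : ℝ) ^ (-(7 / 8) : ℝ)) ^ (v + 1) * (‖b m‖ * wt α m)) := by
  have hp1 : 1 ≤ p := hp.one_lt.le
  have hq1 : 1 ≤ p ^ (v + 1) := Nat.one_le_pow _ _ hp1
  have hq1' : (1 : ℝ) ≤ ((p ^ (v + 1) : ℕ) : ℝ) := by exact_mod_cast hq1
  have hpR : (1 : ℝ) ≤ (p : ℝ) := by exact_mod_cast hp1
  have e1 : p * (p ^ v * m) = p ^ (v + 1) * m := by ring
  have hb1 : b (p ^ (v + 1) * m) = b (p ^ (v + 1)) * b m :=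
    h.mul _ _ (Nat.Coprime.pow_left _ hcop)
  have hb2 : b (p ^ v * m) = b (p ^ v) * b m := h.mul _ _ (Nat.Coprime.pow_left _ hcop)
  have hA : ‖b (p ^ (v + 1))‖ ≤ C0 ^ 2 * ((p ^ (v + 1) : ℕ) : ℝ) ^ (1 / 8 : ℝ) := by
    refine (hram _ hq1).trans ?_
    have : C0 ≤ C0 ^ 2 := by nlinarith
    gcongr
  have hB : ‖b p‖ * ‖b (p ^ v)‖ ≤ C0 ^ 2 * ((p ^ (v + 1) : ℕ) : ℝ) ^ (1 / 8 : ℝ) := by
    calc ‖b p‖ * ‖b (p ^ v)‖ ≤ (C0 * (p : ℝ) ^ (1 / 8 : ℝ)) *
          (C0 * ((p ^ v : ℕ) : ℝ) ^ (1 / 8 : ℝ)) := by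
          gcongr
          · exact hram _ hp1
          · exact hram _ (Nat.one_le_pow _ _ hp1)
      _ = C0 ^ 2 * ((p : ℝ) ^ (1 / 8 : ℝ) * ((p ^ v : ℕ) : ℝ) ^ (1 / 8 : ℝ)) := by ring
      _ = C0 ^ 2 * ((p ^ (v + 1) : ℕ) : ℝ) ^ (1 / 8 : ℝ) := by
          rw [← Real.mul_rpow (by positivity) (by positivity)]
          congr 2
          push_cast
          ring
  have hr : ((p ^ (v + 1) : ℕ) : ℝ) ^ (1 / 8 : ℝ) * ((p ^ (v + 1) : ℕ) : ℝ)⁻¹ =
      ((p : ℝ) ^ (-(7 / 8) : ℝ)) ^ (v + 1) := by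
    have h0 : (0 : ℝ) < ((p ^ (v + 1) : ℕ) : ℝ) := by linarith
    rw [← Real.rpow_neg_one, ← Real.rpow_add h0]
    push_cast
    rw [← Real.rpow_natCast, ← Real.rpow_mul (by positivity), ← Real.rpow_natCast,
      ← Real.rpow_mul (by positivity)]
    congr 1
    push_cast
    ring
  rw [e1, hb1, hb2, norm_mul, norm_mul, wt_mul]
  have hsum : ‖b (p ^ (v + 1))‖ * ‖b m‖ + ‖b p‖ * (‖b (p ^ v)‖ * ‖b m‖) ≤
      2 * C0 ^ 2 * ((p ^ (v + 1) : ℕ) : ℝ) ^ (1 / 8 : ℝ) * ‖b m‖ := by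
    have h5 : ‖b (p ^ (v + 1))‖ * ‖b m‖ + ‖b p‖ * (‖b (p ^ v)‖ * ‖b m‖) =
      (‖b (p ^ (v + 1))‖ + ‖b p‖ * ‖b (p ^ v)‖) * ‖b m‖ := by ring
    rw [h5]
    have h6 : ‖b (p ^ (v + 1))‖ + ‖b p‖ * ‖b (p ^ v)‖ ≤
      2 * C0 ^ 2 * ((p ^ (v + 1) : ℕ) : ℝ) ^ (1 / 8 : ℝ) := by linarith
    exact mul_le_mul_of_nonneg_right h6 (norm_nonneg _)
  have hwm := wt_nonneg α m
  have hwq := wt_nonneg α (p ^ (v + 1))
  calc (‖b (p ^ (v + 1))‖ * ‖b m‖ + ‖b p‖ * (‖b (p ^ v)‖ * ‖b m‖)) *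
        (wt α (p ^ (v + 1)) * wt α m)
      ≤ (2 * C0 ^ 2 * ((p ^ (v + 1) : ℕ) : ℝ) ^ (1 / 8 : ℝ) * ‖b m‖) *
        (((p ^ (v + 1) : ℕ) : ℝ)⁻¹ * wt α m) := by
        apply mul_le_mul hsum
          (mul_le_mul_of_nonneg_right (wt_le hα hq1) hwm) (mul_nonneg hwq hwm)
        positivity
    _ = 2 * C0 ^ 2 * ((((p ^ (v + 1) : ℕ) : ℝ) ^ (1 / 8 : ℝ) *
        ((p ^ (v + 1) : ℕ) : ℝ)⁻¹) * (‖b m‖ * wt α m)) := by ring
    _ = _ := by rw [hr]

private theorem rmd_prime {b : ℕ → ℂ} (h : PD0 b) {C0 α : ℝ} (hC0 : 1 ≤ C0) (hα : 0 < α)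
    (hram : ∀ n : ℕ, 1 ≤ n → ‖b n‖ ≤ C0 * (n : ℝ) ^ (1 / 8 : ℝ))
    (hs : Summable (fun m : ℕ => ‖b m‖ * wt α m)) (p : ℕ) (hp : p.Prime) :
    Summable (fun m : ℕ => if p ∣ m then (‖b (p * m)‖ + ‖b p‖ * ‖b m‖) * wt α (p * m) else 0) ∧
    ∑' m : ℕ, (if p ∣ m then (‖b (p * m)‖ + ‖b p‖ * ‖b m‖) * wt α (p * m) else 0) ≤
      8 * C0 ^ 2 * (p : ℝ) ^ (-(7 / 4) : ℝ) * ∑' m : ℕ, ‖b m‖ * wt α m := by
  classical
  set G : ℕ → ℝ := fun m => if p ∣ m then (‖b (p * m)‖ + ‖b p‖ * ‖b m‖) * wt α (p * m) else 0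
    with hG
  set r : ℝ := (p : ℝ) ^ (-(7 / 8) : ℝ) with hr
  set g : ℕ → ℝ := fun m => ‖b m‖ * wt α m with hg
  have hp2 : (2 : ℝ) ≤ (p : ℝ) := by exact_mod_cast hp.two_le
  have hr0 : 0 < r := by positivity
  have hr34 : r ≤ 3 / 4 := by
    have h1 : r ≤ (2 : ℝ) ^ (-(7 / 8) : ℝ) :=
      Real.rpow_le_rpow_of_nonpos (by norm_num) hp2 (by norm_num)
    have h2 : (2 : ℝ) ^ (-(7 / 8) : ℝ) ≤ (2 : ℝ) ^ (-(1 / 2) : ℝ) :=
      Real.rpow_le_rpow_of_exponent_le (by norm_num) (by norm_num)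
    have h3 : (2 : ℝ) ^ (-(1 / 2) : ℝ) ≤ 3 / 4 := by
      rw [Real.rpow_neg (by norm_num), ← Real.sqrt_eq_rpow]
      rw [inv_le_comm₀ (by positivity) (by norm_num)]
      apply Real.le_sqrt_of_sq_le
      norm_num
    linarith
  have hr1 : r < 1 := by linarith
  set H : ℕ × ℕ → ℝ := fun q => 2 * C0 ^ 2 * (r ^ (q.1 + 2) * g q.2) with hH
  have hgnn : ∀ m, 0 ≤ g m := fun m => mul_nonneg (norm_nonneg _) (wt_nonneg _ _)
  have hrs : Summable (fun i : ℕ => r ^ (i + 2)) :=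
    (summable_nat_add_iff 2).2 (summable_geometric_of_lt_one hr0.le hr1)
  have hrt : ∑' i : ℕ, r ^ (i + 2) = r ^ 2 * (1 - r)⁻¹ := by
    rw [← tsum_geometric_of_lt_one hr0.le hr1, ← tsum_mul_left]
    congr 1
    ext i
    ring
  have hprod : Summable (fun q : ℕ × ℕ => r ^ (q.1 + 2) * g q.2) :=
    hrs.mul_of_nonneg hs (fun i => by positivity) hgnn
  have hHs : Summable H := hprod.mul_left _
  have hHnn : ∀ q, 0 ≤ H q := fun q => by
    have := hgnn q.2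
    positivity
  have hHt : ∑' q, H q = 2 * C0 ^ 2 * (r ^ 2 * (1 - r)⁻¹ * ∑' m, g m) := by
    rw [hH, tsum_mul_left]
    congr 1
    rw [← hrt]
    exact (Summable.tsum_mul_tsum hrs hs hprod).symm
  set S : Set ℕ := {m | p ∣ m ∧ m ≠ 0} with hS
  let φ : S → ℕ × ℕ := fun m => ((m.1.factorization p) - 1, m.1 / p ^ (m.1.factorization p))
  have hfac : ∀ m : S, 1 ≤ m.1.factorization p := fun m =>
    hp.factorization_pos_of_dvd m.2.2 m.2.1
  have hdec : ∀ m : ℕ, p ^ (m.factorization p) * (m / p ^ (m.factorization p)) = m := fun m =>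
    Nat.ordProj_mul_ordCompl_eq_self m p
  have hφ : Function.Injective φ := by
    intro m n hmn
    have h1 : m.1.factorization p - 1 = n.1.factorization p - 1 := congrArg Prod.fst hmn
    have h2 : m.1 / p ^ (m.1.factorization p) = n.1 / p ^ (n.1.factorization p) :=
      congrArg Prod.snd hmn
    have h3 : m.1.factorization p = n.1.factorization p := by
      have := hfac m
      have := hfac n
      omega
    apply Subtype.ext
    rw [← hdec m.1, ← hdec n.1, h2, h3]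
  have hpt : ∀ m : S, G m.1 ≤ H (φ m) := by
    intro m
    have hm0 : m.1 ≠ 0 := m.2.2
    have hv := hfac m
    set v := m.1.factorization p with hvdef
    set m' := m.1 / p ^ v with hm'def
    have hcop : Nat.Coprime p m' := Nat.coprime_ordCompl hp hm0
    have h1 := rmd_point h hC0 hα hram p hp v m' hcop
    have h2 : p ^ v * m' = m.1 := hdec m.1
    rw [h2] at h1
    have h3 : G m.1 = (‖b (p * m.1)‖ + ‖b p‖ * ‖b m.1‖) * wt α (p * m.1) := by
      simp only [hG, if_pos m.2.1]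
    rw [h3]
    refine h1.trans (le_of_eq ?_)
    have h4 : v - 1 + 2 = v + 1 := by omega
    show _ = 2 * C0 ^ 2 * (r ^ (v - 1 + 2) * g m')
    rw [h4]
  have hGnn : ∀ m, 0 ≤ G m := by
    intro m
    simp only [hG]
    split_ifs
    · have := wt_nonneg α (p * m)
      positivity
    · exact le_rfl
  have hGsub : Summable (fun m : S => G m.1) :=
    Summable.of_nonneg_of_le (fun m => hGnn m.1) hpt (hHs.comp_injective hφ)
  have hind : S.indicator G = G := by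
    rw [Set.indicator_eq_self]
    intro m hm
    rw [Function.mem_support] at hm
    constructor
    · by_contra hd
      exact hm (by simp only [hG, if_neg hd])
    · rintro rfl
      exact hm (by simp [hG, wt_zero hα])
  have hGs : Summable G := by
    have hGsub' : Summable (G ∘ (Subtype.val : S → ℕ)) := hGsub
    have := summable_subtype_iff_indicator.1 hGsub'
    rwa [hind] at this
  refine ⟨hGs, ?_⟩
  have e1 : ∑' m, G m = ∑' m : S, G m.1 := by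
    have := tsum_subtype S G
    rw [hind] at this
    exact this.symm
  rw [e1]
  have hgt : 0 ≤ ∑' m, g m := tsum_nonneg hgnn
  calc ∑' m : S, G m.1 ≤ ∑' m : S, H (φ m) :=
        hGsub.tsum_le_tsum hpt (hHs.comp_injective hφ)
    _ ≤ ∑' q, H q := tsum_comp_le_tsum_of_inj hHs hHnn hφ
    _ = 2 * C0 ^ 2 * (r ^ 2 * (1 - r)⁻¹ * ∑' m, g m) := hHt
    _ ≤ 2 * C0 ^ 2 * (r ^ 2 * 4 * ∑' m, g m) := by
        have h5 : (1 - r)⁻¹ ≤ 4 := by
          rw [inv_le_comm₀ (by linarith) (by norm_num)]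
          linarith
        gcongr
    _ = 8 * C0 ^ 2 * r ^ 2 * ∑' m, g m := by ring
    _ = _ := by
        congr 2
        rw [hr, ← Real.rpow_natCast, ← Real.rpow_mul (by positivity)]
        norm_num

private theorem rmd_sum {b : ℕ → ℂ} (h : PD0 b) : ∃ D : ℝ, 0 ≤ D ∧ ∀ α : ℝ, 0 < α → α ≤ 1 / 2 →
    Summable (fun m : ℕ => ‖b m‖ * wt α m) ∧
    ∑' m : ℕ, ‖b m‖ * wt α m ≤ D * Real.exp (TT b α) * (1 / α) := by
  obtain ⟨C1, h1⟩ := mex h
  obtain ⟨C2, hC2, h2⟩ := ptl_all h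
  refine ⟨Real.exp (C1 + C2), (Real.exp_pos _).le, fun α hα hα2 => ?_⟩
  obtain ⟨h3, h4⟩ := h1 ∅ α hα hα2
  simp only [Set.mem_empty_iff_false, false_and, exists_false, if_false] at h3 h4
  refine ⟨h3, h4.trans ?_⟩
  have h5 := h2 α hα hα2
  have hT : 0 ≤ TT b α := tsum_nonneg fun p => by positivity
  have hl : 0 ≤ Real.log (1 / α) := by
    apply Real.log_nonneg
    rw [le_div_iff₀ hα]
    linarith
  have h6 : Real.sqrt (TT b α * (Real.log (1 / α) + C2)) ≤ TT b α + (Real.log (1 / α) + C2) := by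
    rw [Real.sqrt_le_left (by positivity)]
    nlinarith [sq_nonneg (TT b α), sq_nonneg (Real.log (1 / α) + C2)]
  have h7 : Real.exp (C1 + C2) * Real.exp (TT b α) * (1 / α) =
      Real.exp (C1 + (TT b α + (Real.log (1 / α) + C2))) := by
    have h8 : (1 / α : ℝ) = Real.exp (Real.log (1 / α)) := (Real.exp_log (by positivity)).symm
    conv_lhs => rw [h8]
    rw [← Real.exp_add, ← Real.exp_add]
    congr 1
    ring
  rw [h7]
  apply Real.exp_le_exp.2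
  linarith

open Classical in
theorem rmd {b : ℕ → ℂ} (h : PD0 b) : ∃ C : ℝ, 0 ≤ C ∧ ∀ M0 M1 : ℝ, 1 ≤ M0 →
    ∀ α : ℝ, 0 < α → α ≤ 1 / 2 → ∀ θ β : ℝ,
      ‖(∑' n : ℕ, if ∃ p ∈ PQ M0 M1, p ∣ n then
          b n * (n : ℂ) ^ (-(1 - θ * I + α) : ℂ) * ee β n else 0) -
        ∑ p ∈ PQ M0 M1, b p * (p : ℂ) ^ (-(1 - θ * I + α) : ℂ) *
          ∑' m : ℕ, b m * ((1 / ((oq M0 M1 m : ℝ) + 1) : ℝ) : ℂ) *
            (m : ℂ) ^ (-(1 - θ * I + α) : ℂ) * ee β (p * m)‖ ≤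
        C * Real.exp (TT b α) * (1 / α) * M0 ^ (-(1 / 4) : ℝ) := by
  obtain ⟨C0', hram'⟩ := h.ram (1 / 8) (by norm_num)
  obtain ⟨D, hD, hM⟩ := rmd_sum h
  set C0 := max C0' 1 with hC0def
  have hC0 : 1 ≤ C0 := le_max_right _ _
  have hram : ∀ n : ℕ, 1 ≤ n → ‖b n‖ ≤ C0 * (n : ℝ) ^ (1 / 8 : ℝ) := fun n hn =>
    (hram' n hn).trans (mul_le_mul_of_nonneg_right (le_max_left _ _) (by positivity))
  have hZ : Summable (fun n : ℕ => (n : ℝ) ^ (-(3 / 2) : ℝ)) :=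
    Real.summable_nat_rpow.2 (by norm_num)
  set Z : ℝ := ∑' n : ℕ, (n : ℝ) ^ (-(3 / 2) : ℝ) with hZdef
  have hZ0 : 0 ≤ Z := tsum_nonneg fun n => by positivity
  refine ⟨8 * C0 ^ 2 * Z * D, by positivity, ?_⟩
  intro M0 M1 hM0 α hα hα2 θ β
  obtain ⟨hs, hMx⟩ := hM α hα hα2
  set P := PQ M0 M1 with hP
  obtain ⟨s, hsdef⟩ : ∃ s : ℂ, s = -(1 - θ * I + α) := ⟨_, rfl⟩
  rw [← hsdef]
  have hWn : ∀ n : ℕ, ‖(n : ℂ) ^ s‖ = wt α n := fun n => by rw [hsdef, wt_norm α θ hα n]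
  have hWm : ∀ p m : ℕ, ((p * m : ℕ) : ℂ) ^ s = (p : ℂ) ^ s * (m : ℂ) ^ s := fun p m => by
    rw [Nat.cast_mul, natCast_mul_natCast_cpow]
  -- summability
  set F : ℕ → ℂ := fun n => b n * (n : ℂ) ^ s * ee β n with hF
  have hFn : ∀ n, ‖F n‖ = ‖b n‖ * wt α n := by
    intro n
    simp only [hF]
    rw [norm_mul, norm_mul, rmd_ee_norm, mul_one, hWn]
  have hom : ∀ (c : ℂ) (n : ℕ), ∑ p ∈ P, (if p ∣ n then c else 0) = (oq M0 M1 n : ℂ) * c := by
    intro c n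
    rw [← Finset.sum_filter, Finset.sum_const, nsmul_eq_mul]
    rfl
  have hB : ∀ n, (if ∃ p ∈ P, p ∣ n then F n else 0) =
      ∑ p ∈ P, (if p ∣ n then F n / (oq M0 M1 n : ℂ) else 0) := by
    intro n
    rw [hom]
    split_ifs with hex
    · have hne : (oq M0 M1 n : ℂ) ≠ 0 := by
        obtain ⟨p, hp, hpn⟩ := hex
        have : 0 < oq M0 M1 n := Finset.card_pos.2 ⟨p, Finset.mem_filter.2 ⟨hp, hpn⟩⟩
        exact_mod_cast this.ne'
      field_simp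
    · have : oq M0 M1 n = 0 := by
        unfold oq
        rw [Finset.card_eq_zero, Finset.filter_eq_empty_iff]
        intro p hp hpn
        exact hex ⟨p, hp, hpn⟩
      rw [this]
      simp
  have hdivle : ∀ n, ‖F n / (oq M0 M1 n : ℂ)‖ ≤ ‖F n‖ := by
    intro n
    rw [norm_div, Complex.norm_natCast]
    rcases Nat.eq_zero_or_pos (oq M0 M1 n) with h0 | h0
    · rw [h0]
      simp
    · apply div_le_self (norm_nonneg _)
      exact_mod_cast h0
  have hsFn : Summable (fun n => ‖F n‖) := by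
    simp_rw [hFn]
    exact hs
  have hsd : ∀ p : ℕ, Summable (fun n => if p ∣ n then F n / (oq M0 M1 n : ℂ) else 0) := by
    intro p
    refine Summable.of_norm_bounded hsFn ?_
    intro n
    split_ifs
    · exact hdivle n
    · simp
  have e1 : (∑' n : ℕ, if ∃ p ∈ P, p ∣ n then F n else 0) =
      ∑ p ∈ P, ∑' m : ℕ, F (p * m) / (oq M0 M1 (p * m) : ℂ) := by
    calc (∑' n : ℕ, if ∃ p ∈ P, p ∣ n then F n else 0)
        = ∑' n : ℕ, ∑ p ∈ P, (if p ∣ n then F n / (oq M0 M1 n : ℂ) else 0) := by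
          congr 1
          ext n
          rw [hB]
      _ = ∑ p ∈ P, ∑' n : ℕ, (if p ∣ n then F n / (oq M0 M1 n : ℂ) else 0) :=
          Summable.tsum_finsetSum fun p _ => hsd p
      _ = _ := by
          apply Finset.sum_congr rfl
          intro p hp
          have hp0 : p ≠ 0 := (rmd_PQ hp).1.ne_zero
          have hinj : Function.Injective (fun m : ℕ => p * m) := fun m n hmn =>
            Nat.eq_of_mul_eq_mul_left (Nat.pos_of_ne_zero hp0) hmn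
          have hsupp : Function.support (fun n => if p ∣ n then F n / (oq M0 M1 n : ℂ) else 0) ⊆
              Set.range (fun m : ℕ => p * m) := by
            intro n hn
            rw [Function.mem_support] at hn
            by_cases hd : p ∣ n
            · obtain ⟨m, rfl⟩ := hd
              exact ⟨m, rfl⟩
            · simp [hd] at hn
          rw [← hinj.tsum_eq hsupp]
          congr 1
          ext m
          rw [if_pos (dvd_mul_right _ _)]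
  have hsum2 : ∀ p ∈ P, Summable (fun m : ℕ => F (p * m) / (oq M0 M1 (p * m) : ℂ)) := by
    intro p hp
    have hp0 : p ≠ 0 := (rmd_PQ hp).1.ne_zero
    have hinj : Function.Injective (fun m : ℕ => p * m) := fun m n hmn =>
      Nat.eq_of_mul_eq_mul_left (Nat.pos_of_ne_zero hp0) hmn
    refine Summable.of_norm_bounded (hsFn.comp_injective hinj) ?_
    intro m
    exact hdivle _
  -- the other sum
  set E : ℕ → ℕ → ℂ := fun p m => b m * ((1 / ((oq M0 M1 m : ℝ) + 1) : ℝ) : ℂ) *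
          (m : ℂ) ^ s * ee β (p * m) with hE
  have hEn : ∀ p m, ‖E p m‖ ≤ ‖b m‖ * wt α m := by
    intro p m
    simp only [hE]
    rw [norm_mul, norm_mul, norm_mul, rmd_ee_norm, mul_one, Complex.norm_real, hWn,
      Real.norm_of_nonneg (by positivity)]
    have h1 : (1 : ℝ) / ((oq M0 M1 m : ℝ) + 1) ≤ 1 := by
      rw [div_le_one (by positivity)]
      have : (0 : ℝ) ≤ (oq M0 M1 m : ℝ) := by positivity
      linarith
    have := wt_nonneg α m
    calc ‖b m‖ * (1 / ((oq M0 M1 m : ℝ) + 1)) * wt α m ≤ ‖b m‖ * 1 * wt α m := by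
          gcongr
      _ = _ := by ring
  have hsE : ∀ p ∈ P, Summable (fun m => E p m) := by
    intro p hp
    exact Summable.of_norm_bounded hs (hEn p)
  have e2 : (∑' n : ℕ, if ∃ p ∈ P, p ∣ n then F n else 0) -
      ∑ p ∈ P, b p * (p : ℂ) ^ s * ∑' m, E p m =
      ∑ p ∈ P, ∑' m, (F (p * m) / (oq M0 M1 (p * m) : ℂ) - b p * (p : ℂ) ^ s * E p m) := by
    rw [e1, ← Finset.sum_sub_distrib]
    apply Finset.sum_congr rfl
    intro p hp
    rw [← tsum_mul_left, ← Summable.tsum_sub (hsum2 p hp) ((hsE p hp).mul_left _)]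
  have hgoal : (∑' n : ℕ, if ∃ p ∈ PQ M0 M1, p ∣ n then b n * (n : ℂ) ^ s * ee β n else 0) -
        ∑ p ∈ PQ M0 M1, b p * (p : ℂ) ^ s * ∑' m : ℕ, b m *
          ((1 / ((oq M0 M1 m : ℝ) + 1) : ℝ) : ℂ) * (m : ℂ) ^ s * ee β (p * m) =
      ∑ p ∈ P, ∑' m, (F (p * m) / (oq M0 M1 (p * m) : ℂ) - b p * (p : ℂ) ^ s * E p m) := e2
  rw [hgoal]
  -- pointwise
  have hpt : ∀ p ∈ P, ∀ m : ℕ, ‖F (p * m) / (oq M0 M1 (p * m) : ℂ) - b p * (p : ℂ) ^ s * E p m‖ ≤
      if p ∣ m then (‖b (p * m)‖ + ‖b p‖ * ‖b m‖) * wt α (p * m) else 0 := by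
    intro p hp m
    have hpp := (rmd_PQ hp).1
    split_ifs with hd
    · calc ‖F (p * m) / (oq M0 M1 (p * m) : ℂ) - b p * (p : ℂ) ^ s * E p m‖
          ≤ ‖F (p * m) / (oq M0 M1 (p * m) : ℂ)‖ + ‖b p * (p : ℂ) ^ s * E p m‖ := norm_sub_le _ _
        _ ≤ ‖F (p * m)‖ + (‖b p‖ * wt α p) * (‖b m‖ * wt α m) := by
            gcongr
            · exact hdivle _
            · rw [norm_mul, norm_mul, hWn]
              have := wt_nonneg α p
              gcongr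
              exact hEn p m
        _ = _ := by
            rw [hFn, wt_mul]
            ring
    · have hcop : Nat.Coprime p m := (Nat.Prime.coprime_iff_not_dvd hpp).2 hd
      have hom1 : oq M0 M1 (p * m) = oq M0 M1 m + 1 := by
        unfold oq
        have : (P.filter (fun q => q ∣ p * m)) = insert p (P.filter (fun q => q ∣ m)) := by
          ext q
          simp only [Finset.mem_filter, Finset.mem_insert]
          constructor
          · rintro ⟨hq, hqd⟩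
            have hqp := (rmd_PQ hq).1
            rcases (Nat.Prime.dvd_mul hqp).1 hqd with h1 | h1
            · left
              exact (Nat.prime_dvd_prime_iff_eq hqp hpp).1 h1
            · right
              exact ⟨hq, h1⟩
          · rintro (rfl | ⟨hq, hqd⟩)
            · exact ⟨hp, dvd_mul_right _ _⟩
            · exact ⟨hq, hqd.mul_left _⟩
        rw [← hP, this, Finset.card_insert_of_notMem]
        simp [hd]
      have : F (p * m) / (oq M0 M1 (p * m) : ℂ) - b p * (p : ℂ) ^ s * E p m = 0 := by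
        rw [hom1]
        simp only [hF, hE]
        rw [h.mul _ _ hcop, hWm]
        push_cast
        ring
      rw [this, norm_zero]
  have hnorm : ∀ p ∈ P, ‖∑' m, (F (p * m) / (oq M0 M1 (p * m) : ℂ) -
      b p * (p : ℂ) ^ s * E p m)‖ ≤
      8 * C0 ^ 2 * (p : ℝ) ^ (-(7 / 4) : ℝ) * (D * Real.exp (TT b α) * (1 / α)) := by
    intro p hp
    have hpp := (rmd_PQ hp).1
    obtain ⟨h1, h2⟩ := rmd_prime h hC0 hα hram hs p hpp
    refine (tsum_of_norm_bounded h1.hasSum (hpt p hp)).trans (h2.trans ?_)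
    gcongr
  have hM00 : 0 < M0 := by linarith
  calc ‖∑ p ∈ P, ∑' m, (F (p * m) / (oq M0 M1 (p * m) : ℂ) - b p * (p : ℂ) ^ s * E p m)‖
      ≤ ∑ p ∈ P, ‖∑' m, (F (p * m) / (oq M0 M1 (p * m) : ℂ) - b p * (p : ℂ) ^ s * E p m)‖ :=
        norm_sum_le _ _
    _ ≤ ∑ p ∈ P, 8 * C0 ^ 2 * (p : ℝ) ^ (-(7 / 4) : ℝ) *
          (D * Real.exp (TT b α) * (1 / α)) := Finset.sum_le_sum hnorm
    _ = (8 * C0 ^ 2 * (D * Real.exp (TT b α) * (1 / α))) *
          ∑ p ∈ P, (p : ℝ) ^ (-(7 / 4) : ℝ) := by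
        rw [Finset.mul_sum]
        apply Finset.sum_congr rfl
        intro p _
        ring
    _ ≤ (8 * C0 ^ 2 * (D * Real.exp (TT b α) * (1 / α))) * (M0 ^ (-(1 / 4) : ℝ) * Z) := by
        gcongr
        calc ∑ p ∈ P, (p : ℝ) ^ (-(7 / 4) : ℝ)
            ≤ ∑ p ∈ P, M0 ^ (-(1 / 4) : ℝ) * (p : ℝ) ^ (-(3 / 2) : ℝ) := by
              apply Finset.sum_le_sum
              intro p hp
              obtain ⟨hpp, hpL⟩ := rmd_PQ hp
              have hp0 : (0 : ℝ) < (p : ℝ) := by exact_mod_cast hpp.pos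
              have h1 : (p : ℝ) ^ (-(7 / 4) : ℝ) =
                  (p : ℝ) ^ (-(1 / 4) : ℝ) * (p : ℝ) ^ (-(3 / 2) : ℝ) := by
                rw [← Real.rpow_add hp0]
                norm_num
              rw [h1]
              exact mul_le_mul_of_nonneg_right
                (Real.rpow_le_rpow_of_nonpos hM00 hpL.le (by norm_num)) (by positivity)
          _ = M0 ^ (-(1 / 4) : ℝ) * ∑ p ∈ P, (p : ℝ) ^ (-(3 / 2) : ℝ) := by
              rw [Finset.mul_sum]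
          _ ≤ _ := by
              gcongr
              exact hZ.sum_le_tsum _ (fun n _ => by positivity)
    _ = _ := by ring

end Pool.Agent.H11.PI
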