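import Mathlib
import Pool.Agent.H11.PI.Defs
import Pool.Agent.H11.PI.RGH
import Pool.Agent.H11.PI.RMD
import Pool.Agent.H11.PI.BIL
import Pool.Agent.H11.PI.IPA
import Pool.Agent.H11.PE.SUMM

/-!
# IRE: the additive twist at a point with a convergent of suitable size

`M0 = exp (4T) (1/α)^4`, `M1 = exp ((1/α)^(1-η))`, `K = ⌈k M0⌉`; Ramaré's identity with the primes of `(M0, M1]`; `rgh` bounds the integers
without such a prime factor, `bil` the bilinear sum, `rmd` the error.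
-/

set_option autoImplicit false

namespace Pool.Agent.H11.PI

open Complex Filter Topology Pool.Agent.H11.PC Pool.Agent.H11.PE

private theorem ire_ee (β : ℝ) (n : ℕ) : ‖ee β n‖ = 1 := by
  unfold ee
  have : (-(2 * (Real.pi : ℂ) * n * β * Complex.I)) = ((-(2 * Real.pi * n * β) : ℝ) : ℂ) * I := by
    push_cast
    ring
  rw [this, Complex.norm_exp_ofReal_mul_I]

private theorem ire_term (b : ℕ → ℂ) (β θ α : ℝ) (hα : 0 < α) (n : ℕ) :
    LSeries.term (fun n => b n * cexp (-(2 * (Real.pi : ℂ) * n * β * I))) (1 - θ * I + α) n =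
      b n * (n : ℂ) ^ (-(1 - θ * I + α) : ℂ) * ee β n ∧
    ‖b n * (n : ℂ) ^ (-(1 - θ * I + α) : ℂ) * ee β n‖ = ‖b n‖ * (n : ℝ) ^ (-(1 + α)) := by
  have hs : (-(1 - θ * I + α) : ℂ) ≠ 0 := by
    intro h
    have := congrArg Complex.re h
    simp at this
    linarith
  rcases Nat.eq_zero_or_pos n with rfl | hn
  · rw [LSeries.term_zero, Nat.cast_zero, Complex.zero_cpow hs, mul_zero, zero_mul, norm_zero,
      Nat.cast_zero, Real.zero_rpow (by linarith), mul_zero]
    exact ⟨rfl, rfl⟩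
  · constructor
    · rw [LSeries.term_of_ne_zero hn.ne', div_eq_mul_inv, ← Complex.cpow_neg]
      unfold ee
      ring
    · rw [norm_mul, norm_mul, ire_ee, mul_one, norm_natCast_cpow_of_pos hn]
      congr 2
      simp

theorem ire {b : ℕ → ℂ} (h : PD0 b) (κ : ℝ) (hκ : 0 < κ) : ∃ η C α0 : ℝ, 0 < η ∧ 0 < α0 ∧
    ∀ α : ℝ, 0 < α → α < α0 → TT b α ≤ (1 / α) ^ η → ∀ (k : ℕ) (a : ℤ) (β : ℝ),
      IsCoprime a (k : ℤ) → |β - (a : ℝ) / k| ≤ 1 / (k : ℝ) ^ 2 →
      Real.exp (4 * TT b α) * (1 / α) ^ (4 : ℕ) ≤ (k : ℝ) → (k : ℝ) ≤ Real.exp ((1 / α) ^ η) →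
      ∀ θ : ℝ, ‖Es b β (1 - θ * I + α)‖ ≤ C * Real.exp (κ * RR b α) := by
  classical
  obtain ⟨C1, hC1, hr⟩ := rgh h
  obtain ⟨C2, hC2, hm⟩ := rmd h
  obtain ⟨C3, hC3, hb⟩ := bil h
  obtain ⟨ρ, η, α0, hη, hη8, hρ, hρκ, hα0, hpar⟩ := ire_par κ (max C1 C3) hκ
    (le_max_of_le_left hC1)
  refine ⟨η, C1 + 8 / κ * C3 + Real.sqrt (26 * C3) + C2, α0, hη, hα0, ?_⟩
  intro α hα hαα0 hT k a β hco hβ hk1 hk2 θ
  obtain ⟨p1, p2, p3, p4, p5, p6⟩ := hpar α hα hαα0
  have hα2 : α ≤ 1 / 2 := by linarith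
  obtain ⟨l, hl⟩ : ∃ l : ℝ, l = Real.log (1 / α) := ⟨_, rfl⟩
  obtain ⟨T, hTd⟩ : ∃ T : ℝ, T = TT b α := ⟨_, rfl⟩
  have hx4 : 4 ≤ 1 / α := by
    rw [le_div_iff₀ hα]
    linarith
  have hx0 : 0 < 1 / α := by linarith
  have hl1 : 1 ≤ l := by
    have h1 : Real.log 4 ≤ l := by rw [hl]; exact Real.log_le_log (by norm_num) hx4
    have h2 : Real.log 4 = 2 * Real.log 2 := by
      rw [show (4 : ℝ) = 2 ^ 2 by norm_num, Real.log_pow]
      norm_num
    have := Real.log_two_gt_d9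
    linarith
  have hT0 : 0 ≤ T := by rw [hTd]; exact TT_nonneg b α
  have hC1m : C1 ≤ max C1 C3 := le_max_left _ _
  have hC3m : C3 ≤ max C1 C3 := le_max_right _ _
  rw [← hl] at p2 p3 p4 p6
  rw [← hTd] at hT hk1
  -- the parameters
  obtain ⟨M0, hM0⟩ : ∃ M0 : ℝ, M0 = Real.exp (4 * T) * (1 / α) ^ (4 : ℕ) := ⟨_, rfl⟩
  obtain ⟨M1, hM1⟩ : ∃ M1 : ℝ, M1 = Real.exp ((1 / α) ^ (1 - η)) := ⟨_, rfl⟩
  obtain ⟨K, hK⟩ : ∃ K : ℕ, K = ⌈(k : ℝ) * M0⌉₊ := ⟨_, rfl⟩
  rw [← hM0] at hk1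
  have hE4 : 1 ≤ Real.exp (4 * T) := Real.one_le_exp (by linarith)
  have hX4 : (256 : ℝ) ≤ (1 / α) ^ (4 : ℕ) := by
    calc (256 : ℝ) = 4 ^ 4 := by norm_num
      _ ≤ (1 / α) ^ (4 : ℕ) := pow_le_pow_left₀ (by norm_num) hx4 4
  have hM0256 : 256 ≤ M0 := by
    rw [hM0]
    nlinarith
  have hM0pos : 0 < M0 := by linarith
  have hk256 : (256 : ℝ) ≤ k := hM0256.trans hk1
  have hk4 : 4 ≤ k := by exact_mod_cast (by linarith : (4 : ℝ) ≤ k)
  have hkpos : (0 : ℝ) < k := by linarith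
  have hlogM0 : Real.log M0 = 4 * T + 4 * l := by
    rw [hM0, Real.log_mul (Real.exp_ne_zero _) (by positivity), Real.log_exp, Real.log_pow, ← hl]
    norm_num
  have hlogM1 : Real.log M1 = (1 / α) ^ (1 - η) := by rw [hM1, Real.log_exp]
  have hlogM1' : Real.log M1 ≤ 1 / α := by
    rw [hlogM1]
    calc (1 / α) ^ (1 - η) ≤ (1 / α) ^ (1 : ℝ) :=
          Real.rpow_le_rpow_of_exponent_le (by linarith) (by linarith)
      _ = 1 / α := Real.rpow_one _
  have hllM1 : Real.log (Real.log M1) = (1 - η) * l := by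
    rw [hlogM1, Real.log_rpow hx0, hl]
  have hM13 : 3 ≤ M1 := by
    have h1 : Real.exp 2 ≤ M1 := by rw [hM1]; exact Real.exp_le_exp.2 p5
    have h2 := Real.add_one_le_exp (2 : ℝ)
    linarith
  have hM1e : 1 + Real.log M1 ≤ 2 / α := by
    have : 2 / α = 1 / α + 1 / α := by ring
    linarith
  have hkM0 : 0 < (k : ℝ) * M0 := by positivity
  have hKle : (k : ℝ) * M0 ≤ K := by rw [hK]; exact Nat.le_ceil _
  have hKpos : (0 : ℝ) < K := by linarith
  have hK1 : 1 ≤ K := by exact_mod_cast hKpos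
  have hKup : (K : ℝ) ≤ 2 * (k * M0) := by
    have h1 : (K : ℝ) < k * M0 + 1 := by rw [hK]; exact Nat.ceil_lt_add_one hkM0.le
    nlinarith
  have hxη : 0 < (1 / α) ^ η := Real.rpow_pos_of_pos hx0 η
  have hlogK : Real.log K + 2 ≤ 5 * (1 / α) ^ η + 4 * l + 3 := by
    have h1 : Real.log K ≤ Real.log (2 * (k * M0)) := Real.log_le_log hKpos hKup
    rw [Real.log_mul (by norm_num) hkM0.ne', Real.log_mul hkpos.ne' hM0pos.ne', hlogM0] at h1
    have h2 : Real.log k ≤ (1 / α) ^ η := by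
      rw [Real.log_le_iff_le_exp hkpos]
      exact hk2
    have h3 := Real.log_two_lt_d9
    linarith
  have hlogK2 : 0 < Real.log K + 2 := by
    have : 0 ≤ Real.log K := Real.log_nonneg (by exact_mod_cast hK1)
    linarith
  have hKα : Real.log K + 2 ≤ 1 / α := hlogK.trans p2
  -- the exponents
  have hRR : RR b α = Real.sqrt (T * l) := by unfold RR; rw [← hTd, ← hl]
  obtain ⟨R, hR⟩ : ∃ R : ℝ, R = RR b α := ⟨_, rfl⟩
  have hR0 : 0 ≤ R := by rw [hR, hRR]; exact Real.sqrt_nonneg _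
  have hsq : ∀ z : ℝ, z ≤ ρ * l → Real.sqrt (T * z) ≤ κ / 4 * R := by
    intro z hz
    have h1 : T * z ≤ (κ / 4) ^ 2 * (T * l) := by
      have h2 : z ≤ κ ^ 2 / 16 * l := hz.trans (mul_le_mul_of_nonneg_right hρκ (by linarith))
      nlinarith
    refine (Real.sqrt_le_sqrt h1).trans (le_of_eq ?_)
    rw [Real.sqrt_mul (by positivity), Real.sqrt_sq (by positivity), hR, hRR]
  have hex1 : Real.sqrt (T * (Real.log (Real.log M0 + 2) + C1)) ≤ κ / 4 * R := by
    refine hsq _ ?_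
    have h1 := p3 (Real.log M0 + 2) (by rw [hlogM0]; linarith) (by rw [hlogM0]; linarith)
    linarith
  have hex2 : Real.sqrt (T * (l - Real.log (Real.log M1) + C1)) ≤ κ / 4 * R := by
    refine hsq _ ?_
    rw [hllM1]
    linarith
  have hex3 : Real.sqrt (T * (Real.log (Real.log K + 2) + C3)) ≤ κ / 4 * R := by
    refine hsq _ ?_
    have h1 := p3 (Real.log K + 2) hlogK2 hlogK
    linarith
  have hexp1 : 1 ≤ Real.exp (κ * R) := Real.one_le_exp (by positivity)
  -- the splitting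
  have hre : 1 < (1 - θ * I + α : ℂ).re := by simp; exact hα
  have hsum : Summable (fun n : ℕ => b n * (n : ℂ) ^ (-(1 - θ * I + α) : ℂ) * ee β n) := by
    have h1 := pd_summable h (fun n => cexp (-(2 * (Real.pi : ℂ) * n * β * I)))
      (fun n => (ire_ee β n).le) _ hre
    refine h1.congr fun n => ?_
    exact (ire_term b β θ α hα n).1
  have hnsum : Summable (fun n : ℕ => ‖b n‖ * (n : ℝ) ^ (-(1 + α))) :=
    hsum.norm.congr fun n => (ire_term b β θ α hα n).2
  have hEs : Es b β (1 - θ * I + α) =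
      ∑' n : ℕ, b n * (n : ℂ) ^ (-(1 - θ * I + α) : ℂ) * ee β n := by
    unfold Es LSeries
    exact tsum_congr fun n => (ire_term b β θ α hα n).1
  have hA : Summable (fun n : ℕ => if ∃ p ∈ PQ M0 M1, p ∣ n then
      b n * (n : ℂ) ^ (-(1 - θ * I + α) : ℂ) * ee β n else 0) := by
    refine Summable.of_norm_bounded hnsum fun n => ?_
    split_ifs
    · exact (ire_term b β θ α hα n).2.le
    · rw [norm_zero]
      positivity
  have hB : Summable (fun n : ℕ => if ∃ p ∈ PQ M0 M1, p ∣ n then 0 else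
      b n * (n : ℂ) ^ (-(1 - θ * I + α) : ℂ) * ee β n) := by
    refine Summable.of_norm_bounded hnsum fun n => ?_
    split_ifs
    · rw [norm_zero]
      positivity
    · exact (ire_term b β θ α hα n).2.le
  have hsplit : Es b β (1 - θ * I + α) =
      (∑' n : ℕ, if ∃ p ∈ PQ M0 M1, p ∣ n then
        b n * (n : ℂ) ^ (-(1 - θ * I + α) : ℂ) * ee β n else 0) +
      ∑' n : ℕ, if ∃ p ∈ PQ M0 M1, p ∣ n then 0 else
        b n * (n : ℂ) ^ (-(1 - θ * I + α) : ℂ) * ee β n := by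
    rw [hEs, ← hA.tsum_add hB]
    refine tsum_congr fun n => ?_
    split_ifs <;> simp
  -- rough part
  obtain ⟨hrs, hrb⟩ := hr α hα hα2 M0 M1 (by linarith) hM13 hlogM1'
  rw [← hTd, ← hl] at hrb
  have hrough : ‖∑' n : ℕ, if ∃ p ∈ PQ M0 M1, p ∣ n then 0 else
      b n * (n : ℂ) ^ (-(1 - θ * I + α) : ℂ) * ee β n‖ ≤ C1 * Real.exp (κ * R) := by
    refine (tsum_of_norm_bounded hrs.hasSum fun n => ?_).trans (hrb.trans ?_)
    · split_ifs
      · rw [norm_zero]
      · exact (ire_term b β θ α hα n).2.le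
    · apply mul_le_mul_of_nonneg_left _ hC1
      apply Real.exp_le_exp.2
      have : 0 ≤ κ * R := by positivity
      linarith
  -- error of the identity
  have hrmd := hm M0 M1 (by linarith) α hα hα2 θ β
  rw [← hTd] at hrmd
  have herr : C2 * Real.exp T * (1 / α) * M0 ^ (-(1 / 4) : ℝ) = C2 := by
    have h1 : M0 ^ (-(1 / 4) : ℝ) = Real.exp (-T) * α := by
      rw [hM0, Real.mul_rpow (Real.exp_pos _).le (by positivity), ← Real.exp_mul,
        ← Real.rpow_natCast, ← Real.rpow_mul hx0.le]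
      congr 1
      · congr 1
        ring
      · rw [show ((4 : ℕ) : ℝ) * -(1 / 4) = -1 by norm_num, Real.rpow_neg_one, one_div, inv_inv]
    rw [h1, Real.exp_neg]
    field_simp
  rw [herr] at hrmd
  -- bilinear part
  have hbil := hb k a β hk4 hco hβ α hα hα2 M0 M1 (by linarith) (by linarith) K hK1 hKα θ
    (fun m => 1 / ((oq M0 M1 m : ℝ) + 1)) (fun m => ⟨by positivity, by
      rw [div_le_one (by positivity)]
      have : (0 : ℝ) ≤ (oq M0 M1 m : ℝ) := Nat.cast_nonneg _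
      linarith⟩)
  rw [← hTd, ← hl] at hbil
  have hb1 : Real.sqrt (T * (l + C3)) ≤ 8 / κ * Real.exp (κ / 4 * R) := by
    have h1 : T * (l + C3) ≤ 2 ^ 2 * (T * l) := by nlinarith
    have h2 : Real.sqrt (T * (l + C3)) ≤ 2 * R := by
      refine (Real.sqrt_le_sqrt h1).trans (le_of_eq ?_)
      rw [Real.sqrt_mul (by positivity), Real.sqrt_sq (by positivity), hR, hRR]
    have h3 := Real.add_one_le_exp (κ / 4 * R)
    have h4 : 2 * R = 8 / κ * (κ / 4 * R) := by field_simp; ring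
    rw [h4] at h2
    refine h2.trans ?_
    apply mul_le_mul_of_nonneg_left _ (by positivity)
    linarith
  have hb2 : Real.sqrt (T * (l + C3)) *
      (C3 * Real.exp (Real.sqrt (T * (Real.log (Real.log K + 2) + C3)))) ≤
      8 / κ * C3 * Real.exp (κ * R) := by
    calc Real.sqrt (T * (l + C3)) *
        (C3 * Real.exp (Real.sqrt (T * (Real.log (Real.log K + 2) + C3))))
        ≤ (8 / κ * Real.exp (κ / 4 * R)) * (C3 * Real.exp (κ / 4 * R)) := by
          apply mul_le_mul hb1 _ (by positivity) (by positivity)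
          exact mul_le_mul_of_nonneg_left (Real.exp_le_exp.2 hex3) hC3
      _ = 8 / κ * C3 * Real.exp (κ / 4 * R + κ / 4 * R) := by
          rw [Real.exp_add]
          ring
      _ ≤ 8 / κ * C3 * Real.exp (κ * R) := by
          apply mul_le_mul_of_nonneg_left _ (by positivity)
          apply Real.exp_le_exp.2
          have : 0 ≤ κ * R := by positivity
          linarith
  have hM0inv : 1 / M0 = Real.exp (-(4 * T)) * α ^ 4 := by
    rw [hM0, Real.exp_neg, one_div, mul_inv, one_div, inv_pow, inv_inv]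
  have hbr : 4 * k / K * (1 + Real.log M1) +
      2 / α * (1 / M0 + 4 / k * (1 + Real.log M1)) ≤ 26 * Real.exp (-(4 * T)) := by
    have hlm : 0 ≤ 1 + Real.log M1 := by
      have : 0 ≤ Real.log M1 := Real.log_nonneg (by linarith)
      linarith
    have h1 : 4 * k / K ≤ 4 * (1 / M0) := by
      rw [div_le_iff₀ hKpos]
      calc (4 : ℝ) * k = 4 * (1 / M0) * (k * M0) := by field_simp
        _ ≤ 4 * (1 / M0) * K := mul_le_mul_of_nonneg_left hKle (by positivity)
    have h2 : 4 / (k : ℝ) ≤ 4 * (1 / M0) := by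
      rw [div_le_iff₀ hkpos]
      calc (4 : ℝ) = 4 * (1 / M0) * M0 := by field_simp
        _ ≤ 4 * (1 / M0) * k := mul_le_mul_of_nonneg_left hk1 (by positivity)
    have h3 : 4 * k / K * (1 + Real.log M1) ≤ 4 * (1 / M0) * (2 / α) :=
      mul_le_mul h1 hM1e hlm (by positivity)
    have h4 : 4 / (k : ℝ) * (1 + Real.log M1) ≤ 4 * (1 / M0) * (2 / α) :=
      mul_le_mul h2 hM1e hlm (by positivity)
    have h5 : 2 / α * (1 / M0 + 4 / k * (1 + Real.log M1)) ≤
        2 / α * (1 / M0 + 4 * (1 / M0) * (2 / α)) :=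
      mul_le_mul_of_nonneg_left (by linarith) (by positivity)
    have h6 : 4 * (1 / M0) * (2 / α) + 2 / α * (1 / M0 + 4 * (1 / M0) * (2 / α)) =
        Real.exp (-(4 * T)) * (10 * α ^ 3 + 16 * α ^ 2) := by
      rw [hM0inv]
      field_simp
      ring
    have h7 : 10 * α ^ 3 + 16 * α ^ 2 ≤ 26 := by nlinarith [pow_pos hα 2, pow_pos hα 3]
    have h8 : Real.exp (-(4 * T)) * (10 * α ^ 3 + 16 * α ^ 2) ≤ Real.exp (-(4 * T)) * 26 :=
      mul_le_mul_of_nonneg_left h7 (Real.exp_pos _).le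
    linarith
  have hb3 : Real.sqrt (C3 * Real.exp T * (T * (4 * k / K * (1 + Real.log M1) +
      2 / α * (1 / M0 + 4 / k * (1 + Real.log M1))))) ≤ Real.sqrt (26 * C3) := by
    apply Real.sqrt_le_sqrt
    have h1 : T * (4 * k / K * (1 + Real.log M1) +
        2 / α * (1 / M0 + 4 / k * (1 + Real.log M1))) ≤ T * (26 * Real.exp (-(4 * T))) :=
      mul_le_mul_of_nonneg_left hbr hT0
    have h2 : C3 * Real.exp T * (T * (4 * k / K * (1 + Real.log M1) +
        2 / α * (1 / M0 + 4 / k * (1 + Real.log M1)))) ≤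
        C3 * Real.exp T * (T * (26 * Real.exp (-(4 * T)))) :=
      mul_le_mul_of_nonneg_left h1 (by positivity)
    have h3 : T ≤ Real.exp (3 * T) := by
      have := Real.add_one_le_exp (3 * T)
      linarith
    have h4 : Real.exp T * (T * (26 * Real.exp (-(4 * T)))) ≤ 26 := by
      calc Real.exp T * (T * (26 * Real.exp (-(4 * T)))) ≤
          Real.exp T * (Real.exp (3 * T) * (26 * Real.exp (-(4 * T)))) := by gcongr
        _ = 26 * Real.exp (T + 3 * T + -(4 * T)) := by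
          rw [Real.exp_add, Real.exp_add]
          ring
        _ = 26 := by
          rw [show T + 3 * T + -(4 * T) = 0 by ring, Real.exp_zero, mul_one]
    calc _ ≤ C3 * Real.exp T * (T * (26 * Real.exp (-(4 * T)))) := h2
      _ = C3 * (Real.exp T * (T * (26 * Real.exp (-(4 * T))))) := by ring
      _ ≤ C3 * 26 := mul_le_mul_of_nonneg_left h4 hC3
      _ = 26 * C3 := mul_comm _ _
  -- conclusion
  rw [← hR]
  have hfin : ‖Es b β (1 - θ * I + α)‖ ≤ C2 + (8 / κ * C3 * Real.exp (κ * R) +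
      Real.sqrt (26 * C3)) + C1 * Real.exp (κ * R) := by
    rw [hsplit]
    refine (norm_add_le _ _).trans (add_le_add ?_ hrough)
    have h1 := hbil.trans (add_le_add hb2 hb3)
    have h2 : ∀ X Y : ℂ, ‖X‖ ≤ ‖X - Y‖ + ‖Y‖ := by
      intro X Y
      have := norm_add_le (X - Y) Y
      rwa [sub_add_cancel] at this
    exact (h2 _ _).trans (add_le_add hrmd h1)
  have hs0 : 0 ≤ Real.sqrt (26 * C3) := Real.sqrt_nonneg _
  nlinarith

end Pool.Agent.H11.PI
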