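import Mathlib
import Pool.Agent.H11.PI.Defs
import Pool.Agent.H11.PI.IRE
import Pool.Agent.H11.PI.DIO
import Pool.Agent.H11.PE.NZ
import Pool.Agent.H11.PE.RHO
import Pool.Agent.H11.PB.WLIM

/-!
# CTR: irrational conductors which are not extremely well approximable are impossible

The relation between the cusps `a1/c` and `β = c/(q a1)` (`w_lim`) gives a non-zero limit of `om Es b β`; `ire` shows that it is zero.
-/

set_option autoImplicit false

namespace Pool.Agent.H11.PI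

open Complex Filter Topology Pool.Agent.H11.SC Pool.Agent.H11.PC Pool.Agent.H11.PB Pool.Agent.H11.PE

private theorem ctr_conv (b : ℕ → ℂ) (θ : ℝ) (om : ℝ → ℝ) (β : ℝ) :
    (fun α : ℝ => (om α : ℂ) * Es b β (1 - ((-θ : ℝ) : ℂ) * I + α)) =
      fun α : ℝ => (om α : ℂ) * Es b β (1 + θ * I + α) := by
  funext α
  congr 2
  push_cast
  ring

/-- a point `β = c/(q n)` with a non-zero limit -/
theorem nz_point {b : ℕ → ℂ} {θ : ℝ} {U : Ultrafilter ℝ} {om : ℝ → ℝ} {M0 : ℕ}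
    (B : BD0 b θ U om M0) {q : ℝ} (hq : 0 < q) {ωm ωp : ℂ} (h : CStep q b ωm ωp) :
    ∃ (c n : ℕ) (v : ℂ), 1 ≤ c ∧ 1 ≤ n ∧ v ≠ 0 ∧ Tendsto (fun α : ℝ =>
      (om α : ℂ) * Es b ((c : ℝ) / (q * n)) (1 - θ * I + α)) U (𝓝 v) := by
  obtain ⟨c, a, hc, hac, hnz⟩ := nz B
  have hc0 : (0 : ℝ) < c := by exact_mod_cast hc
  have hex : ∀ n : ℕ, ∃ ρ : ℂ, Tendsto (fun α : ℝ =>
      (om α : ℂ) * Es b ((n : ℝ) / (c : ℝ)) (1 + θ * I + α)) U (𝓝 ρ) := by
    intro n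
    obtain ⟨ρ, hρ⟩ := rho_ex B (-θ) (Or.inr rfl) n c hc
    rw [ctr_conv] at hρ
    exact ⟨ρ, hρ⟩
  choose R hR using hex
  have hper : ∀ n j : ℕ, R (n + j * c) = R n := by
    intro n j
    have h1 := hR (n + j * c)
    have e1 : (((n + j * c : ℕ) : ℝ)) / (c : ℝ) = (n : ℝ) / c + j := by
      push_cast
      field_simp
    rw [e1] at h1
    simp only [PE.Es_add] at h1
    exact tendsto_nhds_unique h1 (hR n)
  have hRa : R a ≠ 0 := by
    intro h0
    apply hnz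
    have := hR a
    rw [h0] at this
    exact this
  obtain ⟨j, hj⟩ := exists_nat_gt ((c : ℝ) / q)
  have hjpos : 0 < j := by
    rcases Nat.eq_zero_or_pos j with h0 | h0
    · exfalso
      rw [h0, Nat.cast_zero] at hj
      have : 0 < (c : ℝ) / q := by positivity
      linarith
    · exact h0
  obtain ⟨n, hn⟩ : ∃ n : ℕ, n = a + j * c := ⟨_, rfl⟩
  have hn1 : 1 ≤ n := by
    have : 1 ≤ j * c := Nat.mul_pos hjpos hc
    omega
  have hcn : (c : ℝ) ≤ q * n := by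
    have h1 : (j : ℝ) ≤ (n : ℝ) := by
      have : j ≤ n := by
        have h2 : j * 1 ≤ j * c := Nat.mul_le_mul_left j hc
        omega
      exact_mod_cast this
    rw [div_lt_iff₀ hq] at hj
    nlinarith
  have hRn : R n ≠ 0 := by
    rw [hn, hper]
    exact hRa
  have hn0 : (0 : ℝ) < n := by exact_mod_cast hn1
  have hβ : 0 < (c : ℝ) / (q * n) := by positivity
  have hβ1 : (c : ℝ) / (q * n) ≤ 1 := by
    rw [div_le_one (by positivity)]
    exact hcn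
  have e1 : 1 / (q * ((c : ℝ) / (q * n))) = (n : ℝ) / c := by
    field_simp
  have h1 := w_lim hq h B.pd.ram ((c : ℝ) / (q * n)) hβ hβ1 θ U B.le om B.om0 (R n)
    (by rw [e1]; exact hR n)
  refine ⟨c, n, _, hc, hn1, ?_, h1⟩
  have hωm : ωm ≠ 0 := by
    intro h0
    have h1 := h.hm
    rw [h0, norm_zero] at h1
    exact zero_ne_one h1
  have hsq : 0 < Real.sqrt q := Real.sqrt_pos.2 hq
  refine mul_ne_zero (mul_ne_zero (mul_ne_zero (mul_ne_zero I_ne_zero hωm) ?_) ?_) ?_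
  · have : (0 : ℝ) < Real.sqrt q * ((c : ℝ) / (q * n)) := by positivity
    exact_mod_cast this.ne'
  · have h2 : ((q * ((c : ℝ) / (q * n)) ^ 2 : ℝ) : ℂ) ≠ 0 := by
      have : (0 : ℝ) < q * ((c : ℝ) / (q * n)) ^ 2 := by positivity
      exact_mod_cast this.ne'
    rw [Complex.cpow_def_of_ne_zero h2]
    exact Complex.exp_ne_zero _
  · rw [Ne, map_eq_zero]
    exact hRn

private theorem ctr_growth {T : ℝ → ℝ} (hgr : ∃ Λ : ℝ, ∀ α : ℝ, 0 < α → α ≤ 1 / 2 →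
    T α ≤ Λ * Real.log (1 / α) + Λ) (η : ℝ) (hη : 0 < η) : ∃ (A : ℕ) (α1 : ℝ), 0 < α1 ∧
      ∀ α : ℝ, 0 < α → α < α1 → T α ≤ (1 / α) ^ η ∧
        Real.exp (4 * T α) * (1 / α) ^ (4 : ℕ) ≤ (1 / α) ^ A := by
  obtain ⟨Λ', hΛ'⟩ := hgr
  obtain ⟨Λ, hΛ0, hΛ1⟩ : ∃ Λ : ℝ, 1 ≤ Λ ∧ Λ' ≤ Λ := ⟨max Λ' 1, le_max_right _ _, le_max_left _ _⟩
  obtain ⟨n, hn⟩ := exists_nat_ge (8 * Λ)
  have ev1 : ∀ᶠ x : ℝ in atTop, 2 * Λ * 2 / η ≤ x ^ (η / 2) :=
    (tendsto_rpow_atTop (by positivity)).eventually_ge_atTop _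
  obtain ⟨X, hX⟩ := eventually_atTop.1 (ev1.and (eventually_ge_atTop (4 : ℝ)))
  refine ⟨n + 4, 1 / max X 4, by positivity, fun α hα hα0 => ?_⟩
  obtain ⟨x, hx⟩ : ∃ x : ℝ, x = 1 / α := ⟨_, rfl⟩
  have hmax : 0 < max X 4 := by positivity
  have hxX : max X 4 < x := by
    rw [hx]
    exact (lt_one_div hα hmax).1 hα0
  obtain ⟨h1, h3⟩ := hX x ((le_max_left _ _).trans hxX.le)
  have hx0 : 0 < x := by linarith
  have hαx : α = 1 / x := by rw [hx, one_div_one_div]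
  have hα2 : α ≤ 1 / 2 := by
    rw [hαx]
    exact one_div_le_one_div_of_le (by norm_num) (by linarith)
  have hl1 : 1 ≤ Real.log x := by
    have h4 : Real.log 4 ≤ Real.log x := Real.log_le_log (by norm_num) h3
    have h2 : Real.log 4 = 2 * Real.log 2 := by
      rw [show (4 : ℝ) = 2 ^ 2 by norm_num, Real.log_pow]
      norm_num
    have := Real.log_two_gt_d9
    linarith
  have hT : T α ≤ 2 * Λ * Real.log x := by
    have h4 := hΛ' α hα hα2
    rw [← hx] at h4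
    have h5 : Λ' * Real.log x + Λ' ≤ Λ * Real.log x + Λ := by
      have := mul_le_mul_of_nonneg_right hΛ1 (by linarith : 0 ≤ Real.log x)
      linarith
    nlinarith
  rw [← hx]
  constructor
  · have h4 : Real.log x ≤ x ^ (η / 2) / (η / 2) := Real.log_le_rpow_div hx0.le (by positivity)
    have h5 : x ^ η = x ^ (η / 2) * x ^ (η / 2) := by
      rw [← Real.rpow_add hx0]
      congr 1
      ring
    have h6 : 0 < x ^ (η / 2) := Real.rpow_pos_of_pos hx0 _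
    calc T α ≤ 2 * Λ * Real.log x := hT
      _ ≤ 2 * Λ * (x ^ (η / 2) / (η / 2)) := mul_le_mul_of_nonneg_left h4 (by linarith)
      _ = 2 * Λ * 2 / η * x ^ (η / 2) := by field_simp
      _ ≤ x ^ (η / 2) * x ^ (η / 2) := mul_le_mul_of_nonneg_right h1 h6.le
      _ = x ^ η := h5.symm
  · rw [pow_add]
    apply mul_le_mul_of_nonneg_right _ (by positivity)
    have h4 : 4 * T α ≤ n * Real.log x := by
      have := mul_le_mul_of_nonneg_right hn (by linarith : 0 ≤ Real.log x)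
      linarith
    calc Real.exp (4 * T α) ≤ Real.exp (n * Real.log x) := Real.exp_le_exp.2 h4
      _ = x ^ n := by rw [Real.exp_nat_mul, Real.exp_log hx0]

theorem irr_contra {b : ℕ → ℂ} {θ : ℝ} {U : Ultrafilter ℝ} {om : ℝ → ℝ} {M0 : ℕ}
    (B : BD0 b θ U om M0) (hT : 0 < TT b (1 / 2)) {κ c1 : ℝ} (hκ : 0 < κ) (hc1 : 0 < c1)
    (hom : ∀ᶠ (α : ℝ) in (U : Filter ℝ), 0 < om α ∧ om α ≤ Real.exp (-(κ * RR b α)) / c1)
    (hgr : ∃ Λ : ℝ, ∀ α : ℝ, 0 < α → α ≤ 1 / 2 → TT b α ≤ Λ * Real.log (1 / α) + Λ)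
    {q : ℝ} (hq : 0 < q) (hirr : NotSuper q) {ωm ωp : ℂ} (h : CStep q b ωm ωp) : False := by
  obtain ⟨c, n, v, hc, hn, hv, hlim⟩ := nz_point B hq h
  obtain ⟨η, C, α0, hη, hα0, hire⟩ := ire B.pd (κ / 2) (by positivity)
  obtain ⟨A, α1, hα1, hgrow⟩ := ctr_growth hgr η hη
  obtain ⟨α2, hα2, hdio⟩ := dio_den (dio_inv hq hirr c n hc hn) A η hη
  have hev : ∀ᶠ α : ℝ in (U : Filter ℝ), 0 < α ∧ α < min α0 (min α1 α2) := by
    have h1 : Set.Ioo (0 : ℝ) (min α0 (min α1 α2)) ∈ 𝓝[>] (0 : ℝ) :=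
      Ioo_mem_nhdsGT (lt_min hα0 (lt_min hα1 hα2))
    exact B.le h1
  have hRR : Tendsto (fun α : ℝ => C / c1 * Real.exp (-(κ / 2 * RR b α))) U (𝓝 0) := by
    have h2 : Tendsto (fun α : ℝ => Real.exp (-(κ / 2 * RR b α))) U (𝓝 0) :=
      Real.tendsto_exp_neg_atTop_nhds_zero.comp
        (((RR_tendsto B.pd hT).mono_left B.le).const_mul_atTop (by positivity))
    simpa using h2.const_mul (C / c1)
  have h0 : Tendsto (fun α : ℝ => (om α : ℂ) * Es b ((c : ℝ) / (q * n)) (1 - θ * I + α)) U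
      (𝓝 0) := by
    refine squeeze_zero_norm' ?_ hRR
    filter_upwards [hom, hev] with α h1 h2
    obtain ⟨k, a, hk, hco, hap, hk1, hk2⟩ := hdio α h2.1
      (h2.2.trans_le ((min_le_right _ _).trans (min_le_right _ _)))
    obtain ⟨g1, g2⟩ := hgrow α h2.1 (h2.2.trans_le ((min_le_right _ _).trans (min_le_left _ _)))
    have h3 := hire α h2.1 (h2.2.trans_le (min_le_left _ _)) g1 k a _ hco hap (g2.trans hk1) hk2 θ
    rw [norm_mul, Complex.norm_real, Real.norm_of_nonneg h1.1.le]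
    calc om α * ‖Es b ((c : ℝ) / (q * n)) (1 - θ * I + α)‖
        ≤ (Real.exp (-(κ * RR b α)) / c1) * (C * Real.exp (κ / 2 * RR b α)) :=
          mul_le_mul h1.2 h3 (norm_nonneg _) (by positivity)
      _ = C / c1 * (Real.exp (-(κ * RR b α)) * Real.exp (κ / 2 * RR b α)) := by ring
      _ = C / c1 * Real.exp (-(κ / 2 * RR b α)) := by
          rw [← Real.exp_add]
          congr 2
          ring
  exact hv (tendsto_nhds_unique hlim h0)

end Pool.Agent.H11.PI
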