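import Mathlib
import Pool.Agent.H11.PI.Defs
import Pool.Agent.H11.PI.CHZ1
import Pool.Agent.H11.PI.CTR
import Pool.Agent.H11.PC.PDOF
import Pool.Agent.H11.PC.SB
import Pool.Agent.H11.PB.NRM2
import Pool.Agent.H11.SC5.StepC
import Pool.Agent.H11.SC.Final

/-!
# ALI: no pretentious entire functions of degree two with an irrational conductor which is not extremely well approximable
-/

set_option autoImplicit false

namespace Pool.Agent.H11.PI

open Complex Filter Topology Pool.Agent.H11.Selberg Pool.Agent.H11.SC Pool.Agent.H11.PC Pool.Agent.H11.PE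

theorem alternative_irr (a : ℕ → ℂ) (F : ℂ → ℂ) (hS : IsSelberg a F) (G : ℂ → ℂ)
    (hG : Differentiable ℂ G) (hGF : ∀ s, s ≠ 1 → G s = F s)
    (Q : ℝ) (r : ℕ) (lam : Fin r → ℝ) (mu : Fin r → ℂ) (ε : ℂ)
    (hQ : 0 < Q) (hlam : ∀ j, 0 < lam j) (hmu : ∀ j, 0 ≤ (mu j).re) (hε : ‖ε‖ = 1)
    (hfe : ∀ s : ℂ, 0 < s.re → s.re < 1 →
      completed Q lam mu F s =
        ε * (starRingEnd ℂ) (completed Q lam mu F (1 - (starRingEnd ℂ) s)))
    (hdeg : 2 * ∑ j, lam j = 2)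
    (hirr : NotSuper ((2 * Real.pi) ^ 2 * Q ^ 2 * ∏ j, (lam j) ^ (2 * lam j)))
    (hO : ∃ C : ℝ, ∀ x : ℝ, 16 ≤ x → S a x ≤ C * Real.log (Real.log x)) :
    ∀ (L : ℕ) (_ : NeZero L) (χ : DirichletCharacter ℂ L) (t η : ℝ), 0 < η →
      ∃ C : ℝ, ∀ α : ℝ, 0 < α → α ≤ 1 / 2 →
        (PS (fun n => a n * χ (n : ZMod L)) (1 + t * I + α)).re ≤ η * RR a α + C := by
  intro L hL χ t η hη
  by_contra hbad
  push Not at hbad
  obtain ⟨δ, F', mu', ε', hFE⟩ := Pool.Agent.H11.PB.normalise2 a F hS G hG hGF Q r lam mu ε hQ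
    hlam hmu hε hfe (by linarith)
  obtain ⟨ωm, ωp, hC⟩ := cstep hFE
  have hqe := cond_eq Q r lam hlam
  have hq0 : 0 < (2 * Real.pi * Bp Q lam) ^ 2 := by
    have h1 : 0 < Bp Q lam := by
      unfold Bp
      have : 0 < ∏ j, (lam j) ^ (lam j) :=
        Finset.prod_pos fun j _ => Real.rpow_pos_of_pos (hlam j) _
      positivity
    positivity
  rw [hqe] at hirr
  obtain ⟨θ, U, om, M0, c1, hB, hT, hc1, hom⟩ := chapter_one a F hS δ χ t η hη hbad
  refine irr_contra hB hT hη hc1 hom ?_ hq0 hirr hC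
  obtain ⟨C, hC0, hsb⟩ := sb_sum (pd_of a F hS hO δ)
  exact ⟨C, fun α h1 h2 => hsb α h1 h2⟩

end Pool.Agent.H11.PI
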