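import Mathlib
import Pool.Agent.H11.PI.RDefs
import Pool.Agent.H11.PI.ALI
import Pool.Agent.H11.PE.FINL

/-!
# FINI: both kinds of conductors
-/

set_option autoImplicit false

namespace Pool.Agent.H11.PI

open Complex Filter Topology Pool.Agent.H11.Selberg Pool.Agent.H11.SC Pool.Agent.H11.PC
  Pool.Agent.H11.PE

theorem pair_or_all (a : ℕ → ℂ) (F : ℂ → ℂ) (hS : IsSelberg a F) (G : ℂ → ℂ)
    (hG : Differentiable ℂ G) (hGF : ∀ s, s ≠ 1 → G s = F s)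
    (Q : ℝ) (r : ℕ) (lam : Fin r → ℝ) (mu : Fin r → ℂ) (ε : ℂ)
    (hQ : 0 < Q) (hlam : ∀ j, 0 < lam j) (hmu : ∀ j, 0 ≤ (mu j).re) (hε : ‖ε‖ = 1)
    (hfe : ∀ s : ℂ, 0 < s.re → s.re < 1 →
      completed Q lam mu F s =
        ε * (starRingEnd ℂ) (completed Q lam mu F (1 - (starRingEnd ℂ) s)))
    (hdeg : 2 * ∑ j, lam j = 2)
    (hq : (∃ k : ℚ, (2 * Real.pi) ^ 2 * Q ^ 2 * ∏ j, (lam j) ^ (2 * lam j) = (k : ℝ)) ∨
      (NotSuper ((2 * Real.pi) ^ 2 * Q ^ 2 * ∏ j, (lam j) ^ (2 * lam j)) ∧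
        ∃ C : ℝ, ∀ x : ℝ, 16 ≤ x → S a x ≤ C * Real.log (Real.log x))) :
    IsDirichletPair F ∨ NotPretentious a := by
  rcases hq with hq | ⟨hq, hO⟩
  · exact pair_or a F hS G hG hGF Q r lam mu ε hQ hlam hmu hε hfe hdeg hq
  · right
    exact alternative_irr a F hS G hG hGF Q r lam mu ε hQ hlam hmu hε hfe hdeg hq hO

end Pool.Agent.H11.PI
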